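import Mathlib

/-!
# Long-range first-passage percolation at the exponent `2d + 1`: definitions
-/

namespace Pool.Agent.Lib_helper7.FPP

open scoped ENNReal
open MeasureTheory ProbabilityTheory

/-- The `ℓ¹` length of an unordered pair of points of `ℤ^d`. -/
def edgeLen {d : ℕ} (e : Sym2 (Fin d → ℤ)) : ℕ :=
  Sym2.lift ⟨fun y z => ∑ i, (y i - z i).natAbs, fun y z =>
    Finset.sum_congr rfl fun i _ => by rw [← Int.natAbs_neg, neg_sub]⟩ e

/-- The traversal time of the edge `e`, that is `ω_e / r(‖e‖₁)` where `r(k) = k^{-(2d+1)}`. -/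
noncomputable def W {d : ℕ} (ω : Sym2 (Fin d → ℤ) → ℝ) (e : Sym2 (Fin d → ℤ)) : ℝ :=
  ω e * (edgeLen e : ℝ) ^ (2 * d + 1)

/-- The passage time of a path of the complete graph on `ℤ^d`. -/
noncomputable def cost {d : ℕ} (ω : Sym2 (Fin d → ℤ) → ℝ) {y z : Fin d → ℤ}
    (p : (⊤ : SimpleGraph (Fin d → ℤ)).Walk y z) : ℝ :=
  (p.edges.map (W ω)).sum

/-- The first-passage time between two points. -/
noncomputable def T {d : ℕ} (ω : Sym2 (Fin d → ℤ) → ℝ) (y z : Fin d → ℤ) : ℝ :=
  ⨅ p : (⊤ : SimpleGraph (Fin d → ℤ)).Walk y z, cost ω p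

/-- The family `ξ` of edge weights: independent exponential variables of mean one on the edges
(the unordered pairs of distinct points) of the complete graph on `V`. -/
structure IsExpFamily {V Ω : Type*} [MeasurableSpace Ω] (P : Measure Ω)
    (ξ : Sym2 V → Ω → ℝ) : Prop where
  meas : ∀ e, ¬ e.IsDiag → Measurable (ξ e)
  indep : iIndepFun (fun e : {e : Sym2 V // ¬ e.IsDiag} => ξ e) P
  law : ∀ e, ¬ e.IsDiag → P.map (ξ e) = expMeasure 1

end Pool.Agent.Lib_helper7.FPP
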