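import Mathlib

/-!
# Lattice sums for long-range first-passage percolation
-/

namespace Pool.Agent.Lib_helper7.FPP

open scoped ENNReal RealInnerProductSpace
open Real

/-- The inclusion of `ℤ^d` in Euclidean space. -/
noncomputable def emb {d : ℕ} (v : Fin d → ℤ) : EuclideanSpace ℝ (Fin d) :=
  WithLp.toLp 2 (fun i => (v i : ℝ))

@[simp] theorem emb_apply {d : ℕ} (v : Fin d → ℤ) (i : Fin d) : emb v i = (v i : ℝ) := rfl

theorem emb_sub {d : ℕ} (v w : Fin d → ℤ) : emb (v - w) = emb v - emb w := by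
  ext i; simp

theorem emb_add {d : ℕ} (v w : Fin d → ℤ) : emb (v + w) = emb v + emb w := by
  ext i; simp

theorem emb_injective {d : ℕ} : Function.Injective (emb (d := d)) := by
  intro v w h
  funext i
  have := congrArg (fun x : EuclideanSpace ℝ (Fin d) => x i) h
  simpa using this

theorem tsum_pi_prod (d : ℕ) (f : Fin d → ℤ → ℝ≥0∞) :
    ∑' m : Fin d → ℤ, ∏ i, f i (m i) = ∏ i, ∑' k, f i k := by
  induction d with
  | zero => simp
  | succ d ih =>
    rw [← (Fin.consEquiv (fun _ : Fin (d + 1) => ℤ)).tsum_eq]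
    rw [ENNReal.tsum_prod']
    simp only [Fin.consEquiv_apply, Fin.prod_univ_succ, Fin.cons_zero, Fin.cons_succ]
    simp only [ENNReal.tsum_mul_left, ih (fun i => f i.succ), ENNReal.tsum_mul_right]

theorem tsum_int_exp {a : ℝ} (h0 : 0 < a) (h1 : a ≤ 1) :
    ∑' m : ℤ, ENNReal.ofReal (exp (-(a * |(m : ℝ)|))) ≤ ENNReal.ofReal (4 / a) := by
  rw [tsum_of_nat_of_neg_add_one ENNReal.summable ENNReal.summable]
  have e1 : ∀ n : ℕ, ENNReal.ofReal (exp (-(a * |((n : ℤ) : ℝ)|))) =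
      ENNReal.ofReal (exp (-a)) ^ n := by
    intro n
    rw [← ENNReal.ofReal_pow (exp_pos _).le, ← exp_nat_mul]
    congr 2
    rw [Int.cast_natCast, abs_of_nonneg (Nat.cast_nonneg n)]
    ring
  have e2 : ∀ n : ℕ, ENNReal.ofReal (exp (-(a * |((-((n : ℤ) + 1) : ℤ) : ℝ)|))) ≤
      ENNReal.ofReal (exp (-a)) ^ n := by
    intro n
    rw [← e1]
    apply ENNReal.ofReal_le_ofReal
    rw [exp_le_exp]
    have : |((n : ℤ) : ℝ)| ≤ |((-((n : ℤ) + 1) : ℤ) : ℝ)| := by
      push_cast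
      rw [abs_neg, abs_of_nonneg (Nat.cast_nonneg n), abs_of_nonneg (by positivity)]
      linarith
    nlinarith
  have hg : (1 - ENNReal.ofReal (exp (-a)))⁻¹ ≤ ENNReal.ofReal (2 / a) := by
    rw [← ENNReal.ofReal_one, ← ENNReal.ofReal_sub _ (exp_pos _).le]
    rw [show (2 : ℝ) / a = (a / 2)⁻¹ by rw [inv_div], ENNReal.ofReal_inv_of_pos (by positivity)]
    rw [ENNReal.inv_le_inv]
    apply ENNReal.ofReal_le_ofReal
    have := Real.exp_bound' (x := a) h0.le h1 (n := 2) (by norm_num)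
    have h3 : exp (-a) ≤ 1 - a / 2 := by
      have h4 : 1 + a + a ^ 2 / 2 ≤ exp a := Real.quadratic_le_exp_of_nonneg h0.le
      rw [Real.exp_neg, inv_le_comm₀ (exp_pos _) (by linarith)]
      refine le_trans ?_ h4
      rw [inv_le_iff_one_le_mul₀ (by linarith)]
      nlinarith [mul_pos h0 h0, mul_pos (mul_pos h0 h0) h0]
    linarith
  calc _ ≤ ∑' n : ℕ, ENNReal.ofReal (exp (-a)) ^ n + ∑' n : ℕ, ENNReal.ofReal (exp (-a)) ^ n := by
        apply add_le_add
        · exact ENNReal.tsum_le_tsum fun n => (e1 n).le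
        · exact ENNReal.tsum_le_tsum fun n => e2 n
    _ ≤ ENNReal.ofReal (2 / a) + ENNReal.ofReal (2 / a) := by
        rw [ENNReal.tsum_geometric]
        exact add_le_add hg hg
    _ = ENNReal.ofReal (4 / a) := by
        rw [← ENNReal.ofReal_add (by positivity) (by positivity)]
        congr 1; ring

/-- The pointwise lower bound for the exponent. -/
theorem exponent_bound {d : ℕ} (e x : EuclideanSpace ℝ (Fin d)) (he : ‖e‖ = 1) {a b : ℝ}
    (ha : 0 < a) (hb : 0 < b) :
    a ^ 2 / 2 * ‖x‖ + a * b * ‖x - (⟪e, x⟫ : ℝ) • e‖ ≤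
      a ^ 2 * ‖x‖ + b ^ 2 * (‖x‖ - ⟪e, x⟫) := by
  set t : ℝ := ⟪e, x⟫ with ht
  set h := ‖x - t • e‖ with hh
  have hx : 0 ≤ ‖x‖ := norm_nonneg x
  have htx : t ≤ ‖x‖ := by
    have := real_inner_le_norm e x
    rw [he, one_mul] at this
    exact this
  have h2 : h ^ 2 = ‖x‖ ^ 2 - t ^ 2 := by
    rw [hh, @norm_sub_sq_real, norm_smul, real_inner_smul_right, real_inner_comm, ← ht, he,
      mul_one, Real.norm_eq_abs, sq_abs]
    ring
  have h3 : h ^ 2 ≤ 2 * ‖x‖ * (‖x‖ - t) := by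
    rw [h2]; nlinarith
  have hu : 0 ≤ ‖x‖ - t := by linarith
  have key : a * b * h ≤ a ^ 2 / 2 * ‖x‖ + b ^ 2 * (‖x‖ - t) := by
    apply le_of_sq_le_sq _ (by positivity)
    have h4 : 4 * (a ^ 2 / 2 * ‖x‖) * (b ^ 2 * (‖x‖ - t)) ≤
        (a ^ 2 / 2 * ‖x‖ + b ^ 2 * (‖x‖ - t)) ^ 2 := by
      nlinarith [sq_nonneg (a ^ 2 / 2 * ‖x‖ - b ^ 2 * (‖x‖ - t))]
    calc (a * b * h) ^ 2 = (a * b) ^ 2 * h ^ 2 := by ring
      _ ≤ (a * b) ^ 2 * (2 * ‖x‖ * (‖x‖ - t)) := by gcongr
      _ = 4 * (a ^ 2 / 2 * ‖x‖) * (b ^ 2 * (‖x‖ - t)) := by ring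
      _ ≤ _ := h4
  linarith

/-- The lattice sum that gives the exponent `(d+1)/2`. -/
theorem lattice_sum {d : ℕ} (hd : 1 ≤ d) (e : EuclideanSpace ℝ (Fin d)) (he : ‖e‖ = 1) {a b : ℝ}
    (ha : 0 < a) (hab : a ≤ b) (hb : b ≤ 1) :
    ∑' v : Fin d → ℤ, ENNReal.ofReal (exp (-(a ^ 2 * ‖emb v‖ + b ^ 2 * (‖emb v‖ - ⟪e, emb v⟫)))) ≤
      ENNReal.ofReal (16 * (8 * d) ^ (d - 1) / (a ^ (d + 1) * b ^ (d - 1))) := by
  have hb0 : 0 < b := ha.trans_le hab
  have ha1 : a ≤ 1 := hab.trans hb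
  have : Nonempty (Fin d) := ⟨⟨0, hd⟩⟩
  obtain ⟨i₀, hi₀⟩ := Finite.exists_max (fun i => |e i|)
  have hd0 : (1 : ℝ) ≤ d := by exact_mod_cast hd
  have hei : 0 < |e i₀| := by
    rcases (abs_nonneg (e i₀)).lt_or_eq with h | h
    · exact h
    · exfalso
      have : e = 0 := by
        ext i
        have := hi₀ i
        rw [← h] at this
        exact abs_eq_zero.1 (le_antisymm this (abs_nonneg _))
      rw [this, norm_zero] at he
      exact zero_ne_one he
  set ρ : Fin d → ℝ := fun i => e i / e i₀ with hρ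
  have hρ1 : ∀ i, |ρ i| ≤ 1 := by
    intro i
    rw [hρ, abs_div, div_le_one hei]
    exact hi₀ i
  set c : ℝ := a * b / (2 * d) with hc
  have hc0 : 0 < c := by positivity
  have hc1 : c ≤ 1 := by
    rw [hc, div_le_one (by positivity)]
    nlinarith
  -- the shear
  set φ : (Fin d → ℤ) → (Fin d → ℤ) := fun v i =>
    if i = i₀ then v i else v i - ⌊(v i₀ : ℝ) * ρ i⌋ with hφ
  have hφi : Function.Injective φ := by
    intro v w h
    have h0 : v i₀ = w i₀ := by
      have := congrFun h i₀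
      simpa [hφ] using this
    funext i
    by_cases hi : i = i₀
    · rw [hi, h0]
    · have := congrFun h i
      simp only [hφ, hi, if_false, h0] at this
      linarith
  set f : Fin d → ℤ → ℝ≥0∞ := fun i k =>
    if i = i₀ then ENNReal.ofReal (exp (-(a ^ 2 / 2 * |(k : ℝ)|)))
    else ENNReal.ofReal (exp (-(c * |(k : ℝ)|))) with hf
  have hpt : ∀ v : Fin d → ℤ,
      ENNReal.ofReal (exp (-(a ^ 2 * ‖emb v‖ + b ^ 2 * (‖emb v‖ - ⟪e, emb v⟫)))) ≤
        ENNReal.ofReal 2 * ∏ i, f i (φ v i) := by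
    intro v
    have hprod : ∏ i, f i (φ v i) = ENNReal.ofReal (exp (-(a ^ 2 / 2 * |(φ v i₀ : ℝ)| +
        ∑ i ∈ Finset.univ.erase i₀, c * |(φ v i : ℝ)|))) := by
      rw [← Finset.mul_prod_erase Finset.univ _ (Finset.mem_univ i₀)]
      rw [neg_add, exp_add, ENNReal.ofReal_mul (exp_pos _).le]
      congr 1
      · simp [hf]
      · rw [← Finset.sum_neg_distrib, exp_sum, ENNReal.ofReal_prod_of_nonneg
          (fun i _ => (exp_pos _).le)]
        apply Finset.prod_congr rfl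
        intro i hi
        simp [hf, Finset.ne_of_mem_erase hi]
    rw [hprod]
    rw [← ENNReal.ofReal_mul (by norm_num)]
    apply ENNReal.ofReal_le_ofReal
    set x := emb v with hx
    set t : ℝ := ⟪e, x⟫ with ht
    set h := ‖x - t • e‖ with hh
    have hh0 : 0 ≤ h := norm_nonneg _
    have hw : ∀ i, |x i - t * e i| ≤ h := by
      intro i
      have := PiLp.norm_apply_le (x - t • e) i
      simpa using this
    have h4 : ∀ i, |(v i : ℝ) - v i₀ * ρ i| ≤ 2 * h := by
      intro i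
      have e1 : (v i : ℝ) - v i₀ * ρ i = (x i - t * e i) - (x i₀ - t * e i₀) * ρ i := by
        have : e i₀ * ρ i = e i := by
          rw [hρ]; field_simp [abs_pos.1 hei]
        rw [hx, emb_apply, emb_apply]
        linear_combination (-t) * this
      rw [e1]
      calc _ ≤ |x i - t * e i| + |(x i₀ - t * e i₀) * ρ i| := abs_sub _ _
        _ ≤ h + h * 1 := by
            rw [abs_mul]
            exact add_le_add (hw i) (mul_le_mul (hw i₀) (hρ1 i) (abs_nonneg _) hh0)
        _ = 2 * h := by ring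
    have h5 : ∀ i ∈ Finset.univ.erase i₀, c * |(φ v i : ℝ)| ≤ c * (2 * h + 1) := by
      intro i hi
      have hi' := Finset.ne_of_mem_erase hi
      apply mul_le_mul_of_nonneg_left _ hc0.le
      have e1 : (φ v i : ℝ) = ((v i : ℝ) - v i₀ * ρ i) + ((v i₀ : ℝ) * ρ i - ⌊(v i₀ : ℝ) * ρ i⌋) := by
        simp only [hφ, hi', if_false]
        push_cast
        ring
      rw [e1]
      calc _ ≤ |(v i : ℝ) - v i₀ * ρ i| + |(v i₀ : ℝ) * ρ i - ⌊(v i₀ : ℝ) * ρ i⌋| := abs_add_le _ _
        _ ≤ 2 * h + 1 := by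
            apply add_le_add (h4 i)
            rw [abs_le]
            constructor
            · linarith [Int.floor_le ((v i₀ : ℝ) * ρ i)]
            · linarith [Int.lt_floor_add_one ((v i₀ : ℝ) * ρ i)]
    have h6 : ∑ i ∈ Finset.univ.erase i₀, c * |(φ v i : ℝ)| ≤ a * b * h + 1 / 2 := by
      refine (Finset.sum_le_sum h5).trans ?_
      rw [Finset.sum_const, Finset.card_erase_of_mem (Finset.mem_univ _), Finset.card_univ,
        Fintype.card_fin, nsmul_eq_mul, Nat.cast_sub hd, Nat.cast_one]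
      have : (d : ℝ) * c = a * b / 2 := by
        rw [hc]; field_simp
      have hh1 : ((d : ℝ) - 1) * (c * (2 * h + 1)) ≤ d * (c * (2 * h + 1)) := by
        apply mul_le_mul_of_nonneg_right (by linarith) (by positivity)
      have hab1 : a * b ≤ 1 := by nlinarith
      calc _ ≤ d * (c * (2 * h + 1)) := hh1
        _ = (d * c) * (2 * h + 1) := by ring
        _ = a * b * h + a * b / 2 := by rw [this]; ring
        _ ≤ _ := by linarith
    have h7 : |(φ v i₀ : ℝ)| ≤ ‖x‖ := by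
      have := PiLp.norm_apply_le x i₀
      simpa [hφ, hx] using this
    have h8 := exponent_bound e x he ha hb0
    rw [← ht, ← hh] at h8
    have h10 : exp ((1 : ℝ) / 2) ≤ 2 := by
      rw [← Real.le_log_iff_exp_le (by norm_num)]
      have := Real.log_two_gt_d9
      linarith
    refine le_trans ?_ (mul_le_mul_of_nonneg_right h10 (exp_pos _).le)
    rw [← exp_add, exp_le_exp]
    have h11 : a ^ 2 / 2 * |(φ v i₀ : ℝ)| ≤ a ^ 2 / 2 * ‖x‖ := by gcongr
    linarith
  calc _ ≤ ∑' v : Fin d → ℤ, ENNReal.ofReal 2 * ∏ i, f i (φ v i) := ENNReal.tsum_le_tsum hpt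
    _ = ENNReal.ofReal 2 * ∑' v : Fin d → ℤ, ∏ i, f i (φ v i) := ENNReal.tsum_mul_left
    _ ≤ ENNReal.ofReal 2 * ∑' m : Fin d → ℤ, ∏ i, f i (m i) :=
        mul_le_mul' le_rfl
          (ENNReal.tsum_comp_le_tsum_of_injective hφi (fun m => ∏ i, f i (m i)))
    _ = ENNReal.ofReal 2 * ∏ i, ∑' k, f i k := by rw [tsum_pi_prod]
    _ ≤ ENNReal.ofReal 2 * (ENNReal.ofReal (8 / a ^ 2) * ENNReal.ofReal (4 / c) ^ (d - 1)) := by
        refine mul_le_mul' le_rfl ?_
        rw [← Finset.mul_prod_erase Finset.univ _ (Finset.mem_univ i₀)]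
        apply mul_le_mul'
        · simp only [hf, if_true]
          refine (tsum_int_exp (by positivity) (by nlinarith)).trans ?_
          apply ENNReal.ofReal_le_ofReal
          apply le_of_eq
          field_simp
          norm_num
        · refine (Finset.prod_le_prod' (g := fun _ => ENNReal.ofReal (4 / c)) ?_).trans ?_
          · intro i hi
            simp only [hf, Finset.ne_of_mem_erase hi, if_false]
            exact tsum_int_exp hc0 hc1
          · rw [Finset.prod_const, Finset.card_erase_of_mem (Finset.mem_univ _),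
              Finset.card_univ, Fintype.card_fin]
    _ = ENNReal.ofReal (16 * (8 * d) ^ (d - 1) / (a ^ (d + 1) * b ^ (d - 1))) := by
        rw [← ENNReal.ofReal_pow (by positivity), ← ENNReal.ofReal_mul (by positivity)]
        rw [← ENNReal.ofReal_mul (by norm_num)]
        congr 1
        obtain ⟨k, rfl⟩ : ∃ k, d = k + 1 := ⟨d - 1, by omega⟩
        simp only [Nat.add_sub_cancel]
        rw [hc]
        push_cast
        rw [show (4 : ℝ) / (a * b / (2 * (↑k + 1))) = 8 * (↑k + 1) / (a * b) by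
          field_simp; norm_num]
        rw [div_pow, mul_pow a b]
        field_simp
        ring

end Pool.Agent.Lib_helper7.FPP
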