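import Mathlib

/-!
# Generating functions of hierarchical lists of steps
-/

namespace Pool.Agent.Lib_helper7.FPP

open scoped ENNReal
open Real

theorem tsum_list {A : Type*} (f : List A → ℝ≥0∞) :
    ∑' s, f s = f [] + ∑' (a : A) (s : List A), f (a :: s) := by
  let e : (Unit ⊕ (A × List A)) ≃ List A :=
    { toFun := Sum.elim (fun _ => []) (fun p => p.1 :: p.2)
      invFun := fun s => match s with
        | [] => Sum.inl ()
        | a :: s => Sum.inr (a, s)
      left_inv := by rintro (⟨⟩ | ⟨a, s⟩) <;> rfl
      right_inv := by rintro (_ | ⟨a, s⟩) <;> rfl }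
  rw [← e.tsum_eq, Summable.tsum_sum ENNReal.summable ENNReal.summable]
  congr 1
  · simp [e]
  · rw [ENNReal.tsum_prod']
    rfl

theorem tsum_le_of_length {A : Type*} (f : List A → ℝ≥0∞) (B : ℝ≥0∞)
    (h : ∀ N : ℕ, ∑' s : List A, (if s.length < N then f s else 0) ≤ B) : ∑' s, f s ≤ B := by
  rw [ENNReal.tsum_eq_iSup_sum]
  refine iSup_le fun F => ?_
  refine le_trans ?_ (h (F.sup List.length + 1))
  refine le_trans ?_ (ENNReal.sum_le_tsum F)
  refine Finset.sum_le_sum fun s hs => ?_
  rw [if_pos]
  exact Nat.lt_succ_of_le (Finset.le_sup (f := List.length) hs)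

section Abstract

variable {V : Type*} (D : V → V → ℝ) (cls : V × V → ℕ)

/-- The length of the polygon that starts at `p` and goes through all the steps of the list. -/
noncomputable def len : V → List (V × V) → ℝ
  | _, [] => 0
  | p, a :: s => D p a.1 + D a.1 a.2 + len a.2 s

/-- The sum of the gaps before the steps of class `i`. -/
noncomputable def gap (i : ℕ) : V → List (V × V) → ℝ
  | _, [] => 0
  | p, a :: s => (if cls a = i then D p a.1 else 0) + gap i a.2 s

/-- The steps of class at least `i`. -/
def filt (i : ℕ) (s : List (V × V)) : List (V × V) := s.filter (fun a => decide (i ≤ cls a))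

variable {D cls}

open Classical in
/-- The contribution of a first step that is the first step of `t`. -/
noncomputable def sec {A : Type*} (u : ℝ≥0∞) (a : A) : List A → ℝ≥0∞
  | [] => 0
  | b :: t' => if a = b then u ^ (t'.length + 1) else 0

theorem sec_self {A : Type*} (u : ℝ≥0∞) (a : A) (t : List A) :
    sec u a (a :: t) = u ^ (t.length + 1) := by
  simp [sec]

theorem tsum_sec {A : Type*} (u : ℝ≥0∞) (b : A) (t : List A) :
    ∑' a, sec u a (b :: t) = u ^ (t.length + 1) := by
  classical
  rw [tsum_eq_single b]
  · exact sec_self u b t
  · intro a ha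
    simp [sec, ha]

open Classical in
theorem insertion (i : ℕ) (κ x u : ℝ≥0∞) (α β : ℝ)
    (hx : ∀ p t, ∑' a : V × V, (if cls a = i then κ * ENNReal.ofReal (exp (-(β * (D p a.1 +
      D a.1 a.2 + len D a.2 t - len D p t) + α * D p a.1))) else 0) ≤ x)
    (hu : 1 + x * u ≤ u) (N : ℕ) (p : V) (t : List (V × V)) :
    ∑' s : List (V × V), (if s.length < N then
      (if (∀ a ∈ s, i ≤ cls a) ∧ filt cls (i + 1) s = t then
        κ ^ (s.countP (fun a => decide (cls a = i))) *
          ENNReal.ofReal (exp (-(β * (len D p s - len D p t) + α * gap D cls i p s)))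
        else 0) else 0) ≤ u ^ (t.length + 1) := by
  induction N generalizing p t with
  | zero => simp
  | succ N ih =>
    rw [tsum_list]
    -- the bound for a first step `a`
    have hstep : ∀ a : V × V, ∑' s : List (V × V), (if (a :: s).length < N + 1 then
        (if (∀ a' ∈ a :: s, i ≤ cls a') ∧ filt cls (i + 1) (a :: s) = t then
          κ ^ ((a :: s).countP (fun a => decide (cls a = i))) *
            ENNReal.ofReal (exp (-(β * (len D p (a :: s) - len D p t) +
              α * gap D cls i p (a :: s))))
          else 0) else 0) ≤
        (if cls a = i then κ * ENNReal.ofReal (exp (-(β * (D p a.1 +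
          D a.1 a.2 + len D a.2 t - len D p t) + α * D p a.1))) else 0) * u ^ (t.length + 1) +
        sec u a t := by
      intro a
      rcases lt_trichotomy (cls a) i with hc | hc | hc
      · -- class too small
        have : ∀ s : List (V × V), (if (a :: s).length < N + 1 then
            (if (∀ a' ∈ a :: s, i ≤ cls a') ∧ filt cls (i + 1) (a :: s) = t then
            κ ^ ((a :: s).countP (fun a => decide (cls a = i))) *
            ENNReal.ofReal (exp (-(β * (len D p (a :: s) - len D p t) +
              α * gap D cls i p (a :: s))))
            else 0) else 0) = 0 := by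
          intro s
          rw [if_neg (c := (∀ a' ∈ a :: s, i ≤ cls a') ∧ _), ite_self]
          intro h
          have := h.1 a (List.mem_cons_self)
          omega
        simp only [this, tsum_zero, zero_le]
      · -- class `i`
        refine le_trans ?_ le_self_add
        rw [if_pos hc]
        refine le_trans ?_ (mul_le_mul' le_rfl (ih a.2 t))
        rw [← ENNReal.tsum_mul_left]
        refine ENNReal.tsum_le_tsum fun s => ?_
        rw [mul_ite, mul_zero]
        by_cases hN : s.length < N
        swap
        · rw [if_neg (by simpa using hN), if_neg hN]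
        rw [if_pos (by simpa using hN), if_pos hN, mul_ite, mul_zero]
        split_ifs with h2 h3 h3
        · have e1 : (a :: s).countP (fun a => decide (cls a = i)) =
              s.countP (fun a => decide (cls a = i)) + 1 := by
            rw [List.countP_cons_of_pos]; simpa using hc
          rw [e1, pow_succ']
          have e2 : -(β * (len D p (a :: s) - len D p t) + α * gap D cls i p (a :: s)) =
              -(β * (D p a.1 + D a.1 a.2 + len D a.2 t - len D p t) + α * D p a.1) +
              -(β * (len D a.2 s - len D a.2 t) + α * gap D cls i a.2 s) := by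
            simp only [len, gap, if_pos hc]; ring
          rw [e2, exp_add, ENNReal.ofReal_mul (exp_pos _).le]
          apply le_of_eq; ring
        · exfalso
          apply h3
          refine ⟨fun a' ha' => h2.1 a' (List.mem_cons_of_mem _ ha'), ?_⟩
          have := h2.2
          rw [filt, List.filter_cons_of_neg] at this
          · exact this
          · simp [hc]
        · exact zero_le
        · simp
      · -- class larger than `i`
        refine le_trans ?_ le_add_self
        have hne : cls a ≠ i := by omega
        cases t with
        | nil =>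
          have : ∀ s : List (V × V), (if (a :: s).length < N + 1 then
              (if (∀ a' ∈ a :: s, i ≤ cls a') ∧ filt cls (i + 1) (a :: s) = [] then
              κ ^ ((a :: s).countP (fun a => decide (cls a = i))) *
              ENNReal.ofReal (exp (-(β * (len D p (a :: s) - len D p []) +
                α * gap D cls i p (a :: s))))
              else 0) else 0) = 0 := by
            intro s
            rw [if_neg (c := (∀ a' ∈ a :: s, i ≤ cls a') ∧ _), ite_self]
            intro h
            have := h.2
            rw [filt, List.filter_cons_of_pos] at this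
            · exact absurd this (by simp)
            · simp; omega
          simp only [this, tsum_zero, zero_le]
        | cons b t' =>
          by_cases hab : a = b
          · subst hab
            rw [sec_self]
            refine le_trans ?_ (ih a.2 t')
            refine ENNReal.tsum_le_tsum fun s => ?_
            by_cases hN : s.length < N
            swap
            · rw [if_neg (by simpa using hN), if_neg hN]
            rw [if_pos (by simpa using hN), if_pos hN]
            split_ifs with h2 h3 h3
            · have e1 : (a :: s).countP (fun a => decide (cls a = i)) =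
                  s.countP (fun a => decide (cls a = i)) := by
                rw [List.countP_cons_of_neg]; simpa using hne
              rw [e1]
              have e2 : -(β * (len D p (a :: s) - len D p (a :: t')) +
                  α * gap D cls i p (a :: s)) =
                  -(β * (len D a.2 s - len D a.2 t') + α * gap D cls i a.2 s) := by
                simp only [len, gap, if_neg hne]; ring
              rw [e2]
            · exfalso
              apply h3
              refine ⟨fun a' ha' => h2.1 a' (List.mem_cons_of_mem _ ha'), ?_⟩
              have := h2.2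
              rw [filt, List.filter_cons_of_pos] at this
              · exact (List.cons_inj_right _).1 this
              · simp; omega
            · exact zero_le
            · simp
          · have : ∀ s : List (V × V), (if (a :: s).length < N + 1 then
                (if (∀ a' ∈ a :: s, i ≤ cls a') ∧ filt cls (i + 1) (a :: s) = b :: t' then
                κ ^ ((a :: s).countP (fun a => decide (cls a = i))) *
                ENNReal.ofReal (exp (-(β * (len D p (a :: s) - len D p (b :: t')) +
                  α * gap D cls i p (a :: s))))
                else 0) else 0) = 0 := by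
              intro s
              rw [if_neg (c := (∀ a' ∈ a :: s, i ≤ cls a') ∧ _), ite_self]
              intro h
              have := h.2
              rw [filt, List.filter_cons_of_pos] at this
              · exact hab (List.cons.inj this).1
              · simp; omega
            simp only [this, tsum_zero, zero_le]
    refine le_trans (add_le_add le_rfl (ENNReal.tsum_le_tsum hstep)) ?_
    rw [ENNReal.tsum_add, ENNReal.tsum_mul_right]
    cases t with
    | nil =>
      simp only [sec, tsum_zero, add_zero, List.length_nil, zero_add, pow_one]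
      refine le_trans (add_le_add ?_ (mul_le_mul' (hx p []) le_rfl)) hu
      simp [len, gap, filt]
    | cons b t' =>
      rw [if_pos (by simp), if_neg, zero_add]
      · rw [tsum_sec]
        refine le_trans (add_le_add (mul_le_mul' (hx p (b :: t')) le_rfl) le_rfl) ?_
        rw [List.length_cons]
        calc x * u ^ (t'.length + 1 + 1) + u ^ (t'.length + 1)
            = (1 + x * u) * u ^ (t'.length + 1) := by ring
          _ ≤ u * u ^ (t'.length + 1) := mul_le_mul' hu le_rfl
          _ = u ^ (t'.length + 1 + 1) := by ring
      · simp [filt]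

theorem filt_filt {i k : ℕ} (h : i ≤ k) (s : List (V × V)) :
    filt cls k (filt cls i s) = filt cls k s := by
  rw [filt, filt, filt, List.filter_filter]
  apply List.filter_congr
  intro a _
  simp only [← Bool.decide_and, decide_eq_decide]
  omega

theorem filt_eq_self {i : ℕ} {s : List (V × V)} (h : ∀ a ∈ s, i ≤ cls a) : filt cls i s = s := by
  rw [filt, List.filter_eq_self]
  simpa using h

variable (D cls) in
/-- The energy of the levels `i, …, M - 1`. -/
noncomputable def En (α β : ℕ → ℝ) (o : V) (M i : ℕ) (s : List (V × V)) : ℝ :=
  ∑ k ∈ Finset.Ico i M, (β k * (len D o (filt cls k s) - len D o (filt cls (k + 1) s)) +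
    α k * gap D cls k o (filt cls k s))

theorem En_step (α β : ℕ → ℝ) (o : V) {M i : ℕ} (hi : i < M) {s : List (V × V)}
    (h : ∀ a ∈ s, i ≤ cls a) :
    En D cls α β o M i s = (β i * (len D o s - len D o (filt cls (i + 1) s)) +
      α i * gap D cls i o s) + En D cls α β o M (i + 1) (filt cls (i + 1) s) := by
  rw [En, Finset.sum_eq_sum_Ico_succ_bot hi, filt_eq_self h, En]
  congr 1
  apply Finset.sum_congr rfl
  intro k hk
  rw [Finset.mem_Ico] at hk
  rw [filt_filt hk.1, filt_filt (by omega)]

variable (D cls) in
open Classical in
/-- The generating function of the lists whose steps have classes in `[i, M)`. -/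
noncomputable def GF (κ : ℕ → ℝ≥0∞) (α β : ℕ → ℝ) (o : V) (M i : ℕ) (θ : ℝ≥0∞) : ℝ≥0∞ :=
  ∑' s : List (V × V), if (∀ a ∈ s, i ≤ cls a ∧ cls a < M) then
    θ ^ s.length * (s.map (fun a => κ (cls a))).prod *
      ENNReal.ofReal (exp (-(En D cls α β o M i s))) else 0

theorem prod_filt (κ : ℕ → ℝ≥0∞) (θ : ℝ≥0∞) (i : ℕ) (s : List (V × V))
    (h : ∀ a ∈ s, i ≤ cls a) :
    θ ^ s.length * (s.map (fun a => κ (cls a))).prod =
      (θ ^ (filt cls (i + 1) s).length * ((filt cls (i + 1) s).map (fun a => κ (cls a))).prod) *
        (θ * κ i) ^ (s.countP (fun a => decide (cls a = i))) := by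
  induction s with
  | nil => simp [filt]
  | cons a s ih =>
    have ih := ih (fun b hb => h b (List.mem_cons_of_mem _ hb))
    have ha := h a List.mem_cons_self
    rw [List.length_cons, List.map_cons, List.prod_cons, pow_succ]
    rcases ha.eq_or_lt with hc | hc
    · have e1 : filt cls (i + 1) (a :: s) = filt cls (i + 1) s := by
        rw [filt, List.filter_cons_of_neg]
        · rfl
        · simp [← hc]
      rw [e1, List.countP_cons_of_pos (by simpa using hc.symm), pow_succ, ← hc]
      calc _ = (θ ^ s.length * (s.map (fun a => κ (cls a))).prod) * (θ * κ i) := by ring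
        _ = _ := by rw [ih]; ring
    · have e1 : filt cls (i + 1) (a :: s) = a :: filt cls (i + 1) s := by
        rw [filt, List.filter_cons_of_pos]
        · rfl
        · simpa using hc
      rw [e1, List.countP_cons_of_neg (by simpa using hc.ne'), List.length_cons, List.map_cons,
        List.prod_cons, pow_succ]
      calc _ = (θ ^ s.length * (s.map (fun a => κ (cls a))).prod) * (θ * κ (cls a)) := by ring
        _ = _ := by rw [ih]; ring

theorem GF_step (κ : ℕ → ℝ≥0∞) (α β : ℕ → ℝ) (o : V) {M i : ℕ} (hi : i < M) (θ x u : ℝ≥0∞)
    (hx : ∀ p t, ∑' a : V × V, (if cls a = i then κ i * ENNReal.ofReal (exp (-(β i * (D p a.1 +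
      D a.1 a.2 + len D a.2 t - len D p t) + α i * D p a.1))) else 0) ≤ x)
    (hu : 1 + θ * x * u ≤ u) :
    GF D cls κ α β o M i θ ≤ u * GF D cls κ α β o M (i + 1) (θ * u) := by
  classical
  set R : List (V × V) → ℝ≥0∞ := fun s => (θ * κ i) ^ (s.countP (fun a => decide (cls a = i))) *
    ENNReal.ofReal (exp (-(β i * (len D o s - len D o (filt cls (i + 1) s)) +
      α i * gap D cls i o s))) with hR
  set g : List (V × V) → ℝ≥0∞ := fun t => if (∀ a ∈ t, i + 1 ≤ cls a ∧ cls a < M) then
    θ ^ t.length * (t.map (fun a => κ (cls a))).prod *
      ENNReal.ofReal (exp (-(En D cls α β o M (i + 1) t))) else 0 with hg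
  have h1 : ∀ s : List (V × V), (if (∀ a ∈ s, i ≤ cls a ∧ cls a < M) then
      θ ^ s.length * (s.map (fun a => κ (cls a))).prod *
      ENNReal.ofReal (exp (-(En D cls α β o M i s))) else 0) ≤
      ∑' t, g t * (if (∀ a ∈ s, i ≤ cls a) ∧ filt cls (i + 1) s = t then R s else 0) := by
    intro s
    split_ifs with hs
    · have hs' : ∀ a ∈ s, i ≤ cls a := fun a ha => (hs a ha).1
      refine le_trans ?_ (ENNReal.le_tsum (filt cls (i + 1) s))
      rw [if_pos ⟨hs', rfl⟩, hg]
      have h2 : ∀ a ∈ filt cls (i + 1) s, i + 1 ≤ cls a ∧ cls a < M := by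
        intro a ha
        rw [filt, List.mem_filter] at ha
        exact ⟨by simpa using ha.2, (hs a ha.1).2⟩
      simp only [if_pos h2]
      rw [prod_filt κ θ i s hs', hR, En_step α β o hi hs', neg_add, exp_add,
        ENNReal.ofReal_mul (exp_pos _).le]
      apply le_of_eq
      ring
    · exact zero_le
  have h3 : ∀ t, ∑' s : List (V × V),
      (if (∀ a ∈ s, i ≤ cls a) ∧ filt cls (i + 1) s = t then R s else 0) ≤ u ^ (t.length + 1) := by
    intro t
    apply tsum_le_of_length
    intro N
    refine le_trans (le_of_eq ?_) (insertion (D := D) (cls := cls) i (θ * κ i) (θ * x) u (α i)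
      (β i) ?_ hu N o t)
    · apply tsum_congr
      intro s
      split_ifs with h4 h5
      · rw [hR]
        simp only [h5.2]
      · rfl
      · rfl
    · intro p t
      refine le_trans (le_of_eq ?_) (mul_le_mul' (le_refl θ) (hx p t))
      rw [← ENNReal.tsum_mul_left]
      apply tsum_congr
      intro a
      rw [mul_ite, mul_zero, mul_assoc]
  rw [GF]
  calc _ ≤ ∑' s, ∑' t, g t *
        (if (∀ a ∈ s, i ≤ cls a) ∧ filt cls (i + 1) s = t then R s else 0) := by
        refine le_trans (ENNReal.tsum_le_tsum fun s => ?_) le_rfl
        refine le_trans (le_of_eq ?_) (h1 s)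
        congr
    _ = ∑' t, g t * ∑' s,
        (if (∀ a ∈ s, i ≤ cls a) ∧ filt cls (i + 1) s = t then R s else 0) := by
        rw [ENNReal.tsum_comm]
        simp only [ENNReal.tsum_mul_left]
    _ ≤ ∑' t, g t * u ^ (t.length + 1) :=
        ENNReal.tsum_le_tsum fun t => mul_le_mul' le_rfl (h3 t)
    _ = u * GF D cls κ α β o M (i + 1) (θ * u) := by
        rw [GF, ← ENNReal.tsum_mul_left]
        apply tsum_congr
        intro t
        by_cases h5 : ∀ a ∈ t, i + 1 ≤ cls a ∧ cls a < M
        · simp only [hg, if_pos h5]
          rw [mul_pow]
          ring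
        · simp only [hg, if_neg h5]
          simp

theorem GF_top (κ : ℕ → ℝ≥0∞) (α β : ℕ → ℝ) (o : V) (M : ℕ) (θ : ℝ≥0∞) :
    GF D cls κ α β o M M θ = 1 := by
  classical
  rw [GF, tsum_list]
  have h0 : ∀ (a : V × V) (s : List (V × V)), ¬ (∀ b ∈ a :: s, M ≤ cls b ∧ cls b < M) := by
    intro a s h
    have := h a List.mem_cons_self
    omega
  simp only [if_neg (h0 _ _)]
  simp [En]

/-- The bound for the generating function. -/
theorem GF_le (κ : ℕ → ℝ≥0∞) (α β : ℕ → ℝ) (o : V) {M j : ℕ} (hj : j ≤ M) (θ x u : ℕ → ℝ≥0∞)
    (hx : ∀ i, j ≤ i → i < M → ∀ p t, ∑' a : V × V, (if cls a = i then κ i *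
      ENNReal.ofReal (exp (-(β i * (D p a.1 +
      D a.1 a.2 + len D a.2 t - len D p t) + α i * D p a.1))) else 0) ≤ x i)
    (hu : ∀ i, j ≤ i → i < M → 1 + θ i * x i * u i ≤ u i)
    (hθ : ∀ i, j ≤ i → i < M → θ (i + 1) = θ i * u i) :
    θ j * GF D cls κ α β o M j (θ j) ≤ θ M := by
  have key : ∀ n, ∀ i, j ≤ i → i + n = M → θ i * GF D cls κ α β o M i (θ i) ≤ θ M := by
    intro n
    induction n with
    | zero =>
      intro i _ hM
      rw [add_zero] at hM
      subst hM
      rw [GF_top, mul_one]
    | succ n ih =>
      intro i hji hM
      have hiM : i < M := by omega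
      refine le_trans (mul_le_mul' le_rfl (GF_step κ α β o hiM (θ i) (x i) (u i)
        (hx i hji hiM) (hu i hji hiM))) ?_
      rw [← mul_assoc, ← hθ i hji hiM]
      exact ih (i + 1) (by omega) (by omega)
  exact key (M - j) j le_rfl (by omega)

end Abstract

end Pool.Agent.Lib_helper7.FPP
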