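import Mathlib
import Pool.Agent.Lib_helper7.FPP.Insert
import Pool.Agent.Lib_helper7.FPP.Defs

/-!
# Expectations of products over lists of distinct edges
-/

namespace Pool.Agent.Lib_helper7.FPP

open scoped ENNReal
open Real MeasureTheory ProbabilityTheory

theorem lintegral_exp_expMeasure {μ : ℝ} (hμ : 0 ≤ μ) :
    ∫⁻ x, ENNReal.ofReal (exp (1 - μ * x)) ∂(expMeasure 1) =
      ENNReal.ofReal (exp 1 / (1 + μ)) := by
  have h1 : (0 : ℝ) < 1 + μ := by linarith
  have hm : Measurable (exponentialPDF 1) :=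
    (measurable_exponentialPDFReal 1).ennreal_ofReal
  have e0 : expMeasure 1 = volume.withDensity (exponentialPDF 1) := rfl
  rw [e0, lintegral_withDensity_eq_lintegral_mul _ hm (by fun_prop)]
  have e1 : ∀ x : ℝ, (exponentialPDF 1 * fun x => ENNReal.ofReal (exp (1 - μ * x))) x =
      ENNReal.ofReal (exp 1 / (1 + μ)) * exponentialPDF (1 + μ) x := by
    intro x
    rw [Pi.mul_apply, exponentialPDF_eq, exponentialPDF_eq]
    split_ifs with hx
    · rw [← ENNReal.ofReal_mul (by positivity), ← ENNReal.ofReal_mul (by positivity)]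
      congr 1
      rw [sub_eq_add_neg, exp_add]
      have : exp (-((1 + μ) * x)) = exp (-(1 * x)) * exp (-(μ * x)) := by
        rw [← exp_add]; congr 1; ring
      rw [this]
      field_simp
    · simp
  rw [lintegral_congr e1, lintegral_const_mul, lintegral_exponentialPDF_eq_one h1, mul_one]
  exact (measurable_exponentialPDFReal _).ennreal_ofReal

/-- The edge of a step. -/
def ed {V : Type*} (a : V × V) : Sym2 V := s(a.1, a.2)

variable {V Ω : Type*} [MeasurableSpace Ω] {P : Measure Ω} {ξ : Sym2 V → Ω → ℝ}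

theorem lintegral_list_prod (h : IsExpFamily P ξ) (f : V × V → ℝ → ℝ≥0∞)
    (hf : ∀ a, Measurable (f a)) (s : List (V × V)) (hs : ∀ a ∈ s, a.1 ≠ a.2)
    (hn : (s.map ed).Nodup) :
    ∫⁻ ω, (s.map (fun a => f a (ξ (ed a) ω))).prod ∂P =
      (s.map (fun a => ∫⁻ x, f a x ∂(expMeasure 1))).prod := by
  have hd : ∀ k : Fin s.length, ¬ (ed s[k.1]).IsDiag := by
    intro k
    rw [ed, Sym2.mk_isDiag_iff]
    exact hs _ (List.getElem_mem _)
  set g : Fin s.length → {e : Sym2 V // ¬ e.IsDiag} := fun k => ⟨ed s[k.1], hd k⟩ with hg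
  have hgi : Function.Injective g := by
    intro k l hkl
    have h1 : ed s[k.1] = ed s[l.1] := congrArg Subtype.val hkl
    have h2 : (s.map ed)[k.1]'(by simp) = (s.map ed)[l.1]'(by simp) := by simpa using h1
    have := (List.Nodup.getElem_inj_iff hn).1 h2
    exact Fin.ext this
  have h1 : iIndepFun (fun k : Fin s.length => fun ω => f s[k.1] (ξ (ed s[k.1]) ω)) P := by
    have h2 := h.indep.precomp hgi
    exact h2.comp (fun k => f s[k.1]) (fun k => hf _)
  have h3 := lintegral_prod_eq_prod_lintegral_of_indepFun Finset.univ _ h1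
    (fun k => (hf _).comp (h.meas _ (hd k)))
  have e1 : ∀ ω, (s.map (fun a => f a (ξ (ed a) ω))).prod =
      ∏ k : Fin s.length, f s[k.1] (ξ (ed s[k.1]) ω) := by
    intro ω
    rw [Fin.prod_univ_fun_getElem s (fun a => f a (ξ (ed a) ω))]
  rw [lintegral_congr e1, h3, ← Fin.prod_univ_fun_getElem s
    (fun a => ∫⁻ x, f a x ∂(expMeasure 1))]
  apply Finset.prod_congr rfl
  intro k _
  rw [← h.law _ (hd k), lintegral_map (hf _) (h.meas _ (hd k))]

variable (D : V → V → ℝ) (cls : V × V → ℕ)

open Classical in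
/-- The random generating function. -/
noncomputable def Zf (ξ : Sym2 V → Ω → ℝ) (μ α β : ℕ → ℝ) (o : V) (M j : ℕ) (ω : Ω) : ℝ≥0∞ :=
  ∑' s : List (V × V), if (s.map ed).Nodup ∧ (∀ a ∈ s, a.1 ≠ a.2) ∧
      (∀ a ∈ s, j ≤ cls a ∧ cls a < M) then
    (s.map (fun a => ENNReal.ofReal (exp (1 - μ (cls a) * ξ (ed a) ω)))).prod *
      ENNReal.ofReal (exp (-(En D cls α β o M j s))) else 0

theorem measurable_term (h : IsExpFamily P ξ) (μ : ℕ → ℝ) (s : List (V × V))
    (hs : ∀ a ∈ s, a.1 ≠ a.2) : Measurable (fun ω =>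
        (s.map (fun a => ENNReal.ofReal (exp (1 - μ (cls a) * ξ (ed a) ω)))).prod) := by
  have h2 : ∀ a ∈ s, ¬ (ed a).IsDiag := by
    intro a ha
    rw [ed, Sym2.mk_isDiag_iff]
    exact hs a ha
  clear hs
  induction s with
  | nil => simp
  | cons a s ih =>
    simp only [List.map_cons, List.prod_cons]
    apply Measurable.mul
    · have := h.meas _ (h2 a List.mem_cons_self)
      fun_prop
    · exact ih (fun b hb => h2 b (List.mem_cons_of_mem _ hb))

theorem measurable_Zf [Countable V] (h : IsExpFamily P ξ) (μ α β : ℕ → ℝ)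
    (o : V) (M j : ℕ) : Measurable (Zf D cls ξ μ α β o M j) := by
  classical
  have : Zf D cls ξ μ α β o M j = fun ω => ∑' s : List (V × V),
    if (s.map ed).Nodup ∧ (∀ a ∈ s, a.1 ≠ a.2) ∧ (∀ a ∈ s, j ≤ cls a ∧ cls a < M) then
    (s.map (fun a => ENNReal.ofReal (exp (1 - μ (cls a) * ξ (ed a) ω)))).prod *
      ENNReal.ofReal (exp (-(En D cls α β o M j s))) else 0 := by
    funext ω
    rw [Zf]
  rw [this]
  apply Measurable.tsum
  intro s
  split_ifs with h1
  · exact (measurable_term cls h μ s h1.2.1).mul_const _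
  · exact measurable_const

theorem lintegral_Zf_le [Countable V] (h : IsExpFamily P ξ) (μ α β : ℕ → ℝ) (hμ : ∀ i, 0 < μ i)
    (o : V) (M j : ℕ) :
    ∫⁻ ω, Zf D cls ξ μ α β o M j ω ∂P ≤
      GF D cls (fun i => ENNReal.ofReal (exp 1 / μ i)) α β o M j 1 := by
  classical
  simp only [Zf]
  rw [lintegral_tsum]
  · rw [GF]
    refine ENNReal.tsum_le_tsum fun s => ?_
    split_ifs with h1 h2 h2
    · rw [lintegral_mul_const _ (measurable_term cls h μ s h1.2.1)]
      apply mul_le_mul' _ le_rfl
      rw [lintegral_list_prod h (fun a x => ENNReal.ofReal (exp (1 - μ (cls a) * x)))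
        (fun a => by fun_prop) s h1.2.1 h1.1, one_pow, one_mul]
      clear h1 h2
      induction s with
      | nil => simp
      | cons a s ih =>
        simp only [List.map_cons, List.prod_cons]
        apply mul_le_mul' _ ih
        rw [lintegral_exp_expMeasure (hμ _).le]
        apply ENNReal.ofReal_le_ofReal
        apply div_le_div_of_nonneg_left (exp_pos _).le (hμ _)
        linarith
    · exact absurd h1.2.2 h2
    · simp
    · simp
  · intro s
    apply Measurable.aemeasurable
    split_ifs with h1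
    · exact (measurable_term cls h μ s h1.2.1).mul_const _
    · exact measurable_const

end Pool.Agent.Lib_helper7.FPP
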