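import Mathlib
import Pool.Agent.Lib_helper7.FPP.Lattice
import Pool.Agent.Lib_helper7.FPP.Prob

/-!
# The parameters of the generating function and its expectation
-/

namespace Pool.Agent.Lib_helper7.FPP

open scoped ENNReal RealInnerProductSpace
open Real MeasureTheory ProbabilityTheory

variable {d : ℕ}

/-- Euclidean distance on the lattice. -/
noncomputable def dist2 (y z : Fin d → ℤ) : ℝ := ‖emb z - emb y‖

/-- The class of a step: its Euclidean length is in `[4^c, 4^(c+1))`. -/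
noncomputable def kls (a : (Fin d → ℤ) × (Fin d → ℤ)) : ℕ := Nat.log 4 ⌊dist2 a.1 a.2⌋₊

theorem dist2_nonneg (y z : Fin d → ℤ) : 0 ≤ dist2 y z := norm_nonneg _

theorem dist2_self (y : Fin d → ℤ) : dist2 y y = 0 := by simp [dist2]

theorem dist2_comm (y z : Fin d → ℤ) : dist2 y z = dist2 z y := norm_sub_rev _ _

theorem dist2_triangle (x y z : Fin d → ℤ) : dist2 x z ≤ dist2 x y + dist2 y z := by
  rw [dist2, dist2, dist2, add_comm]
  have : emb z - emb x = (emb z - emb y) + (emb y - emb x) := by abel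
  rw [this]
  exact norm_add_le _ _

theorem abs_coord_le (y z : Fin d → ℤ) (k : Fin d) : |(z k : ℝ) - y k| ≤ dist2 y z := by
  have := PiLp.norm_apply_le (emb z - emb y) k
  simpa [dist2] using this

theorem one_le_dist2 {y z : Fin d → ℤ} (h : y ≠ z) : 1 ≤ dist2 y z := by
  obtain ⟨k, hk⟩ := Function.ne_iff.1 h
  refine le_trans ?_ (abs_coord_le y z k)
  have : (1 : ℤ) ≤ |z k - y k| := Int.one_le_abs (sub_ne_zero.2 (Ne.symm hk))
  exact_mod_cast this

theorem kls_le {a : (Fin d → ℤ) × (Fin d → ℤ)} (h : a.1 ≠ a.2) :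
    (4 : ℝ) ^ kls a ≤ dist2 a.1 a.2 := by
  have h1 := one_le_dist2 h
  have h2 : 1 ≤ ⌊dist2 a.1 a.2⌋₊ := Nat.le_floor (by simpa using h1)
  have h3 : 4 ^ kls a ≤ ⌊dist2 a.1 a.2⌋₊ := Nat.pow_log_le_self 4 (by omega)
  calc (4 : ℝ) ^ kls a = ((4 ^ kls a : ℕ) : ℝ) := by push_cast; rfl
    _ ≤ (⌊dist2 a.1 a.2⌋₊ : ℝ) := by exact_mod_cast h3
    _ ≤ _ := Nat.floor_le (dist2_nonneg _ _)

theorem lt_kls (a : (Fin d → ℤ) × (Fin d → ℤ)) : dist2 a.1 a.2 < (4 : ℝ) ^ (kls a + 1) := by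
  have h3 : ⌊dist2 a.1 a.2⌋₊ < 4 ^ (kls a + 1) := Nat.lt_pow_succ_log_self (by norm_num) _
  have h4 : ⌊dist2 a.1 a.2⌋₊ + 1 ≤ 4 ^ (kls a + 1) := h3
  calc dist2 a.1 a.2 < ⌊dist2 a.1 a.2⌋₊ + 1 := Nat.lt_floor_add_one _
    _ ≤ ((4 ^ (kls a + 1) : ℕ) : ℝ) := by exact_mod_cast h4
    _ = _ := by push_cast; rfl

theorem class_count (i : ℕ) (y : Fin d → ℤ) :
    ∑' z : Fin d → ℤ, (if kls (y, z) = i then (1 : ℝ≥0∞) else 0) ≤
      ENNReal.ofReal ((9 * 4 ^ i) ^ d) := by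
  classical
  set F : Finset (Fin d → ℤ) :=
    Fintype.piFinset (fun k => Finset.Icc (y k - 4 ^ (i + 1)) (y k + 4 ^ (i + 1))) with hF
  have h1 : ∀ z : Fin d → ℤ, (if kls (y, z) = i then (1 : ℝ≥0∞) else 0) ≤
      if z ∈ F then 1 else 0 := by
    intro z
    split_ifs with h2 h3
    · exact le_rfl
    · exfalso
      apply h3
      rw [hF, Fintype.mem_piFinset]
      intro k
      have h4 := (abs_coord_le y z k).trans_lt (lt_kls (y, z))
      rw [h2] at h4
      have h5 : |z k - y k| < 4 ^ (i + 1) := by exact_mod_cast h4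
      rw [abs_lt] at h5
      rw [Finset.mem_Icc]
      constructor <;> linarith
    · exact zero_le
    · exact le_rfl
  calc _ ≤ ∑' z : Fin d → ℤ, (if z ∈ F then (1 : ℝ≥0∞) else 0) := ENNReal.tsum_le_tsum h1
    _ = ∑ z ∈ F, (1 : ℝ≥0∞) := by
        rw [tsum_eq_sum (s := F)]
        · apply Finset.sum_congr rfl
          intro z hz
          rw [if_pos hz]
        · intro z hz
          rw [if_neg hz]
    _ = ((F.card : ℕ) : ℝ≥0∞) := by simp
    _ ≤ ENNReal.ofReal ((9 * 4 ^ i) ^ d) := by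
        rw [← ENNReal.ofReal_natCast]
        apply ENNReal.ofReal_le_ofReal
        rw [hF, Fintype.card_piFinset]
        have : ∀ k : Fin d, (Finset.Icc (y k - 4 ^ (i + 1)) (y k + 4 ^ (i + 1))).card =
            2 * 4 ^ (i + 1) + 1 := by
          intro k
          rw [Int.card_Icc]
          have : y k + 4 ^ (i + 1) + 1 - (y k - 4 ^ (i + 1)) = ((2 * 4 ^ (i + 1) + 1 : ℕ) : ℤ) := by
            push_cast; ring
          rw [this, Int.toNat_natCast]
        simp only [this, Finset.prod_const, Finset.card_univ, Fintype.card_fin]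
        push_cast
        apply pow_le_pow_left₀ (by positivity)
        have : (1 : ℝ) ≤ 4 ^ i := one_le_pow₀ (by norm_num)
        rw [pow_succ]
        linarith

/-- The geometric input: the excess of a detour. -/
theorem excess_bound (hd : 1 ≤ d) (p : Fin d → ℤ) (t : List ((Fin d → ℤ) × (Fin d → ℤ))) :
    ∃ e : EuclideanSpace ℝ (Fin d), ‖e‖ = 1 ∧ ∀ y z : Fin d → ℤ,
      (1 / 2) * (‖emb (y - p)‖ - ⟪e, emb (y - p)⟫) ≤
        dist2 p y + dist2 y z + len dist2 z t - len dist2 p t := by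
  have : Nonempty (Fin d) := ⟨⟨0, hd⟩⟩
  have hunit : ∃ e : EuclideanSpace ℝ (Fin d), ‖e‖ = 1 :=
    ⟨EuclideanSpace.single ⟨0, hd⟩ 1, by simp⟩
  have hCS : ∀ e v : EuclideanSpace ℝ (Fin d), ‖e‖ = 1 → |(⟪e, v⟫ : ℝ)| ≤ ‖v‖ := by
    intro e v he
    have := abs_real_inner_le_norm e v
    rwa [he, one_mul] at this
  cases t with
  | nil =>
    obtain ⟨e, he⟩ := hunit
    refine ⟨e, he, fun y z => ?_⟩
    simp only [len, sub_zero, add_zero]
    have h1 : dist2 p y = ‖emb (y - p)‖ := by rw [dist2, emb_sub]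
    have h2 := (abs_le.1 (hCS e (emb (y - p)) he)).1
    have h3 := dist2_nonneg y z
    rw [h1]
    linarith
  | cons b t' =>
    by_cases hQ : emb b.1 - emb p = 0
    · obtain ⟨e, he⟩ := hunit
      refine ⟨e, he, fun y z => ?_⟩
      simp only [len]
      have h0 : dist2 p b.1 = 0 := by rw [dist2, hQ, norm_zero]
      have h1 : dist2 p y = ‖emb (y - p)‖ := by rw [dist2, emb_sub]
      have h2 := (abs_le.1 (hCS e (emb (y - p)) he)).1
      have h3 := dist2_nonneg y z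
      have h4 := dist2_nonneg z b.1
      rw [h1, h0]
      linarith
    · have hQ0 : 0 < ‖emb b.1 - emb p‖ := norm_pos_iff.2 hQ
      set e := (‖emb b.1 - emb p‖)⁻¹ • (emb b.1 - emb p) with hedef
      have he : ‖e‖ = 1 := by
        rw [hedef, norm_smul, norm_inv, norm_norm, inv_mul_cancel₀ hQ0.ne']
      refine ⟨e, he, fun y z => ?_⟩
      simp only [len]
      have h1 : dist2 p y = ‖emb (y - p)‖ := by rw [dist2, emb_sub]
      have h2 := (abs_le.1 (hCS e (emb (y - p)) he)).2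
      have h3 := dist2_triangle y z b.1
      have h4 : (⟪e, emb b.1 - emb p⟫ : ℝ) = dist2 p b.1 := by
        rw [hedef, real_inner_smul_left, real_inner_self_eq_norm_sq, dist2]
        field_simp
      have h5 : (⟪e, emb b.1 - emb y⟫ : ℝ) ≤ dist2 y b.1 :=
        (abs_le.1 (hCS e (emb b.1 - emb y) he)).2
      have h6 : (⟪e, emb b.1 - emb y⟫ : ℝ) = dist2 p b.1 - ⟪e, emb (y - p)⟫ := by
        rw [← h4, ← inner_sub_right, emb_sub]
        congr 1
        abel
      rw [h6] at h5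
      rw [h1]
      linarith

/-- The one-step sum. -/
theorem step_sum (hd : 1 ≤ d) (i : ℕ) (κ : ℝ≥0∞) {a b : ℝ} (ha : 0 < a) (hab : a ≤ b) (hb : b ≤ 1)
    (p : Fin d → ℤ) (t : List ((Fin d → ℤ) × (Fin d → ℤ))) :
    ∑' s : (Fin d → ℤ) × (Fin d → ℤ), (if kls s = i then κ * ENNReal.ofReal
      (exp (-((2 * b ^ 2) * (dist2 p s.1 + dist2 s.1 s.2 + len dist2 s.2 t - len dist2 p t) +
        a ^ 2 * dist2 p s.1))) else 0) ≤
      κ * ENNReal.ofReal (16 * (8 * d) ^ (d - 1) / (a ^ (d + 1) * b ^ (d - 1))) *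
        ENNReal.ofReal ((9 * 4 ^ i) ^ d) := by
  obtain ⟨e, he, hex⟩ := excess_bound hd p t
  set F : (Fin d → ℤ) → ℝ≥0∞ := fun v =>
    ENNReal.ofReal (exp (-(a ^ 2 * ‖emb v‖ + b ^ 2 * (‖emb v‖ - ⟪e, emb v⟫)))) with hF
  have hb0 : 0 < b := ha.trans_le hab
  have h1 : ∀ y z : Fin d → ℤ, (if kls (y, z) = i then κ * ENNReal.ofReal
      (exp (-((2 * b ^ 2) * (dist2 p y + dist2 y z + len dist2 z t - len dist2 p t) +
        a ^ 2 * dist2 p y))) else 0) ≤
        (κ * F (y - p)) * (if kls (y, z) = i then 1 else 0) := by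
    intro y z
    split_ifs
    · rw [mul_one]
      apply mul_le_mul' le_rfl
      apply ENNReal.ofReal_le_ofReal
      rw [exp_le_exp]
      have h2 := hex y z
      have h3 : dist2 p y = ‖emb (y - p)‖ := by rw [dist2, emb_sub]
      have h4 := mul_le_mul_of_nonneg_left h2 (show 0 ≤ 2 * b ^ 2 by positivity)
      rw [h3] at h4 ⊢
      linarith
    · simp
  rw [ENNReal.tsum_prod']
  calc _ ≤ ∑' y, ∑' z, (κ * F (y - p)) * (if kls (y, z) = i then 1 else 0) :=
        ENNReal.tsum_le_tsum fun y => ENNReal.tsum_le_tsum fun z => h1 y z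
    _ ≤ ∑' y, (κ * F (y - p)) * ENNReal.ofReal ((9 * 4 ^ i) ^ d) := by
        refine ENNReal.tsum_le_tsum fun y => ?_
        rw [ENNReal.tsum_mul_left]
        exact mul_le_mul' le_rfl (class_count i y)
    _ = κ * (∑' v, F v) * ENNReal.ofReal ((9 * 4 ^ i) ^ d) := by
        rw [ENNReal.tsum_mul_right, ENNReal.tsum_mul_left]
        congr 2
        exact (Equiv.subRight p).tsum_eq F
    _ ≤ _ := by
        refine mul_le_mul' (mul_le_mul' le_rfl ?_) le_rfl
        exact lattice_sum hd e he ha hab hb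

/-- The constant of the one-step sums. -/
noncomputable def C0 (d : ℕ) (c : ℝ) : ℝ := 16 * exp 1 * 9 ^ d * (8 * d) ^ (d - 1) / c ^ (2 * d)

theorem C0_pos (hd : 1 ≤ d) {c : ℝ} (hc : 0 < c) : 0 < C0 d c := by
  rw [C0]; positivity

/-- The parameters `α`. -/
noncomputable def alp (c σ : ℝ) (i : ℕ) : ℝ := (c / (σ * 2 ^ i)) ^ 2

/-- The parameters `β`. -/
noncomputable def bet (c : ℝ) (i : ℕ) : ℝ := 2 * (c / 2 ^ i) ^ 2

/-- The parameters `μ`. -/
noncomputable def mu (d : ℕ) (c σ : ℝ) (j i : ℕ) : ℝ :=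
  8 * C0 d c * σ ^ (d + 1) / 2 ^ (i + j) * (4 ^ i) ^ (2 * d + 1)

theorem mu_pos (hd : 1 ≤ d) {c σ : ℝ} (hc : 0 < c) (hσ : 0 < σ) (j i : ℕ) : 0 < mu d c σ j i := by
  have := C0_pos hd hc
  rw [mu]; positivity

theorem step_sum' (hd : 1 ≤ d) {c σ : ℝ} (hc : 0 < c) (hc1 : c ≤ 1) (hσ : 1 ≤ σ) {i j : ℕ}
    (hij : j ≤ i) (p : Fin d → ℤ) (t : List ((Fin d → ℤ) × (Fin d → ℤ))) :
    ∑' s : (Fin d → ℤ) × (Fin d → ℤ), (if kls s = i then
      ENNReal.ofReal (exp 1 / mu d c σ j i) * ENNReal.ofReal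
      (exp (-(bet c i * (dist2 p s.1 + dist2 s.1 s.2 + len dist2 s.2 t - len dist2 p t) +
        alp c σ i * dist2 p s.1))) else 0) ≤ ENNReal.ofReal ((1 / 2) ^ (i - j) / 8) := by
  have hC := C0_pos hd hc
  have hσ0 : 0 < σ := by linarith
  have h2i : (1 : ℝ) ≤ 2 ^ i := one_le_pow₀ (by norm_num)
  have ha : 0 < c / (σ * 2 ^ i) := by positivity
  have hab : c / (σ * 2 ^ i) ≤ c / 2 ^ i := by
    apply div_le_div_of_nonneg_left hc.le (by positivity)
    nlinarith
  have hb : c / 2 ^ i ≤ 1 := by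
    rw [div_le_one (by positivity)]
    linarith
  refine (step_sum hd i (ENNReal.ofReal (exp 1 / mu d c σ j i)) ha hab hb p t).trans ?_
  have hmu := mu_pos hd hc hσ0 j i
  rw [← ENNReal.ofReal_mul (by positivity), ← ENNReal.ofReal_mul (by positivity)]
  apply ENNReal.ofReal_le_ofReal
  obtain ⟨k, rfl⟩ : ∃ k, d = k + 1 := ⟨d - 1, by omega⟩
  obtain ⟨l, rfl⟩ : ∃ l, i = j + l := ⟨i - j, by omega⟩
  simp only [Nat.add_sub_cancel, Nat.add_sub_cancel_left]
  rw [mu, C0]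
  simp only [Nat.add_sub_cancel]
  apply le_of_eq
  have h4 : (4 : ℝ) ^ (j + l) = 2 ^ (j + l) * 2 ^ (j + l) := by
    rw [← mul_pow]; norm_num
  rw [h4]
  set w : ℝ := 2 ^ (j + l) with hw
  have hw0 : 0 < w := by positivity
  have h5 : (2 : ℝ) ^ (j + l + j) = w * 2 ^ j := by rw [pow_add]
  have h6 : ((1 : ℝ) / 2) ^ l = 2 ^ j / w := by
    rw [hw, pow_add, one_div, inv_pow]; field_simp
  rw [h5, h6]
  have h2j : (0 : ℝ) < 2 ^ j := by positivity
  push_cast
  have hk : (0 : ℝ) < (8 * ((k : ℝ) + 1)) ^ k := by positivity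
  rw [div_pow, div_pow, mul_pow σ w]
  field_simp
  ring

/-- The expectation of the generating function is at most two. -/
theorem lintegral_Zf_le_two {Ω : Type*} [MeasurableSpace Ω] {P : Measure Ω}
    {ξ : Sym2 (Fin d → ℤ) → Ω → ℝ} (h : IsExpFamily P ξ) (hd : 1 ≤ d) {c σ : ℝ} (hc : 0 < c)
    (hc1 : c ≤ 1) (hσ : 1 ≤ σ) {M j : ℕ} (hj : j ≤ M) :
    ∫⁻ ω, Zf dist2 kls ξ (mu d c σ j) (alp c σ) (bet c) 0 M j ω ∂P ≤ 2 := by
  have hσ0 : 0 < σ := by linarith
  refine (lintegral_Zf_le dist2 kls h _ _ _ (fun i => mu_pos hd hc hσ0 j i) 0 M j).trans ?_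
  set θ : ℕ → ℝ := fun i => 2 - (1 / 2) ^ (i - j) with hθ
  have hθ1 : ∀ i, 1 ≤ θ i := by
    intro i
    have : ((1 : ℝ) / 2) ^ (i - j) ≤ 1 := pow_le_one₀ (by norm_num) (by norm_num)
    rw [hθ]; simp only; linarith
  have hθ2 : ∀ i, θ i ≤ 2 := by
    intro i
    have : (0 : ℝ) ≤ ((1 : ℝ) / 2) ^ (i - j) := by positivity
    rw [hθ]; simp only; linarith
  have key := GF_le (D := dist2) (cls := kls) (fun i => ENNReal.ofReal (exp 1 / mu d c σ j i))
    (alp c σ) (bet c) (0 : Fin d → ℤ) hj (fun i => ENNReal.ofReal (θ i))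
    (fun i => ENNReal.ofReal ((1 / 2) ^ (i - j) / 8))
    (fun i => ENNReal.ofReal (θ (i + 1) / θ i))
    (fun i hi _ p t => step_sum' hd hc hc1 hσ hi p t)
    (fun i hi _ => by
      have h0 := hθ1 i
      have h1 := hθ1 (i + 1)
      have h2 := hθ2 i
      have h3 := hθ2 (i + 1)
      have hp : (0 : ℝ) < ((1 : ℝ) / 2) ^ (i - j) := by positivity
      rw [← ENNReal.ofReal_mul (by linarith), ← ENNReal.ofReal_mul (by positivity),
        ← ENNReal.ofReal_one, ← ENNReal.ofReal_add (by norm_num) (by positivity)]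
      apply ENNReal.ofReal_le_ofReal
      have e1 : θ i * ((1 / 2) ^ (i - j) / 8) * (θ (i + 1) / θ i) =
          (1 / 2) ^ (i - j) / 8 * θ (i + 1) := by field_simp
      rw [e1, le_div_iff₀ (by linarith)]
      have e2 : θ (i + 1) = θ i + (1 / 2) ^ (i - j) / 2 := by
        rw [hθ]
        simp only
        rw [show i + 1 - j = (i - j) + 1 by omega, pow_succ]
        ring
      have e3 : (1 / 2) ^ (i - j) / 8 * θ (i + 1) * θ i ≤ (1 / 2) ^ (i - j) / 8 * 2 * 2 := by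
        gcongr
      linarith)
    (fun i _ _ => by
      have h0 := hθ1 i
      have h1 := hθ1 (i + 1)
      rw [← ENNReal.ofReal_mul (by linarith)]
      congr 1
      field_simp)
  have e1 : θ j = 1 := by rw [hθ]; norm_num
  simp only [e1, ENNReal.ofReal_one, one_mul] at key
  refine key.trans ?_
  refine (ENNReal.ofReal_le_ofReal (hθ2 M)).trans ?_
  simp

end Pool.Agent.Lib_helper7.FPP
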