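import Mathlib
import Pool.Agent.Lib_helper7.FPP.Param

/-!
# The deterministic part of the lower bound
-/

namespace Pool.Agent.Lib_helper7.FPP

open scoped ENNReal RealInnerProductSpace
open Real MeasureTheory ProbabilityTheory

section Gen

variable {V : Type*} {D : V → V → ℝ} {cls : V × V → ℕ}

theorem len_nonneg (h0 : ∀ p q, 0 ≤ D p q) (p : V) (s : List (V × V)) : 0 ≤ len D p s := by
  induction s generalizing p with
  | nil => simp [len]
  | cons a s ih =>
    have := ih a.2
    have h1 := h0 p a.1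
    have h2 := h0 a.1 a.2
    simp only [len]; linarith

theorem len_le_add (h0 : ∀ p q, 0 ≤ D p q) (ht : ∀ p q r, D p r ≤ D p q + D q r) (p q : V)
    (s : List (V × V)) : len D p s ≤ D p q + len D q s := by
  cases s with
  | nil => simp [len, h0]
  | cons a s =>
    simp only [len]
    have := ht p q a.1
    linarith

theorem len_filt_le (h0 : ∀ p q, 0 ≤ D p q) (ht : ∀ p q r, D p r ≤ D p q + D q r) (i : ℕ) (p : V)
    (s : List (V × V)) : len D p (filt cls i s) ≤ len D p s := by
  induction s generalizing p with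
  | nil => simp [filt, len]
  | cons a s ih =>
    by_cases h : i ≤ cls a
    · have e : filt cls i (a :: s) = a :: filt cls i s := by
        rw [filt, List.filter_cons_of_pos (by simpa using h)]; rfl
      rw [e]
      simp only [len]
      have := ih a.2
      linarith
    · have e : filt cls i (a :: s) = filt cls i s := by
        rw [filt, List.filter_cons_of_neg (by simpa using h)]; rfl
      rw [e]
      simp only [len]
      have h1 := ih p
      have h2 := len_le_add h0 ht p a.2 s
      have h3 := ht p a.1 a.2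
      linarith

theorem gap_le (h0 : ∀ p q, 0 ≤ D p q) (i : ℕ) (p : V) (s : List (V × V)) :
    gap D cls i p s ≤ len D p s := by
  induction s generalizing p with
  | nil => simp [gap, len]
  | cons a s ih =>
    simp only [gap, len]
    have h1 := ih a.2
    have h2 := h0 a.1 a.2
    have h3 := h0 p a.1
    split_ifs <;> linarith

/-- The list of steps is a chain that starts at `p`. -/
def IsFrom : V → List (V × V) → Prop
  | _, [] => True
  | p, a :: s => a.1 = p ∧ IsFrom a.2 s

theorem len_eq_sum (hs : ∀ p, D p p = 0) {p : V} {s : List (V × V)} (h : IsFrom p s) :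
    len D p s = (s.map (fun a => D a.1 a.2)).sum := by
  induction s generalizing p with
  | nil => simp [len]
  | cons a s ih =>
    obtain ⟨rfl, h2⟩ := h
    simp only [len, List.map_cons, List.sum_cons]
    rw [hs, ih h2, zero_add]

theorem isFrom_take {p : V} {s : List (V × V)} (h : IsFrom p s) (k : ℕ) :
    IsFrom p (s.take k) := by
  induction s generalizing p k with
  | nil => simp [IsFrom]
  | cons a s ih =>
    cases k with
    | zero => simp [IsFrom]
    | succ k => exact ⟨h.1, ih h.2 k⟩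

/-- The first initial segment of length at least `r`. -/
theorem exists_take (hs : ∀ p, D p p = 0) (ht : ∀ p q r, D p r ≤ D p q + D q r)
    {p : V} {s : List (V × V)} (h : IsFrom p s) (r : ℝ) (hr : r ≤ len D p s) :
    ∃ k, r ≤ len D p (s.take k) ∧ ∀ a ∈ s.take k, D p a.1 < r := by
  induction s generalizing p r with
  | nil => exact ⟨0, by simpa using hr, by simp⟩
  | cons a s ih =>
    by_cases h0 : r ≤ 0
    · exact ⟨0, by simpa [len] using h0, by simp⟩
    · obtain ⟨h1, h2⟩ := h
      subst h1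
      push Not at h0
      have hr' : r - D a.1 a.2 ≤ len D a.2 s := by
        simp only [len, hs] at hr; linarith
      obtain ⟨k, hk1, hk2⟩ := ih h2 (r - D a.1 a.2) hr'
      refine ⟨k + 1, ?_, ?_⟩
      · rw [List.take_succ_cons]
        simp only [len, hs]; linarith
      · rw [List.take_succ_cons]
        intro b hb
        rcases List.mem_cons.1 hb with rfl | hb
        · rw [hs]; exact h0
        · have := hk2 b hb
          have := ht a.1 a.2 b.1
          linarith

theorem sum_map_filt (i : ℕ) (g : V × V → ℝ) (s : List (V × V)) :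
    ((filt cls i s).map g).sum = (s.map (fun a => if i ≤ cls a then g a else 0)).sum := by
  induction s with
  | nil => simp [filt]
  | cons a s ih =>
    by_cases h : i ≤ cls a
    · have e : filt cls i (a :: s) = a :: filt cls i s := by
        rw [filt, List.filter_cons_of_pos (by simpa using h)]; rfl
      rw [e]
      simp only [List.map_cons, List.sum_cons, ih, if_pos h]
    · have e : filt cls i (a :: s) = filt cls i s := by
        rw [filt, List.filter_cons_of_neg (by simpa using h)]; rfl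
      rw [e]
      simp only [List.map_cons, List.sum_cons, ih, if_neg h, zero_add]

theorem sum_list_comm {A : Type*} (S : Finset ℕ) (g : ℕ → A → ℝ) (s : List A) :
    ∑ j ∈ S, (s.map (g j)).sum = (s.map (fun a => ∑ j ∈ S, g j a)).sum := by
  induction s with
  | nil => simp
  | cons a s ih =>
    simp only [List.map_cons, List.sum_cons, Finset.sum_add_distrib, ih]

theorem list_sum_le {A : Type*} {f g : A → ℝ} {s : List A} (h : ∀ a ∈ s, f a ≤ g a) :
    (s.map f).sum ≤ (s.map g).sum := List.sum_le_sum h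

theorem list_prod_ofReal_exp {A : Type*} (f : A → ℝ) (s : List A) :
    (s.map (fun a => ENNReal.ofReal (exp (f a)))).prod = ENNReal.ofReal (exp ((s.map f).sum)) := by
  induction s with
  | nil => simp
  | cons a s ih =>
    simp only [List.map_cons, List.prod_cons, List.sum_cons, ih, exp_add]
    rw [ENNReal.ofReal_mul (exp_pos _).le]

theorem sum_four_pow_le (n : ℕ) : (4 : ℝ) ^ n ≤ ∑ j ∈ Finset.range (n + 1), (4 : ℝ) ^ j := by
  rw [Finset.sum_range_succ]
  have : (0 : ℝ) ≤ ∑ j ∈ Finset.range n, (4 : ℝ) ^ j := Finset.sum_nonneg fun _ _ => by positivity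
  linarith

theorem sum_four_pow_eq (n : ℕ) : ∑ j ∈ Finset.range n, (4 : ℝ) ^ j = (4 ^ n - 1) / 3 := by
  rw [geom_sum_eq (by norm_num)]; norm_num

theorem sum_two_pow_eq (n : ℕ) : ∑ j ∈ Finset.range n, (2 : ℝ) ^ j = 2 ^ n - 1 := by
  rw [geom_sum_eq (by norm_num)]; norm_num

/-- The inequality that comes from the bound for the generating function. -/
theorem ineq_of_Zf {Ω : Type*} (ξ : Sym2 V → Ω → ℝ) (μ α β : ℕ → ℝ)
    (o : V) (M j : ℕ) (ω : Ω) {t : ℝ} (ht : 0 < t)
    (hZ : Zf D cls ξ μ α β o M j ω ≤ ENNReal.ofReal t) (s : List (V × V))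
    (h1 : (s.map ed).Nodup) (h2 : ∀ a ∈ s, a.1 ≠ a.2) (h3 : ∀ a ∈ s, cls a < M) :
    ((filt cls j s).map (fun _ => (1 : ℝ))).sum ≤
      ((filt cls j s).map (fun a => μ (cls a) * ξ (ed a) ω)).sum +
        En D cls α β o M j (filt cls j s) + Real.log t := by
  classical
  have hmem : ∀ a ∈ filt cls j s, a ∈ s ∧ j ≤ cls a := by
    intro a ha
    rw [filt, List.mem_filter] at ha
    exact ⟨ha.1, by simpa using ha.2⟩
  have hsub : (filt cls j s).Sublist s := List.filter_sublist
  have h5 := (ENNReal.le_tsum (f := fun s : List (V × V) =>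
    if (s.map ed).Nodup ∧ (∀ a ∈ s, a.1 ≠ a.2) ∧ (∀ a ∈ s, j ≤ cls a ∧ cls a < M) then
    (s.map (fun a => ENNReal.ofReal (exp (1 - μ (cls a) * ξ (ed a) ω)))).prod *
      ENNReal.ofReal (exp (-(En D cls α β o M j s))) else 0) (filt cls j s)).trans hZ
  rw [if_pos ⟨h1.sublist (hsub.map ed), fun a ha => h2 a (hmem a ha).1,
    fun a ha => ⟨(hmem a ha).2, h3 a (hmem a ha).1⟩⟩, list_prod_ofReal_exp,
    ← ENNReal.ofReal_mul (exp_pos _).le, ← exp_add, ENNReal.ofReal_le_ofReal_iff ht.le,
    ← Real.le_log_iff_exp_le ht] at h5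
  have e1 : ((filt cls j s).map (fun a => 1 - μ (cls a) * ξ (ed a) ω)).sum =
      ((filt cls j s).map (fun _ => (1 : ℝ))).sum -
        ((filt cls j s).map (fun a => μ (cls a) * ξ (ed a) ω)).sum := by
    induction (filt cls j s) with
    | nil => simp
    | cons a s ih =>
      simp only [List.map_cons, List.sum_cons, ih]; ring
  rw [e1] at h5
  linarith

end Gen

variable {d : ℕ}

/-- The deterministic inequality. -/
theorem det_bound (hd : 1 ≤ d) {Ω : Type*} (ξ : Sym2 (Fin d → ℤ) → Ω → ℝ) (ω : Ω)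
    (hξ : ∀ e, ¬ e.IsDiag → 0 ≤ ξ e ω) {c σ : ℝ} (hc : 0 < c) (hσ : 1 ≤ σ) (M : ℕ)
    (hM : (M : ℝ) ≤ σ ^ 2) {t : ℝ} (ht : 1 ≤ t)
    (hZ : ∀ j < M, Zf dist2 kls ξ (mu d c σ j) (alp c σ) (bet c) 0 M j ω ≤ ENNReal.ofReal t)
    (s : List ((Fin d → ℤ) × (Fin d → ℤ))) (h0 : IsFrom 0 s)
    (h1 : (s.map ed).Nodup) (h2 : ∀ a ∈ s, a.1 ≠ a.2) (h3 : ∀ a ∈ s, kls a < M) :
    len dist2 0 s / 4 ≤
      16 * C0 d c * σ ^ (d + 1) *
        (s.map (fun a => ξ (ed a) ω * dist2 a.1 a.2 ^ (2 * d + 1))).sum +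
      4 * c ^ 2 * len dist2 0 s + 4 ^ M / 3 * Real.log t := by
  have hC := C0_pos hd hc
  have hσ0 : 0 < σ := by linarith
  set L := len dist2 0 s with hL
  have hL0 : 0 ≤ L := len_nonneg dist2_nonneg _ _
  have hLs : L = (s.map (fun a => dist2 a.1 a.2)).sum := len_eq_sum dist2_self h0
  -- summation of the inequalities
  have hsum : ∑ j ∈ Finset.range M, 4 ^ j * ((filt kls j s).map (fun _ => (1 : ℝ))).sum ≤
      ∑ j ∈ Finset.range M, 4 ^ j * (((filt kls j s).map
        (fun a => mu d c σ j (kls a) * ξ (ed a) ω)).sum +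
        En dist2 kls (alp c σ) (bet c) 0 M j (filt kls j s) + Real.log t) := by
    apply Finset.sum_le_sum
    intro j hj
    rw [Finset.mem_range] at hj
    exact mul_le_mul_of_nonneg_left (ineq_of_Zf ξ _ _ _ 0 M j ω (by linarith) (hZ j hj) s h1 h2 h3)
      (by positivity)
  -- left side
  have hleft : L / 4 ≤ ∑ j ∈ Finset.range M, 4 ^ j *
      ((filt kls j s).map (fun _ => (1 : ℝ))).sum := by
    have e1 : ∀ j, (4 : ℝ) ^ j * ((filt kls j s).map (fun _ => (1 : ℝ))).sum =
        (s.map (fun a => if j ≤ kls a then (4 : ℝ) ^ j else 0)).sum := by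
      intro j
      rw [sum_map_filt, ← List.sum_map_mul_left]
      congr 1
      apply List.map_congr_left
      intro a _
      rw [mul_ite, mul_one, mul_zero]
    simp only [e1]
    rw [sum_list_comm, hLs, div_eq_mul_inv, mul_comm, ← List.sum_map_mul_left]
    apply list_sum_le
    intro a ha
    have h4 := lt_kls a
    have h5 := h3 a ha
    have h6 : ∑ j ∈ Finset.range M, (if j ≤ kls a then (4 : ℝ) ^ j else 0) =
        ∑ j ∈ Finset.range (kls a + 1), (4 : ℝ) ^ j := by
      rw [← Finset.sum_filter]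
      apply Finset.sum_congr _ (fun _ _ => rfl)
      ext j
      simp only [Finset.mem_filter, Finset.mem_range]
      omega
    rw [h6]
    have h7 := sum_four_pow_le (kls a)
    rw [pow_succ] at h4
    linarith
  -- the cost
  have hcost : ∑ j ∈ Finset.range M, 4 ^ j * ((filt kls j s).map
        (fun a => mu d c σ j (kls a) * ξ (ed a) ω)).sum ≤
      16 * C0 d c * σ ^ (d + 1) *
        (s.map (fun a => ξ (ed a) ω * dist2 a.1 a.2 ^ (2 * d + 1))).sum := by
    have e1 : ∀ j, (4 : ℝ) ^ j * ((filt kls j s).map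
        (fun a => mu d c σ j (kls a) * ξ (ed a) ω)).sum =
        (s.map (fun a => if j ≤ kls a then (4 : ℝ) ^ j * (mu d c σ j (kls a) * ξ (ed a) ω)
          else 0)).sum := by
      intro j
      rw [sum_map_filt, ← List.sum_map_mul_left]
      congr 1
      apply List.map_congr_left
      intro a _
      rw [mul_ite, mul_zero]
    simp only [e1]
    rw [sum_list_comm, ← List.sum_map_mul_left]
    apply list_sum_le
    intro a ha
    have h5 := h3 a ha
    have h6 : ∑ j ∈ Finset.range M, (if j ≤ kls a then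
        (4 : ℝ) ^ j * (mu d c σ j (kls a) * ξ (ed a) ω) else 0) =
        ∑ j ∈ Finset.range (kls a + 1), (4 : ℝ) ^ j * (mu d c σ j (kls a) * ξ (ed a) ω) := by
      rw [← Finset.sum_filter]
      apply Finset.sum_congr _ (fun _ _ => rfl)
      ext j
      simp only [Finset.mem_filter, Finset.mem_range]
      omega
    rw [h6]
    have hξa : 0 ≤ ξ (ed a) ω := hξ _ (by
      rw [ed, Sym2.mk_isDiag_iff]; exact h2 a ha)
    have e2 : ∀ j, (4 : ℝ) ^ j * (mu d c σ j (kls a) * ξ (ed a) ω) =
        2 ^ j * (8 * C0 d c * σ ^ (d + 1) / 2 ^ (kls a) * (4 ^ (kls a)) ^ (2 * d + 1) *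
          ξ (ed a) ω) := by
      intro j
      rw [mu, pow_add]
      have : (4 : ℝ) ^ j = 2 ^ j * 2 ^ j := by rw [← mul_pow]; norm_num
      rw [this]
      field_simp
      rw [pow_add]; ring
    simp only [e2]
    rw [← Finset.sum_mul, sum_two_pow_eq]
    have hk : (4 ^ kls a : ℝ) ^ (2 * d + 1) ≤ dist2 a.1 a.2 ^ (2 * d + 1) :=
      pow_le_pow_left₀ (by positivity) (kls_le (h2 a ha)) _
    calc _ ≤ 2 ^ (kls a + 1) * (8 * C0 d c * σ ^ (d + 1) / 2 ^ (kls a) *
          (4 ^ (kls a)) ^ (2 * d + 1) * ξ (ed a) ω) := by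
          apply mul_le_mul_of_nonneg_right (by linarith)
          positivity
      _ = 16 * C0 d c * σ ^ (d + 1) * (ξ (ed a) ω * (4 ^ (kls a)) ^ (2 * d + 1)) := by
          rw [pow_succ]; field_simp; ring
      _ ≤ _ := by
          apply mul_le_mul_of_nonneg_left _ (by positivity)
          exact mul_le_mul_of_nonneg_left hk hξa
  -- the energy
  have hen : ∑ j ∈ Finset.range M, 4 ^ j *
      En dist2 kls (alp c σ) (bet c) 0 M j (filt kls j s) ≤ 4 * c ^ 2 * L := by
    set ℓ : ℕ → ℝ := fun k => len dist2 (0 : Fin d → ℤ) (filt kls k s) with hℓ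
    set gp : ℕ → ℝ := fun k => gap dist2 kls k (0 : Fin d → ℤ) (filt kls k s) with hgp
    have e1 : ∀ j, (4 : ℝ) ^ j * En dist2 kls (alp c σ) (bet c) 0 M j (filt kls j s) =
        ∑ k ∈ Finset.Ico j M, 4 ^ j * (bet c k * (ℓ k - ℓ (k + 1)) + alp c σ k * gp k) := by
      intro j
      rw [En, Finset.mul_sum]
      apply Finset.sum_congr rfl
      intro k hk
      rw [Finset.mem_Ico] at hk
      rw [filt_filt hk.1, filt_filt (by omega)]
    simp only [e1]
    rw [Finset.range_eq_Ico, Finset.sum_Ico_Ico_comm]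
    have hℓm : ∀ k, ℓ (k + 1) ≤ ℓ k := by
      intro k
      have : filt kls (k + 1) s = filt kls (k + 1) (filt kls k s) := by
        rw [filt_filt (by omega)]
      rw [hℓ]
      simp only
      rw [this]
      exact len_filt_le dist2_nonneg dist2_triangle _ _ _
    have hgpL : ∀ k, gp k ≤ L := fun k =>
      (gap_le dist2_nonneg k 0 _).trans (len_filt_le dist2_nonneg dist2_triangle _ _ _)
    calc _ ≤ ∑ k ∈ Finset.Ico 0 M, (4 / 3) * (2 * c ^ 2 * (ℓ k - ℓ (k + 1)) +
          c ^ 2 / σ ^ 2 * L) := by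
          apply Finset.sum_le_sum
          intro k _
          rw [← Finset.sum_mul, ← Finset.range_eq_Ico, sum_four_pow_eq]
          have h4 : (0 : ℝ) < 4 ^ k := by positivity
          have h22 : (2 : ℝ) ^ k * 2 ^ k = 4 ^ k := by rw [← mul_pow]; norm_num
          have e3 : bet c k = 2 * c ^ 2 / 4 ^ k := by
            rw [bet, div_pow, ← h22]; ring
          have e4 : alp c σ k = c ^ 2 / σ ^ 2 / 4 ^ k := by
            rw [alp, div_pow, mul_pow, ← h22]; field_simp
          rw [e3, e4]
          have h5 : 0 ≤ ℓ k - ℓ (k + 1) := sub_nonneg.2 (hℓm k)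
          have h6 := hgpL k
          have h7 : (4 ^ (k + 1) - 1 : ℝ) / 3 ≤ 4 / 3 * 4 ^ k := by
            rw [pow_succ]; linarith
          have h8 : 2 * c ^ 2 / 4 ^ k * (ℓ k - ℓ (k + 1)) + c ^ 2 / σ ^ 2 / 4 ^ k * gp k ≤
              2 * c ^ 2 / 4 ^ k * (ℓ k - ℓ (k + 1)) + c ^ 2 / σ ^ 2 / 4 ^ k * L := by
            gcongr
          have h9 : 0 ≤ (4 ^ (k + 1) - 1 : ℝ) / 3 := by
            have : (1 : ℝ) ≤ 4 ^ (k + 1) := one_le_pow₀ (by norm_num)
            linarith
          calc _ ≤ (4 ^ (k + 1) - 1 : ℝ) / 3 *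
                (2 * c ^ 2 / 4 ^ k * (ℓ k - ℓ (k + 1)) + c ^ 2 / σ ^ 2 / 4 ^ k * L) :=
                mul_le_mul_of_nonneg_left h8 h9
            _ ≤ 4 / 3 * 4 ^ k *
                (2 * c ^ 2 / 4 ^ k * (ℓ k - ℓ (k + 1)) + c ^ 2 / σ ^ 2 / 4 ^ k * L) := by
                apply mul_le_mul_of_nonneg_right h7
                positivity
            _ = _ := by field_simp
      _ = (4 / 3) * (2 * c ^ 2 * (ℓ 0 - ℓ M) + M * (c ^ 2 / σ ^ 2 * L)) := by
          rw [← Finset.mul_sum, Finset.sum_add_distrib, ← Finset.mul_sum,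
            ← Finset.range_eq_Ico, Finset.sum_range_sub', Finset.sum_const, Finset.card_range,
            nsmul_eq_mul]
      _ ≤ (4 / 3) * (2 * c ^ 2 * L + c ^ 2 * L) := by
          have h5 : 0 ≤ ℓ M := len_nonneg dist2_nonneg _ _
          have h6 : ℓ 0 ≤ L := len_filt_le dist2_nonneg dist2_triangle _ _ _
          have h7 : (M : ℝ) * (c ^ 2 / σ ^ 2 * L) ≤ σ ^ 2 * (c ^ 2 / σ ^ 2 * L) := by
            apply mul_le_mul_of_nonneg_right hM; positivity
          have h8 : σ ^ 2 * (c ^ 2 / σ ^ 2 * L) = c ^ 2 * L := by field_simp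
          have h9 : 2 * c ^ 2 * (ℓ 0 - ℓ M) ≤ 2 * c ^ 2 * L := by
            apply mul_le_mul_of_nonneg_left (by linarith); positivity
          linarith
      _ = 4 * c ^ 2 * L := by ring
  have hlog : ∑ j ∈ Finset.range M, (4 : ℝ) ^ j * Real.log t ≤ 4 ^ M / 3 * Real.log t := by
    rw [← Finset.sum_mul, sum_four_pow_eq]
    apply mul_le_mul_of_nonneg_right _ (Real.log_nonneg ht)
    linarith
  simp only [mul_add, Finset.sum_add_distrib] at hsum
  linarith

end Pool.Agent.Lib_helper7.FPP
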