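import Mathlib
import Pool.Agent.Lib_helper7.FPP.Param

/-!
# There are no long cheap edges
-/

namespace Pool.Agent.Lib_helper7.FPP

open scoped ENNReal
open Real MeasureTheory ProbabilityTheory

variable {d : ℕ}

theorem expMeasure_Iic_le {s : ℝ} (hs : 0 ≤ s) : expMeasure 1 (Set.Iic s) ≤ ENNReal.ofReal s := by
  have : IsProbabilityMeasure (expMeasure 1) := isProbabilityMeasure_expMeasure one_pos
  rw [← ofReal_cdf (expMeasure 1) s, cdf_expMeasure_eq one_pos, if_pos hs]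
  apply ENNReal.ofReal_le_ofReal
  have := Real.add_one_le_exp (-(1 * s))
  linarith

theorem expMeasure_Iio_zero : expMeasure 1 (Set.Iio 0) = 0 := by
  have h := expMeasure_Iic_le (le_refl (0 : ℝ))
  rw [ENNReal.ofReal_zero, nonpos_iff_eq_zero] at h
  exact measure_mono_null Set.Iio_subset_Iic_self h

theorem prob_le {V Ω : Type*} [MeasurableSpace Ω] {P : Measure Ω} {ξ : Sym2 V → Ω → ℝ}
    (h : IsExpFamily P ξ) {e : Sym2 V} (he : ¬ e.IsDiag) {s : ℝ} (hs : 0 ≤ s) :
    P {ω | ξ e ω ≤ s} ≤ ENNReal.ofReal s := by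
  refine le_trans (le_of_eq ?_) (expMeasure_Iic_le hs)
  rw [← h.law e he, Measure.map_apply (h.meas e he) measurableSet_Iic]
  rfl

theorem ae_nonneg {V Ω : Type*} [Countable V] [MeasurableSpace Ω] {P : Measure Ω}
    {ξ : Sym2 V → Ω → ℝ} (h : IsExpFamily P ξ) : ∀ᵐ ω ∂P, ∀ e, ¬ e.IsDiag → 0 ≤ ξ e ω := by
  have : Countable (Sym2 V) := by
    unfold Sym2
    infer_instance
  rw [ae_all_iff]
  intro e
  by_cases he : e.IsDiag
  · simp [he]
  · have h1 : P {ω | ξ e ω < 0} = 0 := by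
      rw [← expMeasure_Iio_zero, ← h.law e he, Measure.map_apply (h.meas e he) measurableSet_Iio]
      rfl
    rw [ae_iff]
    refine measure_mono_null ?_ h1
    intro ω hω
    simp only [Set.mem_ofPred_eq, not_forall] at hω ⊢
    obtain ⟨_, h2⟩ := hω
    exact not_le.1 h2

theorem ball_count {R : ℝ} (hR : 1 ≤ R) :
    ∑' y : Fin d → ℤ, (if dist2 0 y < R then (1 : ℝ≥0∞) else 0) ≤
      ENNReal.ofReal ((3 * R) ^ d) := by
  classical
  set F : Finset (Fin d → ℤ) :=
    Fintype.piFinset (fun _ => Finset.Icc (-⌊R⌋) ⌊R⌋) with hF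
  have h1 : ∀ z : Fin d → ℤ, (if dist2 0 z < R then (1 : ℝ≥0∞) else 0) ≤
      if z ∈ F then 1 else 0 := by
    intro z
    split_ifs with h2 h3
    · exact le_rfl
    · exfalso
      apply h3
      rw [hF, Fintype.mem_piFinset]
      intro k
      have h4 := (abs_coord_le 0 z k).trans_lt h2
      simp only [Pi.zero_apply, Int.cast_zero, sub_zero] at h4
      rw [abs_lt] at h4
      rw [Finset.mem_Icc]
      refine ⟨?_, Int.le_floor.2 h4.2.le⟩
      rw [neg_le]
      apply Int.le_floor.2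
      push_cast
      linarith
    · exact zero_le
    · exact le_rfl
  calc _ ≤ ∑' z : Fin d → ℤ, (if z ∈ F then (1 : ℝ≥0∞) else 0) := ENNReal.tsum_le_tsum h1
    _ = ∑ z ∈ F, (1 : ℝ≥0∞) := by
        rw [tsum_eq_sum (s := F)]
        · apply Finset.sum_congr rfl
          intro z hz
          rw [if_pos hz]
        · intro z hz
          rw [if_neg hz]
    _ = ((F.card : ℕ) : ℝ≥0∞) := by simp
    _ ≤ ENNReal.ofReal ((3 * R) ^ d) := by
        rw [← ENNReal.ofReal_natCast]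
        apply ENNReal.ofReal_le_ofReal
        rw [hF, Fintype.card_piFinset]
        have hfl : 0 ≤ ⌊R⌋ := Int.floor_nonneg.2 (by linarith)
        simp only [Int.card_Icc, Finset.prod_const, Finset.card_univ, Fintype.card_fin]
        push_cast
        apply pow_le_pow_left₀ (by positivity)
        have e1 : (((⌊R⌋ + 1 - -⌊R⌋).toNat : ℕ) : ℝ) = ((⌊R⌋ + 1 - -⌊R⌋ : ℤ) : ℝ) := by
          have : 0 ≤ ⌊R⌋ + 1 - -⌊R⌋ := by omega
          exact_mod_cast Int.toNat_of_nonneg this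
        rw [e1]
        push_cast
        have := Int.floor_le R
        linarith

theorem quarter_pow (d i : ℕ) : (((1 : ℝ) / 4) ^ (d + 1)) ^ i = 1 / (4 ^ i) ^ (d + 1) := by
  rw [← pow_mul, ← pow_mul, mul_comm, one_div, inv_pow, one_div]

/-- The sum over the long edges at a vertex. -/
theorem long_sum (y : Fin d → ℤ) (m : ℕ) {T0 : ℝ} (hT : 0 ≤ T0) :
    ∑' z : Fin d → ℤ, (if m ≤ kls (y, z) then
      ENNReal.ofReal (T0 / (4 ^ kls (y, z)) ^ (2 * d + 1)) else 0) ≤
      ENNReal.ofReal (2 * 9 ^ d * T0 / (4 ^ m) ^ (d + 1)) := by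
  have h1 : ∀ z : Fin d → ℤ, (if m ≤ kls (y, z) then
      ENNReal.ofReal (T0 / (4 ^ kls (y, z)) ^ (2 * d + 1)) else 0) =
      ∑' i : ℕ, (if m ≤ i then ENNReal.ofReal (T0 / (4 ^ i) ^ (2 * d + 1)) else 0) *
        (if kls (y, z) = i then 1 else 0) := by
    intro z
    rw [tsum_eq_single (kls (y, z))]
    · simp
    · intro i hi
      rw [if_neg (Ne.symm hi), mul_zero]
  simp only [h1]
  rw [ENNReal.tsum_comm]
  simp only [ENNReal.tsum_mul_left]
  have h2 : ∀ i : ℕ, (if m ≤ i then ENNReal.ofReal (T0 / (4 ^ i) ^ (2 * d + 1)) else 0) *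
      ∑' z : Fin d → ℤ, (if kls (y, z) = i then (1 : ℝ≥0∞) else 0) ≤
      if m ≤ i then ENNReal.ofReal (9 ^ d * T0) * ENNReal.ofReal ((1 / 4) ^ (d + 1)) ^ i
        else 0 := by
    intro i
    split_ifs with h
    · refine (mul_le_mul' le_rfl (class_count i y)).trans ?_
      rw [← ENNReal.ofReal_mul (by positivity), ← ENNReal.ofReal_pow (by positivity),
        ← ENNReal.ofReal_mul (by positivity)]
      apply ENNReal.ofReal_le_ofReal
      apply le_of_eq
      rw [quarter_pow, mul_pow]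
      field_simp
      ring
    · simp
  refine (ENNReal.tsum_le_tsum h2).trans ?_
  have h3 : ∑' i : ℕ, (if m ≤ i then ENNReal.ofReal (9 ^ d * T0) *
      ENNReal.ofReal ((1 / 4) ^ (d + 1)) ^ i else 0) =
      ∑' k : ℕ, ENNReal.ofReal (9 ^ d * T0) * ENNReal.ofReal ((1 / 4) ^ (d + 1)) ^ (m + k) := by
    have hinj : Function.Injective (fun k : ℕ => m + k) := fun a b h => by simpa using h
    have e := hinj.tsum_eq (f := fun i : ℕ => (if m ≤ i then ENNReal.ofReal (9 ^ d * T0) *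
      ENNReal.ofReal ((1 / 4) ^ (d + 1)) ^ i else 0)) (by
        intro i hi
        rw [Function.mem_support] at hi
        have : m ≤ i := by
          by_contra hc
          exact hi (if_neg hc)
        exact ⟨i - m, by simp only; omega⟩)
    rw [← e]
    apply tsum_congr
    intro k
    rw [if_pos (by omega)]
  rw [h3]
  have h3' : ∀ k : ℕ, ENNReal.ofReal (9 ^ d * T0) * ENNReal.ofReal ((1 / 4) ^ (d + 1)) ^ (m + k) =
      ENNReal.ofReal (9 ^ d * T0) * ENNReal.ofReal ((1 / 4) ^ (d + 1)) ^ m *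
        ENNReal.ofReal ((1 / 4) ^ (d + 1)) ^ k := by
    intro k
    rw [pow_add, mul_assoc]
  simp only [h3']
  rw [ENNReal.tsum_mul_left, ENNReal.tsum_geometric]
  have h4 : (1 - ENNReal.ofReal ((1 / 4) ^ (d + 1)))⁻¹ ≤ ENNReal.ofReal 2 := by
    have h5 : ((1 : ℝ) / 4) ^ (d + 1) ≤ 1 / 4 := by
      have : ((1 : ℝ) / 4) ^ (d + 1) ≤ (1 / 4) ^ 1 :=
        pow_le_pow_of_le_one (by norm_num) (by norm_num) (by omega)
      simpa using this
    rw [← ENNReal.ofReal_one, ← ENNReal.ofReal_sub _ (by positivity)]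
    rw [show (2 : ℝ) = (1 / 2)⁻¹ by norm_num, ENNReal.ofReal_inv_of_pos (by positivity)]
    rw [ENNReal.inv_le_inv]
    apply ENNReal.ofReal_le_ofReal
    linarith
  refine (mul_le_mul' le_rfl h4).trans ?_
  rw [← ENNReal.ofReal_pow (by positivity), ← ENNReal.ofReal_mul (by positivity),
    ← ENNReal.ofReal_mul (by positivity)]
  apply ENNReal.ofReal_le_ofReal
  apply le_of_eq
  rw [quarter_pow]
  field_simp

/-- With high probability there is no long cheap edge that starts in the ball. -/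
theorem prob_long {Ω : Type*} [MeasurableSpace Ω] {P : Measure Ω}
    {ξ : Sym2 (Fin d → ℤ) → Ω → ℝ} (h : IsExpFamily P ξ) {R T0 : ℝ} (hR : 1 ≤ R) (hT : 0 ≤ T0)
    (m : ℕ) :
    P {ω | ∃ y z : Fin d → ℤ, y ≠ z ∧ dist2 0 y < R ∧ m ≤ kls (y, z) ∧
      ξ s(y, z) ω * dist2 y z ^ (2 * d + 1) ≤ T0} ≤
      ENNReal.ofReal ((3 * R) ^ d * (2 * 9 ^ d * T0 / (4 ^ m) ^ (d + 1))) := by
  classical
  set A : (Fin d → ℤ) → (Fin d → ℤ) → Set Ω := fun y z => {ω | y ≠ z ∧ dist2 0 y < R ∧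
    m ≤ kls (y, z) ∧ ξ s(y, z) ω * dist2 y z ^ (2 * d + 1) ≤ T0} with hA
  have h1 : {ω | ∃ y z : Fin d → ℤ, y ≠ z ∧ dist2 0 y < R ∧ m ≤ kls (y, z) ∧
      ξ s(y, z) ω * dist2 y z ^ (2 * d + 1) ≤ T0} = ⋃ y, ⋃ z, A y z := by
    ext ω
    simp [hA]
  have h2 : ∀ y z, P (A y z) ≤ (if dist2 0 y < R then (1 : ℝ≥0∞) else 0) *
      (if m ≤ kls (y, z) then
      ENNReal.ofReal (T0 / (4 ^ kls (y, z)) ^ (2 * d + 1)) else 0) := by
    intro y z
    by_cases hc : y ≠ z ∧ dist2 0 y < R ∧ m ≤ kls (y, z)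
    · rw [if_pos hc.2.1, if_pos hc.2.2, one_mul]
      have hk := kls_le (a := (y, z)) hc.1
      simp only at hk
      have hk2 : ((4 : ℝ) ^ kls (y, z)) ^ (2 * d + 1) ≤ dist2 y z ^ (2 * d + 1) :=
        pow_le_pow_left₀ (by positivity) hk _
      have hpos : (0 : ℝ) < (4 ^ kls (y, z)) ^ (2 * d + 1) := by positivity
      refine le_trans (measure_mono ?_) (prob_le h (e := s(y, z)) (by
        rw [Sym2.mk_isDiag_iff]; exact hc.1) (s := T0 / (4 ^ kls (y, z)) ^ (2 * d + 1))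
        (by positivity))
      rintro ω ⟨_, _, _, h3⟩
      rw [Set.mem_ofPred_eq, le_div_iff₀ hpos]
      by_cases hx : 0 ≤ ξ s(y, z) ω
      · exact (mul_le_mul_of_nonneg_left hk2 hx).trans h3
      · push Not at hx
        exact (mul_nonpos_of_nonpos_of_nonneg hx.le hpos.le).trans hT
    · have : A y z = ∅ := by
        rw [hA]
        ext ω
        simp only [Set.mem_ofPred_eq, Set.mem_empty_iff_false, iff_false]
        rintro ⟨h3, h4, h5, _⟩
        exact hc ⟨h3, h4, h5⟩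
      rw [this, measure_empty]
      exact zero_le
  rw [h1]
  calc P (⋃ y, ⋃ z, A y z) ≤ ∑' y, P (⋃ z, A y z) := measure_iUnion_le _
    _ ≤ ∑' y, ∑' z, P (A y z) := ENNReal.tsum_le_tsum fun y => measure_iUnion_le _
    _ ≤ ∑' y, ∑' z, (if dist2 0 y < R then (1 : ℝ≥0∞) else 0) * (if m ≤ kls (y, z) then
      ENNReal.ofReal (T0 / (4 ^ kls (y, z)) ^ (2 * d + 1)) else 0) :=
        ENNReal.tsum_le_tsum fun y => ENNReal.tsum_le_tsum fun z => h2 y z
    _ ≤ ∑' y : Fin d → ℤ, (if dist2 0 y < R then (1 : ℝ≥0∞) else 0) *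
        ENNReal.ofReal (2 * 9 ^ d * T0 / (4 ^ m) ^ (d + 1)) := by
        refine ENNReal.tsum_le_tsum fun y => ?_
        rw [ENNReal.tsum_mul_left]
        exact mul_le_mul' le_rfl (long_sum y m hT)
    _ ≤ _ := by
        rw [ENNReal.tsum_mul_right, ENNReal.ofReal_mul (by positivity)]
        exact mul_le_mul' (ball_count hR) le_rfl

end Pool.Agent.Lib_helper7.FPP
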