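import Mathlib
import Pool.Agent.Lib_helper7.FPP.Det
import Pool.Agent.Lib_helper7.FPP.Long

/-!
# The lower bound for the first-passage time
-/

namespace Pool.Agent.Lib_helper7.FPP

open scoped ENNReal
open Real MeasureTheory ProbabilityTheory Filter Topology

variable {d : ℕ}

/-- The list of the steps of a walk. -/
def steps {V : Type*} {G : SimpleGraph V} : ∀ {u v : V}, G.Walk u v → List (V × V)
  | _, _, .nil => []
  | u, _, .cons (v := w) _ p => (u, w) :: steps p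

theorem map_ed_steps {V : Type*} {G : SimpleGraph V} {u v : V} (p : G.Walk u v) :
    (steps p).map ed = p.edges := by
  induction p with
  | nil => rfl
  | cons h p ih => simp [steps, ed, ih]

theorem isFrom_steps {V : Type*} {G : SimpleGraph V} {u v : V} (p : G.Walk u v) :
    IsFrom u (steps p) := by
  induction p with
  | nil => trivial
  | cons h p ih => exact ⟨rfl, ih⟩

theorem ne_of_mem_steps {V : Type*} {G : SimpleGraph V} {u v : V} (p : G.Walk u v) :
    ∀ a ∈ steps p, a.1 ≠ a.2 := by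
  induction p with
  | nil => simp [steps]
  | cons h p ih =>
    intro a ha
    rcases List.mem_cons.1 ha with rfl | ha
    · exact G.ne_of_adj h
    · exact ih a ha

theorem dist2_le_len {G : SimpleGraph (Fin d → ℤ)} {u v : Fin d → ℤ} (p : G.Walk u v) :
    dist2 u v ≤ len dist2 u (steps p) := by
  induction p with
  | nil => rw [dist2_self]; exact le_rfl
  | @cons u w v h p ih =>
    simp only [steps, len, dist2_self, zero_add]
    exact (dist2_triangle u w v).trans (by linarith)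

theorem dist2_le_edgeLen (y z : Fin d → ℤ) : dist2 y z ≤ edgeLen s(y, z) := by
  rw [dist2, EuclideanSpace.norm_eq, edgeLen, Sym2.lift_mk]
  rw [Real.sqrt_le_left (by positivity)]
  refine (Finset.sum_sq_le_sq_sum_of_nonneg (fun _ _ => norm_nonneg _)).trans (le_of_eq ?_)
  congr 1
  push_cast
  apply Finset.sum_congr rfl
  intro i _
  rw [PiLp.sub_apply, emb_apply, emb_apply, Real.norm_eq_abs, abs_sub_comm, Nat.cast_natAbs]
  push_cast
  rfl

theorem W_ed_ge {ω : Sym2 (Fin d → ℤ) → ℝ} {a : (Fin d → ℤ) × (Fin d → ℤ)}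
    (h : 0 ≤ ω (ed a)) : ω (ed a) * dist2 a.1 a.2 ^ (2 * d + 1) ≤ W ω (ed a) := by
  rw [W]
  apply mul_le_mul_of_nonneg_left _ h
  exact pow_le_pow_left₀ (dist2_nonneg _ _) (dist2_le_edgeLen _ _) _

theorem sum_sublist_le {A : Type*} {l₁ l₂ : List A} (h : l₁.Sublist l₂) (f : A → ℝ)
    (hf : ∀ a ∈ l₂, 0 ≤ f a) : (l₁.map f).sum ≤ (l₂.map f).sum := by
  induction h with
  | slnil => exact le_rfl
  | cons a h ih =>
    rw [List.map_cons, List.sum_cons]
    have := ih (fun b hb => hf b (List.mem_cons_of_mem _ hb))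
    have := hf a List.mem_cons_self
    linarith
  | cons_cons a h ih =>
    rw [List.map_cons, List.sum_cons, List.map_cons, List.sum_cons]
    have := ih (fun b hb => hf b (List.mem_cons_of_mem _ hb))
    linarith

theorem le_sum_of_mem {A : Type*} {l : List A} {a : A} (h : a ∈ l) (f : A → ℝ)
    (hf : ∀ a ∈ l, 0 ≤ f a) : f a ≤ (l.map f).sum := by
  have := sum_sublist_le (List.singleton_sublist.2 h) f hf
  simpa using this

theorem W_nonneg {ω : Sym2 (Fin d → ℤ) → ℝ} (h : ∀ e, ¬ e.IsDiag → 0 ≤ ω e)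
    (e : Sym2 (Fin d → ℤ)) (he : ¬ e.IsDiag) : 0 ≤ W ω e :=
  mul_nonneg (h e he) (by positivity)

instance nonempty_walk {V : Type*} (y z : V) : Nonempty ((⊤ : SimpleGraph V).Walk y z) := by
  by_cases h : y = z
  · subst h
    exact ⟨.nil⟩
  · exact ⟨.cons (by simpa using h) .nil⟩

/-- On the good event, the passage time is large. -/
theorem good_event (hd : 1 ≤ d) {Ω : Type*} (ξ : Sym2 (Fin d → ℤ) → Ω → ℝ) (ω : Ω)
    (hξ : ∀ e, ¬ e.IsDiag → 0 ≤ ξ e ω) {σ : ℝ} (hσ : 1 ≤ σ) (M : ℕ)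
    (hM : (M : ℝ) ≤ σ ^ 2) {t R : ℝ} (ht : 1 ≤ t) (hR : 0 < R) {X : Fin d → ℤ}
    (hX : R = dist2 0 X)
    (hMR : 4 ^ M / 3 * Real.log t ≤ R / 24)
    (hZ : ∀ j < M, Zf dist2 kls ξ (mu d (1 / 8) σ j) (alp (1 / 8) σ) (bet (1 / 8)) 0 M j ω ≤
      ENNReal.ofReal t)
    (hlong : ¬ ∃ y z : Fin d → ℤ, y ≠ z ∧ dist2 0 y < R ∧ M ≤ kls (y, z) ∧
      ξ s(y, z) ω * dist2 y z ^ (2 * d + 1) ≤ R / (128 * C0 d (1 / 8) * σ ^ (d + 1))) :
    R / (128 * C0 d (1 / 8) * σ ^ (d + 1)) ≤ T (fun e => ξ e ω) 0 X := by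
  have hC := C0_pos hd (c := 1 / 8) (by norm_num)
  have hσ0 : 0 < σ := by linarith
  set T0 := R / (128 * C0 d (1 / 8) * σ ^ (d + 1)) with hT0
  by_contra hlt
  push Not at hlt
  obtain ⟨p, hp⟩ := exists_lt_of_ciInf_lt hlt
  set q := p.bypass with hq
  have hnn : ∀ {u v : Fin d → ℤ} (w : (⊤ : SimpleGraph (Fin d → ℤ)).Walk u v), ∀ e ∈ w.edges,
      0 ≤ W (fun e => ξ e ω) e := by
    intro u v w e he
    apply W_nonneg hξ
    have := w.edges_subset_edgeSet he
    rw [SimpleGraph.edgeSet_top] at this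
    exact this
  have hcq : cost (fun e => ξ e ω) q < T0 := by
    refine lt_of_le_of_lt ?_ hp
    exact sum_sublist_le p.edges_bypass_sublist_edges _ (hnn p)
  have hnodup : ((steps q).map ed).Nodup := by
    rw [map_ed_steps]
    exact (p.bypass_isPath).isTrail.edges_nodup
  have hL : R ≤ len dist2 0 (steps q) := by
    rw [hX]; exact dist2_le_len q
  obtain ⟨k, hk1, hk2⟩ := exists_take dist2_self dist2_triangle (isFrom_steps q) R hL
  set s := (steps q).take k with hs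
  have hsub : s.Sublist (steps q) := List.take_sublist _ _
  have hne : ∀ a ∈ s, a.1 ≠ a.2 := fun a ha => ne_of_mem_steps q a (hsub.subset ha)
  have hcost : cost (fun e => ξ e ω) q = ((steps q).map (fun a => W (fun e => ξ e ω) (ed a))).sum := by
    rw [cost, ← map_ed_steps, List.map_map]; rfl
  have hnn' : ∀ a ∈ steps q, 0 ≤ W (fun e => ξ e ω) (ed a) := by
    intro a ha
    apply hnn q
    rw [← map_ed_steps]
    exact List.mem_map_of_mem ha
  have hcls : ∀ a ∈ s, kls a < M := by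
    intro a ha
    by_contra hc
    push Not at hc
    apply hlong
    refine ⟨a.1, a.2, hne a ha, hk2 a ha, hc, ?_⟩
    have h1 := le_sum_of_mem (hsub.subset ha) (fun a => W (fun e => ξ e ω) (ed a)) hnn'
    rw [← hcost] at h1
    have h2 : ξ (ed a) ω * dist2 a.1 a.2 ^ (2 * d + 1) ≤ W (fun e => ξ e ω) (ed a) :=
      W_ed_ge (ω := fun e => ξ e ω) (hξ _ (by
        rw [ed, Sym2.mk_isDiag_iff]; exact hne a ha))
    exact (h2.trans h1).trans hcq.le
  have hdet := det_bound hd ξ ω hξ (c := 1 / 8) (by norm_num) hσ M hM ht hZ s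
    (isFrom_take (isFrom_steps q) k) (hnodup.sublist (hsub.map ed)) hne hcls
  have hs1 : (s.map (fun a => ξ (ed a) ω * dist2 a.1 a.2 ^ (2 * d + 1))).sum <
      T0 := by
    refine lt_of_le_of_lt ?_ hcq
    rw [hcost]
    refine le_trans ?_ (sum_sublist_le hsub _ hnn')
    apply list_sum_le
    intro a ha
    exact W_ed_ge (ω := fun e => ξ e ω) (hξ _ (by
      rw [ed, Sym2.mk_isDiag_iff]; exact hne a ha))
  have hs2 : 16 * C0 d (1 / 8) * σ ^ (d + 1) *
      (s.map (fun a => ξ (ed a) ω * dist2 a.1 a.2 ^ (2 * d + 1))).sum < R / 8 := by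
    have hpos : 0 < 16 * C0 d (1 / 8) * σ ^ (d + 1) := by positivity
    have := mul_lt_mul_of_pos_left hs1 hpos
    refine this.trans_eq ?_
    rw [hT0]
    field_simp
    norm_num
  linarith

/-- The probability that the passage time is small. -/
theorem lower_prob (hd : 1 ≤ d) {Ω : Type*} [MeasurableSpace Ω] {P : Measure Ω}
    {ξ : Sym2 (Fin d → ℤ) → Ω → ℝ} (h : IsExpFamily P ξ) {R : ℝ} {X : Fin d → ℤ}
    (hX : R = dist2 0 X) (J : ℕ) (hJ : 3 ≤ J) (hRJ : Real.log R ≤ J)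
    (hK : 64 * Real.log J ≤ R) :
    P {ω | T (fun e => ξ e ω) 0 X < R / (128 * C0 d (1 / 8) * (√J) ^ (d + 1))} ≤
      ENNReal.ofReal (2 * 27 ^ d / (128 * C0 d (1 / 8)) * (64 * Real.log J / √J) ^ (d + 1)) +
        ENNReal.ofReal (2 / J) := by
  have hC := C0_pos hd (c := 1 / 8) (by norm_num)
  have hJ3 : (3 : ℝ) ≤ J := by exact_mod_cast hJ
  have hlogJ : 1 ≤ Real.log J := by
    rw [Real.le_log_iff_exp_le (by linarith)]
    have := Real.exp_one_lt_d9
    linarith
  set K := 64 * Real.log J with hKdef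
  have hK64 : 64 ≤ K := by rw [hKdef]; linarith
  have hR64 : 64 ≤ R := hK64.trans hK
  have hR0 : 0 < R := by linarith
  set σ := √(J : ℝ) with hσdef
  have hσ2 : σ ^ 2 = J := Real.sq_sqrt (by linarith)
  have hσ1 : 1 ≤ σ := by
    rw [hσdef, Real.one_le_sqrt]; linarith
  have hσ0 : 0 < σ := by linarith
  set ρ := R / K with hρ
  have hρ1 : 1 ≤ ρ := by
    rw [hρ, le_div_iff₀ (by linarith), one_mul]; exact hK
  set M := Nat.log 4 ⌊ρ⌋₊ + 1 with hMdef
  have hfl : 1 ≤ ⌊ρ⌋₊ := Nat.le_floor (by simpa using hρ1)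
  have hM1 : (4 : ℝ) ^ M ≤ 4 * ρ := by
    have h1 : 4 ^ Nat.log 4 ⌊ρ⌋₊ ≤ ⌊ρ⌋₊ := Nat.pow_log_le_self 4 (by omega)
    have h2 : ((4 ^ Nat.log 4 ⌊ρ⌋₊ : ℕ) : ℝ) ≤ ρ :=
      le_trans (by exact_mod_cast h1) (Nat.floor_le (by linarith))
    rw [hMdef, pow_succ]
    push_cast at h2
    linarith
  have hM2 : ρ < (4 : ℝ) ^ M := by
    have h1 : ⌊ρ⌋₊ < 4 ^ M := Nat.lt_pow_succ_log_self (by norm_num) _
    have h2 : ((⌊ρ⌋₊ + 1 : ℕ) : ℝ) ≤ ((4 ^ M : ℕ) : ℝ) := by exact_mod_cast h1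
    push_cast at h2
    exact (Nat.lt_floor_add_one ρ).trans_le h2
  have hMJ : M ≤ J := by
    have h1 : (4 : ℝ) ^ M ≤ R := by
      refine hM1.trans ?_
      rw [hρ, ← mul_div_assoc, div_le_iff₀ (by linarith)]
      nlinarith
    have h2 : (M : ℝ) * Real.log 4 ≤ J := by
      rw [← Real.log_pow]
      exact (Real.log_le_log (by positivity) h1).trans hRJ
    have h3 : 1 ≤ Real.log 4 := by
      rw [Real.le_log_iff_exp_le (by norm_num)]
      have := Real.exp_one_lt_d9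
      linarith
    have h4 : (M : ℝ) ≤ J := by nlinarith [Nat.cast_nonneg (α := ℝ) M]
    exact_mod_cast h4
  set t : ℝ := (J : ℝ) ^ 2 with ht
  have ht1 : 1 ≤ t := by rw [ht]; nlinarith
  have hlogt : Real.log t = 2 * Real.log J := by rw [ht, Real.log_pow]; norm_num
  have hMR : 4 ^ M / 3 * Real.log t ≤ R / 24 := by
    rw [hlogt]
    have h1 : 4 ^ M / 3 * (2 * Real.log J) ≤ (4 * ρ) / 3 * (2 * Real.log J) := by
      gcongr
    refine h1.trans (le_of_eq ?_)
    rw [hρ, hKdef]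
    field_simp
    norm_num
  set T0 := R / (128 * C0 d (1 / 8) * σ ^ (d + 1)) with hT0
  set A : Set Ω := {ω | ∃ y z : Fin d → ℤ, y ≠ z ∧ dist2 0 y < R ∧ M ≤ kls (y, z) ∧
      ξ s(y, z) ω * dist2 y z ^ (2 * d + 1) ≤ T0} with hA
  set B : ℕ → Set Ω := fun j => {ω | ENNReal.ofReal t ≤
    Zf dist2 kls ξ (mu d (1 / 8) σ j) (alp (1 / 8) σ) (bet (1 / 8)) 0 M j ω} with hB
  set N : Set Ω := {ω | ¬ ∀ e, ¬ e.IsDiag → 0 ≤ ξ e ω} with hN
  have hsub : {ω | T (fun e => ξ e ω) 0 X < T0} ⊆ N ∪ (A ∪ ⋃ j ∈ Finset.range M, B j) := by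
    intro ω hω
    by_contra hc
    simp only [Set.mem_union, not_or, Set.mem_iUnion, not_exists] at hc
    obtain ⟨h1, h2, h3⟩ := hc
    have hξ : ∀ e, ¬ e.IsDiag → 0 ≤ ξ e ω := by
      by_contra h4
      exact h1 h4
    have := good_event hd ξ ω hξ hσ1 M (by rw [hσ2]; exact_mod_cast hMJ) ht1 hR0 hX hMR
      (fun j hj => by
        have h5 := h3 j (Finset.mem_range.2 hj)
        rw [hB] at h5
        exact (not_le.1 h5).le) h2
    exact absurd hω (not_lt.2 this)
  have hPN : P N = 0 := ae_nonneg h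
  have hPA : P A ≤ ENNReal.ofReal (2 * 27 ^ d / (128 * C0 d (1 / 8)) * (K / σ) ^ (d + 1)) := by
    refine (prob_long h (by linarith) (by positivity) M).trans ?_
    apply ENNReal.ofReal_le_ofReal
    have h1 : 2 * 9 ^ d * T0 / ((4 : ℝ) ^ M) ^ (d + 1) ≤ 2 * 9 ^ d * T0 / ρ ^ (d + 1) := by
      apply div_le_div_of_nonneg_left (by positivity) (by positivity)
      exact pow_le_pow_left₀ (by linarith) hM2.le _
    refine (mul_le_mul_of_nonneg_left h1 (by positivity)).trans (le_of_eq ?_)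
    rw [hT0, hρ, div_pow R K, div_pow K σ, mul_pow]
    have h27 : (27 : ℝ) ^ d = 3 ^ d * 9 ^ d := by rw [← mul_pow]; norm_num
    rw [h27]
    field_simp
    ring
  have hPB : ∀ j ∈ Finset.range M, P (B j) ≤ ENNReal.ofReal (2 / t) := by
    intro j hj
    rw [Finset.mem_range] at hj
    have h1 := lintegral_Zf_le_two h hd (c := 1 / 8) (by norm_num) (by norm_num) hσ1 hj.le
    have h2 : AEMeasurable (fun ω => Zf dist2 kls ξ (mu d (1 / 8) σ j) (alp (1 / 8) σ)
        (bet (1 / 8)) 0 M j ω) P := by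
      exact (measurable_Zf dist2 kls h _ _ _ 0 M j).aemeasurable
    have h3 := mul_meas_ge_le_lintegral₀ h2 (ENNReal.ofReal t)
    have h4 := h3.trans h1
    rw [mul_comm] at h4
    have ht0 : ENNReal.ofReal t ≠ 0 := by
      rw [ne_eq, ENNReal.ofReal_eq_zero]; linarith
    rw [← ENNReal.le_div_iff_mul_le (Or.inl ht0) (Or.inl ENNReal.ofReal_ne_top)] at h4
    refine h4.trans (le_of_eq ?_)
    rw [ENNReal.ofReal_div_of_pos (by linarith)]
    simp
  calc P {ω | T (fun e => ξ e ω) 0 X < T0} ≤ P (N ∪ (A ∪ ⋃ j ∈ Finset.range M, B j)) :=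
        measure_mono hsub
    _ ≤ P N + (P A + P (⋃ j ∈ Finset.range M, B j)) :=
        (measure_union_le _ _).trans (add_le_add le_rfl (measure_union_le _ _))
    _ ≤ 0 + (ENNReal.ofReal (2 * 27 ^ d / (128 * C0 d (1 / 8)) * (K / σ) ^ (d + 1)) +
        ∑ j ∈ Finset.range M, ENNReal.ofReal (2 / t)) := by
        rw [hPN]
        refine add_le_add le_rfl (add_le_add hPA ?_)
        exact (measure_biUnion_finset_le _ _).trans (Finset.sum_le_sum hPB)
    _ ≤ _ := by
        rw [zero_add]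
        apply add_le_add le_rfl
        rw [Finset.sum_const, Finset.card_range, nsmul_eq_mul]
        have h1 : ((M : ℕ) : ℝ≥0∞) ≤ ENNReal.ofReal J := by
          rw [ENNReal.ofReal_natCast]
          exact_mod_cast hMJ
        refine (mul_le_mul' h1 le_rfl).trans ?_
        rw [← ENNReal.ofReal_mul (by linarith)]
        apply ENNReal.ofReal_le_ofReal
        rw [ht]
        apply le_of_eq
        field_simp

end Pool.Agent.Lib_helper7.FPP
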