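import Mathlib
import Pool.Agent.Lib_helper7.FPP.Lower

/-!
# The lower bound: the limit
-/

namespace Pool.Agent.Lib_helper7.FPP

open scoped ENNReal
open Real MeasureTheory ProbabilityTheory Filter Topology

variable {d : ℕ}

theorem rpow_half (d : ℕ) {x : ℝ} (hx : 0 < x) :
    x ^ (-((d : ℝ) + 1) / 2) = ((√x) ^ (d + 1))⁻¹ := by
  rw [Real.sqrt_eq_rpow, ← Real.rpow_natCast, ← Real.rpow_mul hx.le, ← Real.rpow_neg hx.le]
  congr 1
  push_cast
  ring

theorem dist2_nsmul (n : ℕ) (x : Fin d → ℤ) : dist2 0 (n • x) = n * dist2 0 x := by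
  have h0 : emb (0 : Fin d → ℤ) = 0 := by ext i; simp
  have h1 : emb (n • x) = (n : ℝ) • emb x := by
    ext i
    simp
  rw [dist2, dist2, h0, sub_zero, sub_zero, h1, norm_smul, Real.norm_natCast]

theorem tendsto_log_div_sqrt : Tendsto (fun x : ℝ => Real.log x / √x) atTop (𝓝 0) := by
  have h := (isLittleO_log_rpow_atTop (r := 1 / 2) (by norm_num)).tendsto_div_nhds_zero
  refine h.congr' ?_
  filter_upwards with x
  rw [Real.sqrt_eq_rpow]

/-- The lower bound, in the limit. -/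
theorem lower_tendsto (hd : 1 ≤ d) {Ω : Type*} [MeasurableSpace Ω] {P : Measure Ω}
    {ξ : Sym2 (Fin d → ℤ) → Ω → ℝ} (h : IsExpFamily P ξ) {x : Fin d → ℤ} (hx : x ≠ 0) :
    ∃ c : ℝ, 0 < c ∧ Tendsto (fun n : ℕ => P {ω | T (fun e => ξ e ω) 0 (n • x) <
      c * (n * (Real.log n) ^ (-((d : ℝ) + 1) / 2))}) atTop (𝓝 0) := by
  have hC := C0_pos hd (c := 1 / 8) (by norm_num)
  set r := dist2 0 x with hr
  have hr1 : 1 ≤ r := one_le_dist2 hx.symm
  have hr0 : 0 < r := by linarith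
  set J : ℕ → ℕ := fun n => ⌈Real.log (n * r)⌉₊ with hJ
  have hlogn : Tendsto (fun n : ℕ => Real.log (n : ℝ)) atTop atTop :=
    Real.tendsto_log_atTop.comp tendsto_natCast_atTop_atTop
  have hlognr : ∀ n : ℕ, 0 < n → Real.log (n * r) = Real.log n + Real.log r := by
    intro n hn
    rw [Real.log_mul (by positivity) hr0.ne']
  have hJtop : Tendsto J atTop atTop := by
    apply tendsto_nat_ceil_atTop.comp
    refine Real.tendsto_log_atTop.comp ?_
    exact tendsto_natCast_atTop_atTop.atTop_mul_const hr0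
  have hJle : ∀ᶠ n : ℕ in atTop, (J n : ℝ) ≤ 2 * Real.log n := by
    filter_upwards [hlogn.eventually_ge_atTop (Real.log r + 1), eventually_gt_atTop 0] with n h1 h2
    have h3 : 0 ≤ Real.log (n * r) := by
      rw [hlognr n h2]
      have := Real.log_nonneg hr1
      linarith
    have h4 : (J n : ℝ) < Real.log (n * r) + 1 := Nat.ceil_lt_add_one h3
    rw [hlognr n h2] at h4
    linarith
  have hbig : ∀ᶠ n : ℕ in atTop, 64 * Real.log (J n) ≤ n * r := by
    have h0 : ∀ᶠ n : ℕ in atTop, ‖Real.log (n : ℝ)‖ ≤ 1 / 128 * ‖(n : ℝ)‖ :=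
      tendsto_natCast_atTop_atTop.eventually
        (Real.isLittleO_log_id_atTop.bound (show (0 : ℝ) < 1 / 128 by norm_num))
    filter_upwards [hJle, h0, hJtop.eventually_ge_atTop 1, eventually_ge_atTop 1] with n h1 h2 h3 h4
    have h3' : (1 : ℝ) ≤ J n := by exact_mod_cast h3
    have h4' : (1 : ℝ) ≤ n := by exact_mod_cast h4
    have h5 : Real.log (J n) ≤ J n := (Real.log_le_sub_one_of_pos (by linarith)).trans (by linarith)
    rw [Real.norm_natCast, Real.norm_eq_abs] at h2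
    have h6 := le_abs_self (Real.log (n : ℝ))
    have h7 : (n : ℝ) ≤ n * r := by nlinarith
    linarith
  set C1 : ℝ := 2 * 27 ^ d / (128 * C0 d (1 / 8)) with hC1
  have hlim : Tendsto (fun j : ℕ => ENNReal.ofReal (C1 * (64 * Real.log j / √j) ^ (d + 1)) +
      ENNReal.ofReal (2 / j)) atTop (𝓝 0) := by
    have h1 : Tendsto (fun j : ℕ => C1 * (64 * Real.log j / √j) ^ (d + 1)) atTop (𝓝 0) := by
      have h2 : Tendsto (fun j : ℕ => 64 * (Real.log (j : ℝ) / √(j : ℝ))) atTop (𝓝 (64 * 0)) :=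
        (tendsto_log_div_sqrt.comp tendsto_natCast_atTop_atTop).const_mul 64
      have h3 := (h2.pow (d + 1)).const_mul C1
      simp only [mul_zero, ne_eq, Nat.add_eq_zero_iff, one_ne_zero, and_false,
        not_false_eq_true, zero_pow] at h3
      refine h3.congr fun j => ?_
      rw [mul_div_assoc]
    have h2 : Tendsto (fun j : ℕ => (2 : ℝ) / j) atTop (𝓝 0) :=
      tendsto_const_div_atTop_nhds_zero_nat 2
    have h3 := (ENNReal.tendsto_ofReal h1).add (ENNReal.tendsto_ofReal h2)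
    simpa using h3
  refine ⟨r / (128 * C0 d (1 / 8) * (√2) ^ (d + 1)), by positivity, ?_⟩
  refine tendsto_of_tendsto_of_tendsto_of_le_of_le' tendsto_const_nhds (hlim.comp hJtop)
    (Eventually.of_forall fun _ => zero_le) ?_
  filter_upwards [hJle, hbig, hJtop.eventually_ge_atTop 3, eventually_gt_atTop 1,
    hlogn.eventually_gt_atTop 0] with n h1 h2 h3 h4 h5
  have hRX : (n * r : ℝ) = dist2 0 (n • x) := by rw [dist2_nsmul]
  refine le_trans (measure_mono ?_) (lower_prob hd h hRX (J n) h3 (Nat.le_ceil _) h2)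
  intro ω hω
  rw [Set.mem_ofPred_eq] at hω ⊢
  refine hω.trans_le ?_
  rw [rpow_half d h5]
  have h3' : (3 : ℝ) ≤ J n := by exact_mod_cast h3
  have h6 : √(J n : ℝ) ≤ √2 * √(Real.log n) := by
    rw [← Real.sqrt_mul (by norm_num)]
    exact Real.sqrt_le_sqrt h1
  have h7 : 0 < √(J n : ℝ) := Real.sqrt_pos.2 (by linarith)
  have h8 : 0 < √(Real.log n) := Real.sqrt_pos.2 h5
  have h9 : (√(J n : ℝ)) ^ (d + 1) ≤ (√2 * √(Real.log n)) ^ (d + 1) :=
    pow_le_pow_left₀ h7.le h6 _
  calc r / (128 * C0 d (1 / 8) * (√2) ^ (d + 1)) * (n * ((√(Real.log n)) ^ (d + 1))⁻¹) =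
      n * r / (128 * C0 d (1 / 8) * (√2 * √(Real.log n)) ^ (d + 1)) := by
        rw [mul_pow]; field_simp
    _ ≤ n * r / (128 * C0 d (1 / 8) * (√(J n : ℝ)) ^ (d + 1)) := by
        apply div_le_div_of_nonneg_left (by positivity) (by positivity)
        exact mul_le_mul_of_nonneg_left h9 (by positivity)

end Pool.Agent.Lib_helper7.FPP
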