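import Mathlib
import Pool.Agent.Lib_helper7.FPP.LowerLim

/-!
# Restricted passage times
-/

namespace Pool.Agent.Lib_helper7.FPP

open scoped ENNReal
open Real MeasureTheory ProbabilityTheory Filter Topology

section Gen

variable {V : Type*} {Ω : Type*}

/-- `s` is the list of the steps of a path from `y` to `z`. -/
def IsPath : V → V → List (V × V) → Prop
  | y, z, [] => y = z
  | y, z, a :: s => a.1 = y ∧ a.1 ≠ a.2 ∧ IsPath a.2 z s

theorem IsPath.append {x y z : V} {s t : List (V × V)} (hs : IsPath x y s) (ht : IsPath y z t) :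
    IsPath x z (s ++ t) := by
  induction s generalizing x with
  | nil => rw [IsPath] at hs; subst hs; exact ht
  | cons a s ih => exact ⟨hs.1, hs.2.1, ih hs.2.2⟩

theorem IsPath.ne {x y : V} {s : List (V × V)} (hs : IsPath x y s) : ∀ a ∈ s, a.1 ≠ a.2 := by
  induction s generalizing x with
  | nil => simp
  | cons a s ih =>
    intro b hb
    rcases List.mem_cons.1 hb with rfl | hb
    · exact hs.2.1
    · exact ih hs.2.2 b hb

/-- The passage time with the weights `w`, restricted to the edges of `A`. -/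
noncomputable def TA (w : Sym2 V → Ω → ℝ≥0∞) (A : Set (Sym2 V)) (y z : V) (ω : Ω) : ℝ≥0∞ :=
  ⨅ (s : List (V × V)) (_ : IsPath y z s ∧ ∀ a ∈ s, ed a ∈ A), (s.map (fun a => w (ed a) ω)).sum

variable {w : Sym2 V → Ω → ℝ≥0∞} {A B C : Set (Sym2 V)} {x y z : V} {ω : Ω}

theorem TA_le {s : List (V × V)} (h1 : IsPath y z s) (h2 : ∀ a ∈ s, ed a ∈ A) :
    TA w A y z ω ≤ (s.map (fun a => w (ed a) ω)).sum :=
  iInf₂_le_of_le s ⟨h1, h2⟩ le_rfl

theorem TA_self : TA w A y y ω = 0 := by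
  have := TA_le (w := w) (A := A) (ω := ω) (s := []) (y := y) (z := y) rfl (by simp)
  simpa using this

theorem TA_mono (h : A ⊆ B) : TA w B y z ω ≤ TA w A y z ω := by
  rw [TA, TA]
  refine le_iInf₂ fun s hs => ?_
  exact iInf₂_le_of_le s ⟨hs.1, fun a ha => h (hs.2 a ha)⟩ le_rfl

theorem TA_triangle (hA : A ⊆ C) (hB : B ⊆ C) :
    TA w C x z ω ≤ TA w A x y ω + TA w B y z ω := by
  rw [TA, TA, TA]
  simp only [ENNReal.iInf_add, ENNReal.add_iInf]
  refine le_iInf₂ fun t ht => le_iInf₂ fun s hs => ?_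
  refine iInf₂_le_of_le (s ++ t) ⟨hs.1.append ht.1, ?_⟩ ?_
  · intro a ha
    rcases List.mem_append.1 ha with h | h
    · exact hA (hs.2 a h)
    · exact hB (ht.2 a h)
  · rw [List.map_append, List.sum_append]

theorem TA_edge (hne : y ≠ z) (h : s(y, z) ∈ A) : TA w A y z ω ≤ w s(y, z) ω := by
  have := TA_le (w := w) (A := A) (ω := ω) (s := [(y, z)]) (y := y) (z := z)
    ⟨rfl, hne, rfl⟩ (by simpa [ed] using h)
  simpa [ed] using this

/-- Insert one edge. -/
theorem TA_insert {u v : V} (hne : u ≠ v) (hA : A ⊆ C) (hB : B ⊆ C) (he : s(u, v) ∈ C) :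
    TA w C x z ω ≤ TA w A x u ω + w s(u, v) ω + TA w B v z ω := by
  calc TA w C x z ω ≤ TA w C x v ω + TA w B v z ω := TA_triangle le_rfl hB
    _ ≤ (TA w A x u ω + TA w C u v ω) + TA w B v z ω := by
        gcongr
        exact TA_triangle hA le_rfl
    _ ≤ _ := by
        gcongr
        exact TA_edge hne he

/-- The `σ`-algebra of the edges of `S`. -/
@[reducible] def sig (ξ : Sym2 V → Ω → ℝ) (S : Set (Sym2 V)) : MeasurableSpace Ω :=
  ⨆ e ∈ {e : {e : Sym2 V // ¬ e.IsDiag} | e.1 ∈ S}, MeasurableSpace.comap (ξ e.1) inferInstance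

variable {ξ : Sym2 V → Ω → ℝ}

theorem sig_mono {S T : Set (Sym2 V)} (h : S ⊆ T) : sig ξ S ≤ sig ξ T := by
  refine iSup₂_le fun e he => ?_
  exact le_iSup₂_of_le e (h he) le_rfl

theorem measurable_sig {S : Set (Sym2 V)} {e : Sym2 V} (he : ¬ e.IsDiag) (hS : e ∈ S) :
    Measurable[sig ξ S] (ξ e) := by
  have h1 : MeasurableSpace.comap (ξ e) inferInstance ≤ sig ξ S :=
    le_iSup₂_of_le (f := fun (e : {e : Sym2 V // ¬ e.IsDiag}) _ =>
      MeasurableSpace.comap (ξ e.1) inferInstance) ⟨e, he⟩ hS le_rfl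
  exact Measurable.mono (comap_measurable _) h1 le_rfl

theorem measurable_TA [Countable V] {S : Set (Sym2 V)} (hAS : A ⊆ S)
    (hw : ∀ e ∈ S, ¬ e.IsDiag → Measurable[sig ξ S] (w e)) (y z : V) :
    Measurable[sig ξ S] (TA w A y z) := by
  have : TA w A y z = fun ω => ⨅ (s : List (V × V)) (_ : IsPath y z s ∧ ∀ a ∈ s, ed a ∈ A),
      (s.map (fun a => w (ed a) ω)).sum := rfl
  rw [this]
  refine Measurable.iInf fun s => Measurable.iInf fun hs => ?_
  have h1 : ∀ a ∈ s, ed a ∈ S ∧ ¬ (ed a).IsDiag := by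
    intro a ha
    refine ⟨hAS (hs.2 a ha), ?_⟩
    rw [ed, Sym2.mk_isDiag_iff]
    exact hs.1.ne a ha
  clear hs
  induction s with
  | nil => simp
  | cons a s ih =>
    simp only [List.map_cons, List.sum_cons]
    have h2 := h1 a List.mem_cons_self
    exact Measurable.add (hw _ h2.1 h2.2) (ih fun b hb => h1 b (List.mem_cons_of_mem _ hb))

variable [mΩ : MeasurableSpace Ω] {P : Measure Ω}

theorem sig_le (h : IsExpFamily P ξ) (S : Set (Sym2 V)) : sig ξ S ≤ mΩ :=
  iSup₂_le fun e _ => (h.meas e.1 e.2).comap_le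

theorem indep_sig (h : IsExpFamily P ξ) {S T : Set (Sym2 V)} (hST : Disjoint S T) :
    Indep (sig ξ S) (sig ξ T) P := by
  have h1 : iIndep (fun e : {e : Sym2 V // ¬ e.IsDiag} =>
      MeasurableSpace.comap (ξ e.1) inferInstance) P := h.indep
  refine indep_iSup_of_disjoint (m := fun e : {e : Sym2 V // ¬ e.IsDiag} =>
    MeasurableSpace.comap (ξ e.1) inferInstance) (S := {e | e.1 ∈ S}) (T := {e | e.1 ∈ T})
    (fun e => (h.meas e.1 e.2).comap_le) h1 ?_
  rw [Set.disjoint_left] at hST ⊢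
  intro e h1 h2
  exact hST h1 h2

theorem lintegral_mul_sig (h : IsExpFamily P ξ) {S T : Set (Sym2 V)} (hST : Disjoint S T)
    {f g : Ω → ℝ≥0∞} (hf : Measurable[sig ξ S] f) (hg : Measurable[sig ξ T] g) :
    ∫⁻ ω, f ω * g ω ∂P = (∫⁻ ω, f ω ∂P) * ∫⁻ ω, g ω ∂P :=
  lintegral_mul_eq_lintegral_mul_lintegral_of_independent_measurableSpace (sig_le h S)
    (sig_le h T) (indep_sig h hST) hf hg

end Gen

end Pool.Agent.Lib_helper7.FPP
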