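import Mathlib
import Pool.Agent.Lib_helper7.FPP.Path

/-!
# Insertion of one long edge
-/

namespace Pool.Agent.Lib_helper7.FPP

open scoped ENNReal
open Real MeasureTheory ProbabilityTheory Filter Topology

theorem expMeasure_Iic_eq {s : ℝ} (hs : 0 ≤ s) :
    expMeasure 1 (Set.Iic s) = ENNReal.ofReal (1 - exp (-s)) := by
  have : IsProbabilityMeasure (expMeasure 1) := isProbabilityMeasure_expMeasure one_pos
  rw [← ofReal_cdf (expMeasure 1) s, cdf_expMeasure_eq one_pos, if_pos hs, one_mul]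

section Gen

variable {V : Type*} [Countable V] {Ω : Type*} [mΩ : MeasurableSpace Ω] {P : Measure Ω}
  {ξ : Sym2 V → Ω → ℝ}

/-- The weights `ξ_e κ_e` with values in `[0, ∞]`. -/
noncomputable def wt (ξ : Sym2 V → Ω → ℝ) (κ : Sym2 V → ℝ) (e : Sym2 V) (ω : Ω) : ℝ≥0∞ :=
  ENNReal.ofReal (ξ e ω * κ e)

omit [Countable V] mΩ in
theorem measurable_wt (κ : Sym2 V → ℝ) {S : Set (Sym2 V)} {e : Sym2 V} (hS : e ∈ S)
    (he : ¬ e.IsDiag) : Measurable[sig ξ S] (wt ξ κ e) :=
  Measurable.ennreal_ofReal ((measurable_sig he hS).mul_const _)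

omit mΩ in
theorem measurable_TA_wt (κ : Sym2 V → ℝ) {A S : Set (Sym2 V)} (hAS : A ⊆ S) (y z : V) :
    Measurable[sig ξ S] (TA (wt ξ κ) A y z) :=
  measurable_TA hAS (fun _ h1 h2 => measurable_wt κ h1 h2) y z

theorem measurable_TA_wt' (h : IsExpFamily P ξ) (κ : Sym2 V → ℝ) (A : Set (Sym2 V)) (y z : V) :
    Measurable (TA (wt ξ κ) A y z) :=
  (measurable_TA_wt κ (le_refl A) y z).mono (sig_le h _) le_rfl

omit [Countable V] in
theorem prob_wt_le (h : IsExpFamily P ξ) {κ : Sym2 V → ℝ} {e : Sym2 V} (he : ¬ e.IsDiag)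
    (hκ : 0 < κ e) {t : ℝ} (ht : 0 ≤ t) :
    P {ω | wt ξ κ e ω ≤ ENNReal.ofReal t} = ENNReal.ofReal (1 - exp (-(t / κ e))) := by
  have h1 : {ω | wt ξ κ e ω ≤ ENNReal.ofReal t} = ξ e ⁻¹' Set.Iic (t / κ e) := by
    ext ω
    simp only [wt, Set.mem_ofPred_eq, Set.mem_preimage, Set.mem_Iic]
    rw [ENNReal.ofReal_le_ofReal_iff ht, le_div_iff₀ hκ]
  rw [h1, ← Measure.map_apply (h.meas e he) measurableSet_Iic, h.law e he,
    expMeasure_Iic_eq (by positivity)]

open Classical in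
/-- The cost of the strategy that uses the first cheap edge of the list. -/
noncomputable def strat (w : Sym2 V → Ω → ℝ≥0∞) (A : Set (Sym2 V)) (y z : V) (t : ℝ≥0∞) :
    List (V × V) → Ω → ℝ≥0∞
  | [], ω => TA w A y z ω
  | g :: G, ω => if w (ed g) ω ≤ t then TA w A y g.1 ω + t + TA w A g.2 z ω
      else strat w A y z t G ω

omit [Countable V] mΩ in
theorem TA_le_strat {w : Sym2 V → Ω → ℝ≥0∞} {A C : Set (Sym2 V)} (hAC : A ⊆ C) {y z : V}
    {t : ℝ≥0∞} {G : List (V × V)} (hG : ∀ g ∈ G, g.1 ≠ g.2 ∧ ed g ∈ C) (ω : Ω) :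
    TA w C y z ω ≤ strat w A y z t G ω := by
  induction G with
  | nil => exact TA_mono hAC
  | cons g G ih =>
    rw [strat]
    split_ifs with h
    · have h1 := hG g List.mem_cons_self
      refine (TA_insert (u := g.1) (v := g.2) h1.1 hAC hAC h1.2).trans ?_
      gcongr
      exact h
    · exact ih fun g hg => hG g (List.mem_cons_of_mem _ hg)

omit mΩ in
theorem measurable_strat (κ : Sym2 V → ℝ) {A S : Set (Sym2 V)} (hAS : A ⊆ S) (y z : V)
    (t : ℝ≥0∞) {G : List (V × V)} (hG : ∀ g ∈ G, g.1 ≠ g.2 ∧ ed g ∈ S) :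
    Measurable[sig ξ S] (strat (wt ξ κ) A y z t G) := by
  classical
  induction G with
  | nil =>
    have : strat (wt ξ κ) A y z t [] = TA (wt ξ κ) A y z := by
      funext ω; rfl
    rw [this]
    exact measurable_TA_wt κ hAS y z
  | cons g G ih =>
    have : strat (wt ξ κ) A y z t (g :: G) = fun ω => if wt ξ κ (ed g) ω ≤ t then
        TA (wt ξ κ) A y g.1 ω + t + TA (wt ξ κ) A g.2 z ω
        else strat (wt ξ κ) A y z t G ω := by
      funext ω
      rw [strat]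
    rw [this]
    have h1 := hG g List.mem_cons_self
    have hd : ¬ (ed g).IsDiag := by rw [ed, Sym2.mk_isDiag_iff]; exact h1.1
    have hw := measurable_wt (ξ := ξ) κ h1.2 hd
    refine Measurable.ite ?_ ?_ (ih fun g hg => hG g (List.mem_cons_of_mem _ hg))
    · exact hw measurableSet_Iic
    · exact Measurable.add (Measurable.add (measurable_TA_wt κ hAS y _)
        (@measurable_const _ _ _ (sig ξ S) t)) (measurable_TA_wt κ hAS _ z)

theorem lintegral_strat_le (h : IsExpFamily P ξ) [IsProbabilityMeasure P] {κ : Sym2 V → ℝ}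
    (hκ : ∀ e, ¬ e.IsDiag → 0 < κ e) {A : Set (Sym2 V)} {y z : V} {t b0 b1 : ℝ} (ht : 0 ≤ t)
    (hb1 : 0 ≤ b1) (hb : b1 ≤ b0) {G : List (V × V)} (hn : (G.map ed).Nodup)
    (hG : ∀ g ∈ G, g.1 ≠ g.2 ∧ ed g ∉ A ∧ ∫⁻ ω, TA (wt ξ κ) A y g.1 ω ∂P + ENNReal.ofReal t +
      ∫⁻ ω, TA (wt ξ κ) A g.2 z ω ∂P ≤ ENNReal.ofReal b1)
    (h0 : ∫⁻ ω, TA (wt ξ κ) A y z ω ∂P ≤ ENNReal.ofReal b0) :
    ∫⁻ ω, strat (wt ξ κ) A y z (ENNReal.ofReal t) G ω ∂P ≤
      ENNReal.ofReal (b1 + (b0 - b1) * exp (-(G.map (fun g => t / κ (ed g))).sum)) := by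
  classical
  induction G with
  | nil =>
    simp only [List.map_nil, List.sum_nil, neg_zero, exp_zero, mul_one]
    refine h0.trans (le_of_eq ?_)
    congr 1; ring
  | cons g G ih =>
    rw [List.map_cons, List.nodup_cons] at hn
    have hg := hG g List.mem_cons_self
    have hd : ¬ (ed g).IsDiag := by rw [ed, Sym2.mk_isDiag_iff]; exact hg.1
    have ih := ih hn.2 (fun g hg => hG g (List.mem_cons_of_mem _ hg))
    set S : Set (Sym2 V) := A ∪ {e | e ∈ G.map ed} with hS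
    have hdisj : Disjoint ({ed g} : Set (Sym2 V)) S := by
      rw [Set.disjoint_singleton_left, hS]
      rintro (h1 | h1)
      · exact hg.2.1 h1
      · exact hn.1 h1
    set B : Set Ω := {ω | wt ξ κ (ed g) ω ≤ ENNReal.ofReal t} with hB
    set i1 : Ω → ℝ≥0∞ := fun ω => if wt ξ κ (ed g) ω ≤ ENNReal.ofReal t then 1 else 0 with hi1
    set i2 : Ω → ℝ≥0∞ := fun ω => if wt ξ κ (ed g) ω ≤ ENNReal.ofReal t then 0 else 1 with hi2
    have hwm := measurable_wt (ξ := ξ) κ (Set.mem_singleton (ed g)) hd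
    have hBm' : MeasurableSet[sig ξ {ed g}] B := hwm measurableSet_Iic
    have hBm : MeasurableSet B := sig_le h _ _ hBm'
    have hi1m : Measurable[sig ξ {ed g}] i1 :=
      Measurable.ite hBm' (@measurable_const _ _ _ (sig ξ {ed g}) _)
        (@measurable_const _ _ _ (sig ξ {ed g}) _)
    have hi2m : Measurable[sig ξ {ed g}] i2 :=
      Measurable.ite hBm' (@measurable_const _ _ _ (sig ξ {ed g}) _)
        (@measurable_const _ _ _ (sig ξ {ed g}) _)
    have hPB : P B = ENNReal.ofReal (1 - exp (-(t / κ (ed g)))) := prob_wt_le h hd (hκ _ hd) ht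
    have hq1 : exp (-(t / κ (ed g))) ≤ 1 := by
      rw [exp_le_one_iff, neg_nonpos]
      exact div_nonneg ht (hκ _ hd).le
    have hi1P : ∫⁻ ω, i1 ω ∂P = ENNReal.ofReal (1 - exp (-(t / κ (ed g)))) := by
      rw [← hPB, ← lintegral_indicator_one hBm]
      apply lintegral_congr
      intro ω
      simp only [hi1, Set.indicator_apply, hB, Set.mem_ofPred_eq, Pi.one_apply]
    have hi2P : ∫⁻ ω, i2 ω ∂P = ENNReal.ofReal (exp (-(t / κ (ed g)))) := by
      have : ∫⁻ ω, i2 ω ∂P = P Bᶜ := by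
        rw [← lintegral_indicator_one hBm.compl]
        apply lintegral_congr
        intro ω
        simp only [hi2, Set.indicator_apply, hB, Set.mem_compl_iff, Set.mem_ofPred_eq, Pi.one_apply]
        split_ifs <;> rfl
      rw [this, measure_compl hBm (measure_ne_top _ _), measure_univ, hPB, ← ENNReal.ofReal_one,
        ← ENNReal.ofReal_sub _ (by linarith)]
      congr 1
      ring
    set F1 : Ω → ℝ≥0∞ := fun ω => TA (wt ξ κ) A y g.1 ω + ENNReal.ofReal t +
      TA (wt ξ κ) A g.2 z ω with hF1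
    set F2 : Ω → ℝ≥0∞ := strat (wt ξ κ) A y z (ENNReal.ofReal t) G with hF2
    have hAS : A ⊆ S := Set.subset_union_left
    have hF1m : Measurable[sig ξ S] F1 :=
      Measurable.add (Measurable.add (measurable_TA_wt κ hAS y _)
        (@measurable_const _ _ _ (sig ξ S) _)) (measurable_TA_wt κ hAS _ z)
    have hF2m : Measurable[sig ξ S] F2 := by
      apply measurable_strat κ hAS
      intro g' hg'
      refine ⟨(hG g' (List.mem_cons_of_mem _ hg')).1, Or.inr ?_⟩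
      exact List.mem_map_of_mem hg'
    have hF1P : ∫⁻ ω, F1 ω ∂P ≤ ENNReal.ofReal b1 := by
      rw [hF1, lintegral_add_right _ (measurable_TA_wt' h κ A _ z),
        lintegral_add_right _ measurable_const, lintegral_const, measure_univ, mul_one]
      exact hg.2.2
    have e1 : ∀ ω, strat (wt ξ κ) A y z (ENNReal.ofReal t) (g :: G) ω =
        i1 ω * F1 ω + i2 ω * F2 ω := by
      intro ω
      rw [strat]
      simp only [hi1, hi2]
      split_ifs with h1
      · simp [hF1]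
      · simp [hF2]
    rw [lintegral_congr e1, lintegral_add_left]
    · rw [lintegral_mul_sig h hdisj hi1m hF1m, lintegral_mul_sig h hdisj hi2m hF2m, hi1P, hi2P]
      refine (add_le_add (mul_le_mul' le_rfl hF1P) (mul_le_mul' le_rfl ih)).trans ?_
      have hbb : 0 ≤ b0 - b1 := sub_nonneg.2 hb
      rw [← ENNReal.ofReal_mul (by linarith), ← ENNReal.ofReal_mul (by positivity),
        ← ENNReal.ofReal_add (mul_nonneg (by linarith) hb1) (by positivity)]
      apply ENNReal.ofReal_le_ofReal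
      rw [List.map_cons, List.sum_cons, neg_add, exp_add]
      apply le_of_eq
      ring
    · exact (hi1m.mono (sig_le h _) le_rfl).mul (hF1m.mono (sig_le h _) le_rfl)

/-- The one-edge improvement. -/
theorem lintegral_TA_le (h : IsExpFamily P ξ) [IsProbabilityMeasure P] {κ : Sym2 V → ℝ}
    (hκ : ∀ e, ¬ e.IsDiag → 0 < κ e) {A C : Set (Sym2 V)} (hAC : A ⊆ C) {y z : V} {t b0 b1 : ℝ}
    (ht : 0 ≤ t) (hb1 : 0 ≤ b1) (hb : b1 ≤ b0) {G : List (V × V)} (hn : (G.map ed).Nodup)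
    (hG : ∀ g ∈ G, g.1 ≠ g.2 ∧ ed g ∈ C ∧ ed g ∉ A ∧ ∫⁻ ω, TA (wt ξ κ) A y g.1 ω ∂P +
      ENNReal.ofReal t + ∫⁻ ω, TA (wt ξ κ) A g.2 z ω ∂P ≤ ENNReal.ofReal b1)
    (h0 : ∫⁻ ω, TA (wt ξ κ) A y z ω ∂P ≤ ENNReal.ofReal b0) :
    ∫⁻ ω, TA (wt ξ κ) C y z ω ∂P ≤
      ENNReal.ofReal (b1 + (b0 - b1) * exp (-(G.map (fun g => t / κ (ed g))).sum)) :=
  (lintegral_mono (TA_le_strat (t := ENNReal.ofReal t) hAC
    (fun g hg => ⟨(hG g hg).1, (hG g hg).2.1⟩))).trans
    (lintegral_strat_le h hκ ht hb1 hb hn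
      (fun g hg => ⟨(hG g hg).1, (hG g hg).2.2.1, (hG g hg).2.2.2⟩) h0)

end Gen

end Pool.Agent.Lib_helper7.FPP
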