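import Mathlib
import Pool.Agent.Lib_helper7.FPP.OneEdge

/-!
# The candidate edges near a segment
-/

namespace Pool.Agent.Lib_helper7.FPP

open scoped ENNReal RealInnerProductSpace
open Real

variable {d : ℕ}

theorem norm_le_of_coord {v : EuclideanSpace ℝ (Fin d)} {c : ℝ} (h : ∀ i, |v i| ≤ c) :
    ‖v‖ ≤ d * c := by
  rw [EuclideanSpace.norm_eq]
  have h0 : (0 : ℝ) ≤ ∑ i, ‖v i‖ := Finset.sum_nonneg fun _ _ => norm_nonneg _
  have h1 : √(∑ i, ‖v i‖ ^ 2) ≤ ∑ i, ‖v i‖ := by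
    rw [Real.sqrt_le_left h0]
    exact Finset.sum_sq_le_sq_sum_of_nonneg (fun _ _ => norm_nonneg _)
  refine h1.trans ?_
  refine (Finset.sum_le_sum (fun i _ => (Real.norm_eq_abs (v i)).trans_le (h i))).trans ?_
  rw [Finset.sum_const, Finset.card_univ, Fintype.card_fin, nsmul_eq_mul]

theorem norm_quad {e b : EuclideanSpace ℝ (Fin d)} (he : ‖e‖ = 1) {a : ℝ} (ha : 0 < a) :
    ‖a • e + b‖ ≤ a + ⟪e, b⟫ + ‖b‖ ^ 2 / (2 * a) := by
  set t : ℝ := ⟪e, b⟫ with ht
  set n := ‖b‖ with hn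
  have hn0 : 0 ≤ n := norm_nonneg _
  have hCS : |t| ≤ n := by
    have := abs_real_inner_le_norm e b
    rwa [he, one_mul] at this
  have h1 : 0 ≤ a + t + n ^ 2 / (2 * a) := by
    have h2 : a + t + n ^ 2 / (2 * a) = (2 * a ^ 2 + 2 * a * t + n ^ 2) / (2 * a) := by
      field_simp
    rw [h2]
    apply div_nonneg _ (by positivity)
    have := (abs_le.1 hCS).1
    nlinarith [sq_nonneg (a - n), sq_nonneg a]
  apply le_of_sq_le_sq _ h1
  have h3 : ‖a • e + b‖ ^ 2 = a ^ 2 + 2 * (a * t) + n ^ 2 := by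
    rw [norm_add_sq_real, norm_smul, he, mul_one, Real.norm_eq_abs, sq_abs,
      real_inner_smul_left]
  rw [h3]
  have h4 : (a + t + n ^ 2 / (2 * a)) ^ 2 =
      a ^ 2 + 2 * (a * t) + n ^ 2 + (t + n ^ 2 / (2 * a)) ^ 2 := by
    field_simp
    ring
  rw [h4]
  nlinarith [sq_nonneg (t + n ^ 2 / (2 * a))]

/-- The metric estimates for one candidate edge. -/
theorem cand_metric {e w w' : EuclideanSpace ℝ (Fin d)} (he : ‖e‖ = 1) {D r h l : ℝ}
    (hr : 0 < r) (hrD : 12 * r ≤ D) (hl1 : 1 / 3 ≤ l) (hl2 : l ≤ 2 / 3) (hw : ‖w‖ ≤ h)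
    (hh2 : h ^ 2 ≤ r * D / 100) (hh : h ≤ D / 30) (hw' : ‖w'‖ ≤ r / 8) :
    ‖(l * D) • e + w‖ + ‖((1 - l) * D - r) • e - (w + w')‖ ≤ D - 3 * r / 4 ∧
    D / 8 ≤ ‖(l * D) • e + w‖ ∧ D / 8 ≤ ‖((1 - l) * D - r) • e - (w + w')‖ ∧
    ‖((1 - l) * D - r) • e - (w + w')‖ ≤ 4 / 5 * D := by
  have hD : 0 < D := by linarith
  have hw0 := norm_nonneg w
  have hw0' := norm_nonneg w'
  have ha1 : D / 3 ≤ l * D := by nlinarith
  have ha1' : l * D ≤ 2 / 3 * D := by nlinarith
  have ha2 : D / 4 ≤ (1 - l) * D - r := by nlinarith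
  have ha2' : (1 - l) * D - r ≤ 2 / 3 * D := by nlinarith
  have hww : ‖w + w'‖ ≤ h + r / 8 := (norm_add_le _ _).trans (add_le_add hw hw')
  have hww0 := norm_nonneg (w + w')
  have q1 := norm_quad (b := w) he (show 0 < l * D by linarith)
  have q2 := norm_quad (b := -(w + w')) he (show 0 < (1 - l) * D - r by linarith)
  rw [norm_neg, inner_neg_right, inner_add_right, ← sub_eq_add_neg] at q2
  have hin : -(r / 8) ≤ ⟪e, w'⟫ := by
    have := abs_real_inner_le_norm e w'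
    rw [he, one_mul] at this
    have := (abs_le.1 this).1
    linarith
  have n1 : ‖w‖ ^ 2 / (2 * (l * D)) ≤ 3 / 200 * r := by
    rw [div_le_iff₀ (by positivity)]
    have : ‖w‖ ^ 2 ≤ h ^ 2 := pow_le_pow_left₀ hw0 hw 2
    nlinarith
  have n2 : ‖w + w'‖ ^ 2 / (2 * ((1 - l) * D - r)) ≤ 5 / 100 * r := by
    rw [div_le_iff₀ (by linarith)]
    have h1 : ‖w + w'‖ ^ 2 ≤ (h + r / 8) ^ 2 := pow_le_pow_left₀ hww0 hww 2
    have h2 : (h + r / 8) ^ 2 ≤ 2 * h ^ 2 + 2 * (r / 8) ^ 2 := by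
      nlinarith [sq_nonneg (h - r / 8)]
    have h3 : (r / 8) ^ 2 * 2 ≤ r * D / 384 := by nlinarith
    nlinarith
  have hsm1 : ‖(l * D) • e‖ = l * D := by
    rw [norm_smul, he, mul_one, Real.norm_of_nonneg (by linarith)]
  have hsm2 : ‖((1 - l) * D - r) • e‖ = (1 - l) * D - r := by
    rw [norm_smul, he, mul_one, Real.norm_of_nonneg (by linarith)]
  refine ⟨?_, ?_, ?_, ?_⟩
  · linarith
  · have h1 : ‖(l * D) • e‖ ≤ ‖(l * D) • e + w‖ + ‖w‖ := by
      have := norm_sub_le ((l * D) • e + w) w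
      rwa [add_sub_cancel_right] at this
    rw [hsm1] at h1
    linarith
  · have h1 : ‖((1 - l) * D - r) • e‖ ≤ ‖((1 - l) * D - r) • e - (w + w')‖ + ‖w + w'‖ := by
      have := norm_add_le (((1 - l) * D - r) • e - (w + w')) (w + w')
      rwa [sub_add_cancel] at this
    rw [hsm2] at h1
    linarith
  · have h1 := norm_sub_le (((1 - l) * D - r) • e) (w + w')
    rw [hsm2] at h1
    linarith

/-- The constant of the number of candidate edges. -/
noncomputable def cG (d : ℕ) : ℝ := (1 / (6 * d)) * (1 / (20 * d)) ^ (d - 1) * (1 / (16 * d)) ^ d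

theorem cG_pos (hd : 1 ≤ d) : 0 < cG d := by
  have : (0 : ℝ) < d := by exact_mod_cast hd
  rw [cG]; positivity

/-- The set of the candidate edges. -/
theorem candidates (hd : 1 ≤ d) {y z : Fin d → ℤ} {r s : ℝ} (hs0 : 0 < s) (hs : 12 ≤ s ^ 2)
    (hr : 20 * d ≤ r) (hD : r * s ^ 2 ≤ dist2 y z) :
    ∃ G : Finset ((Fin d → ℤ) × (Fin d → ℤ)), Set.InjOn ed (G : Set ((Fin d → ℤ) × (Fin d → ℤ))) ∧
      (∀ g ∈ G, dist2 y g.1 + dist2 g.2 z ≤ dist2 y z - 3 * r / 4 ∧
        dist2 y z / 8 ≤ dist2 y g.1 ∧ dist2 y z / 8 ≤ dist2 g.2 z ∧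
        dist2 g.2 z ≤ 4 / 5 * dist2 y z ∧ r / 2 ≤ dist2 g.1 g.2 ∧ dist2 g.1 g.2 ≤ 3 * r / 2) ∧
      cG d * r ^ (2 * d) * s ^ (d + 1) ≤ G.card := by
  classical
  have hd0 : (1 : ℝ) ≤ d := by exact_mod_cast hd
  have hr20 : 20 ≤ r := by nlinarith
  have hr0 : 0 < r := by linarith
  have hs3 : 3 ≤ s := by nlinarith
  set D := dist2 y z with hDdef
  have hrD : 12 * r ≤ D := by nlinarith
  have hD0 : 0 < D := by linarith
  set X : EuclideanSpace ℝ (Fin d) := emb z - emb y with hX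
  have hXn : ‖X‖ = D := rfl
  set e : EuclideanSpace ℝ (Fin d) := D⁻¹ • X with he_def
  have he : ‖e‖ = 1 := by
    rw [he_def, norm_smul, hXn, norm_inv, Real.norm_of_nonneg hD0.le, inv_mul_cancel₀ hD0.ne']
  have hXe : X = D • e := by
    rw [he_def, smul_smul, mul_inv_cancel₀ hD0.ne', one_smul]
  have hXi : ∀ i, X i = ((z i - y i : ℤ) : ℝ) := by
    intro i; rw [hX]; simp
  have hXei : ∀ i, X i = D * e i := by
    intro i
    have := congrArg (fun v : EuclideanSpace ℝ (Fin d) => v i) hXe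
    simpa using this
  have : Nonempty (Fin d) := ⟨⟨0, hd⟩⟩
  obtain ⟨i₀, hi₀⟩ := Finite.exists_max (fun i => |z i - y i|)
  set N : ℕ := (z i₀ - y i₀).natAbs with hN
  have hNr : (N : ℝ) = |((z i₀ - y i₀ : ℤ) : ℝ)| := by
    rw [hN, Nat.cast_natAbs]; push_cast; rfl
  have hND : D ≤ d * N := by
    rw [← hXn]
    apply norm_le_of_coord
    intro i
    rw [hXi, hNr, ← Int.cast_abs, ← Int.cast_abs]
    exact Int.cast_le.2 (hi₀ i)
  have hN6 : (6 : ℝ) ≤ N := by
    have h1 : 12 * (20 * (d : ℝ)) ≤ d * N := by linarith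
    nlinarith
  have hN0 : (0 : ℝ) < N := by linarith
  -- the parameters
  set b : ℕ := ⌊r * s / (20 * d)⌋₊ with hb
  set b' : ℕ := ⌊r / (16 * d)⌋₊ with hb'
  have hrs : 20 * d ≤ r * s := by nlinarith
  have hb1 : (d : ℝ) * (b + 1) ≤ r * s / 10 := by
    have h1 : (b : ℝ) ≤ r * s / (20 * d) := Nat.floor_le (by positivity)
    have h2 : (d : ℝ) * (r * s / (20 * d)) = r * s / 20 := by field_simp
    nlinarith
  have hb2 : r * s / (20 * d) ≤ 2 * b + 1 := by
    have h1 := Nat.lt_floor_add_one (r * s / (20 * d))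
    rw [← hb] at h1
    have h2 : (0 : ℝ) ≤ b := Nat.cast_nonneg _
    linarith
  have hb1' : (d : ℝ) * (b' + 1) ≤ r / 8 := by
    have h1 : (b' : ℝ) ≤ r / (16 * d) := Nat.floor_le (by positivity)
    have h2 : (d : ℝ) * (r / (16 * d)) = r / 16 := by field_simp
    nlinarith
  have hb2' : r / (16 * d) ≤ 2 * b' + 1 := by
    have h1 := Nat.lt_floor_add_one (r / (16 * d))
    rw [← hb'] at h1
    have h2 : (0 : ℝ) ≤ b' := Nat.cast_nonneg _
    linarith
  set Ms : Finset ℕ := Finset.Icc ⌈(N : ℝ) / 3⌉₊ ⌊2 * (N : ℝ) / 3⌋₊ with hMs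
  set Os : Finset (Fin d → ℤ) := Fintype.piFinset (fun i => if i = i₀ then {0} else
    Finset.Icc (-(b : ℤ)) b) with hOs
  set Os' : Finset (Fin d → ℤ) := Fintype.piFinset (fun _ => Finset.Icc (-(b' : ℤ)) b') with hOs'
  set U : ℕ → (Fin d → ℤ) → (Fin d → ℤ) := fun m o i =>
    y i + ⌊(m : ℝ) / N * ((z i - y i : ℤ) : ℝ)⌋ + o i with hU
  set Φ : ℕ × ((Fin d → ℤ) × (Fin d → ℤ)) → (Fin d → ℤ) × (Fin d → ℤ) := fun p =>
    (U p.1 p.2.1, fun i => U p.1 p.2.1 i + ⌊r * e i⌋ + p.2.2 i) with hΦ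
  set I : Finset (ℕ × ((Fin d → ℤ) × (Fin d → ℤ))) := Ms ×ˢ (Os ×ˢ Os') with hI
  -- the estimates for the displacements
  have hest : ∀ p ∈ I, ∃ l : ℝ, ∃ w w' : EuclideanSpace ℝ (Fin d), 1 / 3 ≤ l ∧ l ≤ 2 / 3 ∧
      ‖w‖ ≤ r * s / 10 ∧ ‖w'‖ ≤ r / 8 ∧ emb (Φ p).1 - emb y = (l * D) • e + w ∧
      emb (Φ p).2 - emb (Φ p).1 = r • e + w' := by
    rintro ⟨m, o, o'⟩ hp
    simp only [hI, Finset.mem_product] at hp
    obtain ⟨hm, ho, ho'⟩ := hp
    rw [hMs, Finset.mem_Icc] at hm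
    have hm1 : (N : ℝ) / 3 ≤ m := (Nat.le_ceil _).trans (by exact_mod_cast hm.1)
    have hm2 : (m : ℝ) ≤ 2 * N / 3 := by
      have h1 : ((⌊2 * (N : ℝ) / 3⌋₊ : ℕ) : ℝ) ≤ 2 * N / 3 := Nat.floor_le (by positivity)
      exact le_trans (by exact_mod_cast hm.2) h1
    refine ⟨m / N, emb (Φ (m, o, o')).1 - emb y - ((m / N : ℝ) * D) • e,
      emb (Φ (m, o, o')).2 - emb (Φ (m, o, o')).1 - r • e, ?_, ?_, ?_, ?_, by abel, by abel⟩
    · rw [le_div_iff₀ hN0]; linarith
    · rw [div_le_iff₀ hN0]; linarith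
    · refine (norm_le_of_coord (c := b + 1) fun i => ?_).trans hb1
      have e1 : (emb (Φ (m, o, o')).1 - emb y - ((m / N : ℝ) * D) • e) i =
          (o i : ℝ) + (⌊(m : ℝ) / N * ((z i - y i : ℤ) : ℝ)⌋ -
            (m : ℝ) / N * ((z i - y i : ℤ) : ℝ)) := by
        have e2 : (((m / N : ℝ) * D) • e) i = (m : ℝ) / N * ((z i - y i : ℤ) : ℝ) := by
          rw [← hXi, hXei, PiLp.smul_apply, smul_eq_mul]
          ring
        rw [PiLp.sub_apply, PiLp.sub_apply, e2, emb_apply, emb_apply]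
        simp only [hΦ, hU]
        push_cast
        ring
      rw [e1]
      have h1 : |(o i : ℝ)| ≤ b := by
        rw [hOs, Fintype.mem_piFinset] at ho
        have h2 := ho i
        split_ifs at h2 with h3
        · rw [Finset.mem_singleton] at h2
          rw [h2]; simp
        · rw [Finset.mem_Icc] at h2
          rw [abs_le]
          exact ⟨by exact_mod_cast h2.1, by exact_mod_cast h2.2⟩
      have h2 : |(⌊(m : ℝ) / N * ((z i - y i : ℤ) : ℝ)⌋ : ℝ) -
            (m : ℝ) / N * ((z i - y i : ℤ) : ℝ)| ≤ 1 := by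
        rw [abs_le]
        constructor
        · linarith [Int.lt_floor_add_one ((m : ℝ) / N * ((z i - y i : ℤ) : ℝ))]
        · linarith [Int.floor_le ((m : ℝ) / N * ((z i - y i : ℤ) : ℝ))]
      exact (abs_add_le _ _).trans (add_le_add h1 h2)
    · refine (norm_le_of_coord (c := b' + 1) fun i => ?_).trans hb1'
      have e1 : (emb (Φ (m, o, o')).2 - emb (Φ (m, o, o')).1 - r • e) i =
          (o' i : ℝ) + (⌊r * e i⌋ - r * e i) := by
        rw [PiLp.sub_apply, PiLp.sub_apply, PiLp.smul_apply, smul_eq_mul, emb_apply, emb_apply]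
        simp only [hΦ]
        push_cast
        ring
      rw [e1]
      have h1 : |(o' i : ℝ)| ≤ b' := by
        rw [hOs', Fintype.mem_piFinset] at ho'
        have h2 := ho' i
        rw [Finset.mem_Icc] at h2
        rw [abs_le]
        exact ⟨by exact_mod_cast h2.1, by exact_mod_cast h2.2⟩
      have h2 : |(⌊r * e i⌋ : ℝ) - r * e i| ≤ 1 := by
        rw [abs_le]
        constructor
        · linarith [Int.lt_floor_add_one (r * e i)]
        · linarith [Int.floor_le (r * e i)]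
      exact (abs_add_le _ _).trans (add_le_add h1 h2)
  -- the direction of the candidate edges
  have hdir : ∀ p ∈ I, 0 < (⟪e, emb (Φ p).2 - emb (Φ p).1⟫ : ℝ) := by
    intro p hp
    obtain ⟨l, w, w', -, -, -, hw', -, h2⟩ := hest p hp
    rw [h2, inner_add_right, real_inner_smul_right, real_inner_self_eq_norm_sq, he]
    have := abs_real_inner_le_norm e w'
    rw [he, one_mul] at this
    have := (abs_le.1 this).1
    linarith
  -- injectivity
  have hinj : Set.InjOn Φ I := by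
    rintro ⟨m, o, o'⟩ hp ⟨m₂, o₂, o₂'⟩ hp₂ heq
    have hp : (m, o, o') ∈ I := hp
    have hp₂ : (m₂, o₂, o₂') ∈ I := hp₂
    simp only [hI, Finset.mem_product] at hp hp₂
    have ho0 : o i₀ = 0 := by
      have := hp.2.1
      rw [hOs, Fintype.mem_piFinset] at this
      simpa using this i₀
    have ho20 : o₂ i₀ = 0 := by
      have := hp₂.2.1
      rw [hOs, Fintype.mem_piFinset] at this
      simpa using this i₀
    have hu : U m o = U m₂ o₂ := congrArg Prod.fst heq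
    have hv : (fun i => U m o i + ⌊r * e i⌋ + o' i) = fun i => U m₂ o₂ i + ⌊r * e i⌋ + o₂' i :=
      congrArg Prod.snd heq
    have hfl : ∀ k : ℕ, ⌊(k : ℝ) / N * ((z i₀ - y i₀ : ℤ) : ℝ)⌋ =
        k * (z i₀ - y i₀).sign := by
      intro k
      have h1 : (k : ℝ) / N * ((z i₀ - y i₀ : ℤ) : ℝ) = ((k * (z i₀ - y i₀).sign : ℤ) : ℝ) := by
        have h2 : ((z i₀ - y i₀ : ℤ) : ℝ) = ((z i₀ - y i₀).sign : ℝ) * N := by
          rw [hNr, ← Int.cast_abs, ← Int.cast_mul, Int.sign_mul_abs]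
        rw [h2]
        push_cast
        field_simp
      rw [h1, Int.floor_intCast]
    have hm : m = m₂ := by
      have h1 := congrFun hu i₀
      simp only [hU, hfl, ho0, ho20, add_zero] at h1
      have h2 : (z i₀ - y i₀) ≠ 0 := by
        intro h3
        rw [hN, h3] at hN0
        simp at hN0
      have h3 : (z i₀ - y i₀).sign ≠ 0 := by rwa [ne_eq, Int.sign_eq_zero_iff_zero]
      have h4 := mul_right_cancel₀ h3 (add_left_cancel h1)
      exact_mod_cast h4
    subst hm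
    have ho : o = o₂ := by
      funext i
      have h1 := congrFun hu i
      simp only [hU] at h1
      exact add_left_cancel h1
    subst ho
    have ho' : o' = o₂' := by
      funext i
      have h1 := congrFun hv i
      simp only at h1
      exact add_left_cancel h1
    rw [ho']
  refine ⟨I.image Φ, ?_, ?_, ?_⟩
  · intro g hg g' hg' heq
    rw [Finset.mem_coe, Finset.mem_image] at hg hg'
    obtain ⟨p, hp, rfl⟩ := hg
    obtain ⟨p', hp', rfl⟩ := hg'
    rw [ed, ed, Sym2.mk_eq_mk_iff] at heq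
    rcases heq with h | h
    · exact h
    · exfalso
      have h1 := hdir p hp
      have h2 := hdir p' hp'
      have h3 : (Φ p).1 = (Φ p').2 := congrArg Prod.fst h
      have h4 : (Φ p).2 = (Φ p').1 := congrArg Prod.snd h
      rw [h3, h4] at h1
      have h5 : emb (Φ p').1 - emb (Φ p').2 = -(emb (Φ p').2 - emb (Φ p').1) := by abel
      rw [h5, inner_neg_right] at h1
      linarith
  · intro g hg
    rw [Finset.mem_image] at hg
    obtain ⟨p, hp, rfl⟩ := hg
    obtain ⟨l, w, w', hl1, hl2, hw, hw', h1, h2⟩ := hest p hp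
    have hh2 : (r * s / 10) ^ 2 ≤ r * D / 100 := by nlinarith
    have hh : r * s / 10 ≤ D / 30 := by nlinarith
    have key := cand_metric (D := D) (r := r) (h := r * s / 10) he hr0 hrD hl1 hl2 hw hh2 hh hw'
    have e1 : dist2 y (Φ p).1 = ‖(l * D) • e + w‖ := by rw [dist2, h1]
    have e2 : dist2 (Φ p).2 z = ‖((1 - l) * D - r) • e - (w + w')‖ := by
      rw [dist2]
      congr 1
      have h3 : emb z - emb (Φ p).2 = X - (emb (Φ p).1 - emb y) -
          (emb (Φ p).2 - emb (Φ p).1) := by rw [hX]; abel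
      rw [h3, h1, h2, hXe]
      module
    have e3 : dist2 (Φ p).1 (Φ p).2 = ‖r • e + w'‖ := by rw [dist2, h2]
    rw [e1, e2, e3]
    have hre : ‖r • e‖ = r := by rw [norm_smul, he, mul_one, Real.norm_of_nonneg hr0.le]
    refine ⟨key.1, key.2.1, key.2.2.1, key.2.2.2, ?_, ?_⟩
    · have h3 : ‖r • e‖ ≤ ‖r • e + w'‖ + ‖w'‖ := by
        have := norm_sub_le (r • e + w') w'
        rwa [add_sub_cancel_right] at this
      rw [hre] at h3
      linarith
    · have h3 := norm_add_le (r • e) w'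
      rw [hre] at h3
      linarith
  · rw [Finset.card_image_of_injOn hinj, hI, Finset.card_product, Finset.card_product]
    have c1 : (N : ℝ) / 6 ≤ Ms.card := by
      rw [hMs, Nat.card_Icc]
      have h1 : (⌈(N : ℝ) / 3⌉₊ : ℝ) < N / 3 + 1 := Nat.ceil_lt_add_one (by positivity)
      have h2 := Nat.lt_floor_add_one (2 * (N : ℝ) / 3)
      have h3 : ((⌊2 * (N : ℝ) / 3⌋₊ + 1 : ℕ) : ℝ) ≤
          ((⌊2 * (N : ℝ) / 3⌋₊ + 1 - ⌈(N : ℝ) / 3⌉₊ : ℕ) : ℝ) + (⌈(N : ℝ) / 3⌉₊ : ℕ) := by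
        exact_mod_cast le_tsub_add
      push_cast at h3
      linarith
    have c2 : (Os.card : ℝ) = (2 * b + 1) ^ (d - 1) := by
      rw [hOs, Fintype.card_piFinset]
      rw [← Finset.mul_prod_erase Finset.univ _ (Finset.mem_univ i₀)]
      rw [if_pos rfl, Finset.card_singleton, one_mul]
      have : ∀ i ∈ Finset.univ.erase i₀, (if i = i₀ then ({0} : Finset ℤ) else
          Finset.Icc (-(b : ℤ)) b).card = 2 * b + 1 := by
        intro i hi
        rw [if_neg (Finset.ne_of_mem_erase hi), Int.card_Icc]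
        omega
      rw [Finset.prod_congr rfl this, Finset.prod_const,
        Finset.card_erase_of_mem (Finset.mem_univ _), Finset.card_univ, Fintype.card_fin]
      push_cast
      rfl
    have c3 : (Os'.card : ℝ) = (2 * b' + 1) ^ d := by
      rw [hOs', Fintype.card_piFinset]
      have hc : (Finset.Icc (-(b' : ℤ)) b').card = 2 * b' + 1 := by
        rw [Int.card_Icc]
        omega
      simp only [Finset.prod_const, Finset.card_univ, Fintype.card_fin]
      rw [hc]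
      push_cast
      rfl
    push_cast
    rw [c2, c3]
    have hNs : r * s ^ 2 / (6 * d) ≤ N / 6 := by
      rw [div_le_div_iff₀ (by positivity) (by norm_num)]
      calc r * s ^ 2 * 6 ≤ (d * N) * 6 := by
            have := hD.trans hND
            linarith
        _ = N * (6 * d) := by ring
    calc cG d * r ^ (2 * d) * s ^ (d + 1) =
        (r * s ^ 2 / (6 * d)) * ((r * s / (20 * d)) ^ (d - 1) * (r / (16 * d)) ^ d) := by
          obtain ⟨k, rfl⟩ : ∃ k, d = k + 1 := ⟨d - 1, by omega⟩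
          simp only [cG, Nat.add_sub_cancel]
          push_cast
          field_simp
          ring
      _ ≤ (N / 6) * ((2 * b + 1) ^ (d - 1) * (2 * b' + 1) ^ d) := by
          gcongr
      _ ≤ _ := by
          gcongr

end Pool.Agent.Lib_helper7.FPP
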