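import Mathlib
import Pool.Agent.Lib_helper7.FPP.Geom

/-!
# Lattice paths and subdivisions of segments
-/

namespace Pool.Agent.Lib_helper7.FPP

open scoped ENNReal RealInnerProductSpace
open Real MeasureTheory ProbabilityTheory

variable {d : ℕ}

theorem dist2_le_of_coord {y z y' z' : Fin d → ℤ} (h : ∀ i, |z i - y i| ≤ |z' i - y' i|) :
    dist2 y z ≤ dist2 y' z' := by
  rw [dist2, dist2, EuclideanSpace.norm_eq, EuclideanSpace.norm_eq]
  apply Real.sqrt_le_sqrt
  apply Finset.sum_le_sum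
  intro i _
  apply pow_le_pow_left₀ (norm_nonneg _)
  rw [PiLp.sub_apply, PiLp.sub_apply, emb_apply, emb_apply, emb_apply, emb_apply,
    Real.norm_eq_abs, Real.norm_eq_abs]
  exact_mod_cast h i

theorem edgeLen_mk (y z : Fin d → ℤ) : edgeLen s(y, z) = ∑ i, (y i - z i).natAbs := rfl

theorem edgeLen_le (y z : Fin d → ℤ) : (edgeLen s(y, z) : ℝ) ≤ d * dist2 y z := by
  rw [edgeLen_mk]
  push_cast
  refine (Finset.sum_le_sum (g := fun _ => dist2 y z) fun i _ => ?_).trans ?_
  · rw [Nat.cast_natAbs, Int.cast_abs]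
    push_cast
    rw [abs_sub_comm]
    exact abs_coord_le y z i
  · rw [Finset.sum_const, Finset.card_univ, Fintype.card_fin, nsmul_eq_mul]

/-- The nearest-neighbour path. -/
theorem exists_nn_path (y z : Fin d → ℤ) :
    ∃ s : List ((Fin d → ℤ) × (Fin d → ℤ)), IsPath y z s ∧ s.length = edgeLen s(y, z) ∧
      (∀ a ∈ s, edgeLen (ed a) = 1) ∧
      (∀ a ∈ s, ∀ i, (min (y i) (z i) ≤ a.1 i ∧ a.1 i ≤ max (y i) (z i)) ∧
        (min (y i) (z i) ≤ a.2 i ∧ a.2 i ≤ max (y i) (z i))) := by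
  classical
  obtain ⟨n, hn⟩ : ∃ n, edgeLen s(y, z) = n := ⟨_, rfl⟩
  induction n generalizing y with
  | zero =>
    have : y = z := by
      rw [edgeLen_mk, Finset.sum_eq_zero_iff] at hn
      funext i
      have := hn i (Finset.mem_univ _)
      omega
    subst this
    exact ⟨[], rfl, by rw [hn]; rfl, by simp, by simp⟩
  | succ n ih =>
    have hex : ∃ i, y i ≠ z i := by
      by_contra hc
      push Not at hc
      rw [edgeLen_mk, Finset.sum_eq_zero] at hn
      · omega
      · intro i _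
        rw [hc i]; simp
    obtain ⟨i₀, hi₀⟩ := hex
    set δ : ℤ := (z i₀ - y i₀).sign with hδ
    set y' : Fin d → ℤ := Function.update y i₀ (y i₀ + δ) with hy'
    have hy'0 : y' i₀ = y i₀ + δ := by rw [hy', Function.update_self]
    have hy'1 : ∀ i, i ≠ i₀ → y' i = y i := fun i hi => by
      rw [hy', Function.update_of_ne hi]
    have hδ1 : (δ = 1 ∧ y i₀ < z i₀) ∨ (δ = -1 ∧ z i₀ < y i₀) := by
      rcases lt_or_gt_of_ne hi₀ with h | h
      · left
        exact ⟨by rw [hδ, Int.sign_eq_one_of_pos (by omega)], h⟩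
      · right
        exact ⟨by rw [hδ, Int.sign_eq_neg_one_of_neg (by omega)], h⟩
    have hlen : edgeLen s(y', z) = n := by
      rw [edgeLen_mk] at hn ⊢
      rw [← Finset.add_sum_erase _ _ (Finset.mem_univ i₀)] at hn ⊢
      have h1 : ∑ i ∈ Finset.univ.erase i₀, (y' i - z i).natAbs =
          ∑ i ∈ Finset.univ.erase i₀, (y i - z i).natAbs := by
        apply Finset.sum_congr rfl
        intro i hi
        rw [hy'1 i (Finset.ne_of_mem_erase hi)]
      rw [h1, hy'0]
      rcases hδ1 with ⟨h2, h3⟩ | ⟨h2, h3⟩ <;> rw [h2] <;> omega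
    have hedge : edgeLen s(y, y') = 1 := by
      rw [edgeLen_mk, ← Finset.add_sum_erase _ _ (Finset.mem_univ i₀)]
      rw [Finset.sum_eq_zero, hy'0]
      · rcases hδ1 with ⟨h2, h3⟩ | ⟨h2, h3⟩ <;> rw [h2] <;> omega
      · intro i hi
        rw [hy'1 i (Finset.ne_of_mem_erase hi)]
        simp
    obtain ⟨s, hs1, hs2, hs3, hs4⟩ := ih y' hlen
    have hne : y ≠ y' := by
      intro h
      have := congrFun h i₀
      rw [hy'0] at this
      rcases hδ1 with ⟨h2, h3⟩ | ⟨h2, h3⟩ <;> omega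
    have hbet : ∀ i, min (y i) (z i) ≤ y' i ∧ y' i ≤ max (y i) (z i) := by
      intro i
      by_cases hi : i = i₀
      · subst hi
        rw [hy'0]
        rcases hδ1 with ⟨h2, h3⟩ | ⟨h2, h3⟩ <;> rw [h2] <;> omega
      · rw [hy'1 i hi]
        omega
    refine ⟨(y, y') :: s, ⟨rfl, hne, hs1⟩, ?_, ?_, ?_⟩
    · rw [List.length_cons, hs2, hlen, hn]
    · intro a ha
      rcases List.mem_cons.1 ha with rfl | ha
      · exact hedge
      · exact hs3 a ha
    · intro a ha i
      have hb := hbet i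
      rcases List.mem_cons.1 ha with rfl | ha
      · refine ⟨?_, hb⟩
        simp only
        omega
      · have := hs4 a ha i
        omega

/-- The points of the subdivision of a segment. -/
noncomputable def pt (y z : Fin d → ℤ) (m k : ℕ) : Fin d → ℤ :=
  fun i => y i + ⌊(k : ℝ) / m * ((z i - y i : ℤ) : ℝ)⌋

theorem pt_zero (y z : Fin d → ℤ) (m : ℕ) : pt y z m 0 = y := by
  funext i; simp [pt]

theorem pt_self (y z : Fin d → ℤ) {m : ℕ} (hm : m ≠ 0) : pt y z m m = z := by
  funext i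
  have : (m : ℝ) ≠ 0 := by exact_mod_cast hm
  rw [pt, div_self this, one_mul, Int.floor_intCast]
  ring

theorem pt_near (y z : Fin d → ℤ) (m k l : ℕ) :
    ‖(emb (pt y z m l) - emb (pt y z m k)) - (((l : ℝ) - k) / m) • (emb z - emb y)‖ ≤ d := by
  refine (norm_le_of_coord (c := 1) fun i => ?_).trans (by rw [mul_one])
  rw [PiLp.sub_apply, PiLp.sub_apply, PiLp.smul_apply, PiLp.sub_apply, smul_eq_mul]
  simp only [emb_apply, pt]
  push_cast
  have h1 := Int.floor_le ((l : ℝ) / m * ((z i : ℝ) - y i))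
  have h2 := Int.lt_floor_add_one ((l : ℝ) / m * ((z i : ℝ) - y i))
  have h3 := Int.floor_le ((k : ℝ) / m * ((z i : ℝ) - y i))
  have h4 := Int.lt_floor_add_one ((k : ℝ) / m * ((z i : ℝ) - y i))
  have e : ((l : ℝ) - k) / m * ((z i : ℝ) - y i) = (l : ℝ) / m * ((z i : ℝ) - y i) -
      (k : ℝ) / m * ((z i : ℝ) - y i) := by ring
  rw [e, abs_le]
  constructor <;> linarith

theorem dist2_pt (y z : Fin d → ℤ) (m k l : ℕ) :
    |dist2 (pt y z m k) (pt y z m l) - |(l : ℝ) - k| / m * dist2 y z| ≤ d := by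
  have h := pt_near y z m k l
  have e : |(l : ℝ) - k| / m * dist2 y z = ‖(((l : ℝ) - k) / m) • (emb z - emb y)‖ := by
    rw [norm_smul, norm_div, Real.norm_eq_abs, Real.norm_natCast, dist2]
  rw [e, dist2]
  exact (abs_norm_sub_norm_le _ _).trans h

end Pool.Agent.Lib_helper7.FPP
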