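import Mathlib
import Pool.Agent.Lib_helper7.FPP.Pieces

/-!
# The recursion over the scales
-/

namespace Pool.Agent.Lib_helper7.FPP

open scoped ENNReal RealInnerProductSpace
open Real MeasureTheory ProbabilityTheory

variable {d : ℕ}

theorem lintegral_exp_expMeasure' {μ : ℝ} (h1 : 0 < 1 + μ) :
    ∫⁻ x, ENNReal.ofReal (exp (1 - μ * x)) ∂(expMeasure 1) =
      ENNReal.ofReal (exp 1 / (1 + μ)) := by
  have hm : Measurable (exponentialPDF 1) :=
    (measurable_exponentialPDFReal 1).ennreal_ofReal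
  have e0 : expMeasure 1 = volume.withDensity (exponentialPDF 1) := rfl
  rw [e0, lintegral_withDensity_eq_lintegral_mul _ hm (by fun_prop)]
  have e1 : ∀ x : ℝ, (exponentialPDF 1 * fun x => ENNReal.ofReal (exp (1 - μ * x))) x =
      ENNReal.ofReal (exp 1 / (1 + μ)) * exponentialPDF (1 + μ) x := by
    intro x
    rw [Pi.mul_apply, exponentialPDF_eq, exponentialPDF_eq]
    split_ifs with hx
    · rw [← ENNReal.ofReal_mul (by positivity), ← ENNReal.ofReal_mul (by positivity)]
      congr 1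
      rw [sub_eq_add_neg, exp_add]
      have : exp (-((1 + μ) * x)) = exp (-(1 * x)) * exp (-(μ * x)) := by
        rw [← exp_add]; congr 1; ring
      rw [this]
      field_simp
    · simp
  rw [lintegral_congr e1, lintegral_const_mul, lintegral_exponentialPDF_eq_one h1, mul_one]
  exact (measurable_exponentialPDFReal _).ennreal_ofReal

theorem lintegral_half : ∫⁻ x, ENNReal.ofReal (exp (x / 2)) ∂(expMeasure 1) = 2 := by
  have h := lintegral_exp_expMeasure' (μ := -(1 / 2)) (by norm_num)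
  have e1 : ∀ x : ℝ, ENNReal.ofReal (exp (1 - -(1 / 2) * x)) =
      ENNReal.ofReal (exp 1) * ENNReal.ofReal (exp (x / 2)) := by
    intro x
    rw [← ENNReal.ofReal_mul (exp_pos _).le, ← exp_add]
    congr 2; ring
  simp only [e1] at h
  rw [lintegral_const_mul _ (by fun_prop)] at h
  have h0 : ENNReal.ofReal (exp 1) ≠ 0 := by
    rw [ne_eq, ENNReal.ofReal_eq_zero, not_le]; exact exp_pos _
  have h3 : ENNReal.ofReal (exp 1 / (1 + -(1 / 2))) = ENNReal.ofReal (exp 1) * 2 := by
    have : exp 1 / (1 + -(1 / 2)) = exp 1 * 2 := by ring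
    rw [this, ENNReal.ofReal_mul (exp_pos _).le]
    simp
  rw [h3] at h
  exact (ENNReal.mul_right_inj h0 ENNReal.ofReal_ne_top).1 h

theorem lintegral_id_le : ∫⁻ x, ENNReal.ofReal x ∂(expMeasure 1) ≤ 4 := by
  have h1 : ∀ x : ℝ, ENNReal.ofReal x ≤ ENNReal.ofReal 2 * ENNReal.ofReal (exp (x / 2)) := by
    intro x
    rw [← ENNReal.ofReal_mul (by norm_num)]
    apply ENNReal.ofReal_le_ofReal
    have := Real.add_one_le_exp (x / 2)
    linarith
  refine (lintegral_mono h1).trans ?_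
  rw [lintegral_const_mul _ (by fun_prop), lintegral_half]
  simp only [ENNReal.ofReal_ofNat]
  norm_num

theorem lintegral_sq_le : ∫⁻ x, ENNReal.ofReal x ^ 2 ∂(expMeasure 1) ≤ 16 := by
  have h1 : ∀ x : ℝ, ENNReal.ofReal x ^ 2 ≤
      ENNReal.ofReal 8 * ENNReal.ofReal (exp (x / 2)) := by
    intro x
    rw [← ENNReal.ofReal_mul (by norm_num)]
    rcases le_total x 0 with hx | hx
    · rw [ENNReal.ofReal_of_nonpos hx]; simp
    · rw [← ENNReal.ofReal_pow hx]
      apply ENNReal.ofReal_le_ofReal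
      have := Real.quadratic_le_exp_of_nonneg (show 0 ≤ x / 2 by linarith)
      nlinarith
  refine (lintegral_mono h1).trans ?_
  rw [lintegral_const_mul _ (by fun_prop), lintegral_half]
  simp only [ENNReal.ofReal_ofNat]
  norm_num

/-- The factor of the weight `ξ_e`. -/
noncomputable def kap (d : ℕ) (e : Sym2 (Fin d → ℤ)) : ℝ := (edgeLen e : ℝ) ^ (2 * d + 1)

theorem kap_pos (e : Sym2 (Fin d → ℤ)) (he : ¬ e.IsDiag) : 0 < kap d e := by
  induction e using Sym2.inductionOn with
  | _ y z =>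
    rw [Sym2.mk_isDiag_iff] at he
    have h1 := one_le_dist2 he
    have h2 := dist2_le_edgeLen y z
    rw [kap]
    have : (0 : ℝ) < edgeLen s(y, z) := by linarith
    positivity

/-- The edges of length less than `r` with both end points in `Λ`. -/
def Al (r : ℝ) (Λ : Set (Fin d → ℤ)) : Set (Sym2 (Fin d → ℤ)) :=
  {e | ∃ a b, e = s(a, b) ∧ dist2 a b < r ∧ a ∈ Λ ∧ b ∈ Λ}

theorem mem_Al {r : ℝ} {Λ : Set (Fin d → ℤ)} {u v : Fin d → ℤ} :
    s(u, v) ∈ Al r Λ ↔ dist2 u v < r ∧ u ∈ Λ ∧ v ∈ Λ := by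
  constructor
  · rintro ⟨a, b, h, h1, h2, h3⟩
    rw [Sym2.eq_iff] at h
    rcases h with ⟨rfl, rfl⟩ | ⟨rfl, rfl⟩
    · exact ⟨h1, h2, h3⟩
    · exact ⟨by rwa [dist2_comm], h3, h2⟩
  · rintro ⟨h1, h2, h3⟩
    exact ⟨u, v, rfl, h1, h2, h3⟩

theorem Al_mono {r r' : ℝ} (h : r ≤ r') {Λ Λ' : Set (Fin d → ℤ)} (hΛ : Λ ⊆ Λ') :
    Al r Λ ⊆ Al r' Λ' := by
  rintro e ⟨a, b, h1, h2, h3, h4⟩
  exact ⟨a, b, h1, h2.trans_le h, hΛ h3, hΛ h4⟩

variable {Ω : Type*} [MeasurableSpace Ω]

/-- The induction hypothesis of the recursion. -/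
def Hyp (P : Measure Ω) (ξ : Sym2 (Fin d → ℤ) → Ω → ℝ) (r τ M : ℝ) : Prop :=
  ∀ (y z : Fin d → ℤ) (Λ : Set (Fin d → ℤ)), M ≤ dist2 y z →
    (∀ v, dist2 y v ≤ 3 * dist2 y z → v ∈ Λ) →
    ∫⁻ ω, TA (wt ξ (kap d)) (Al r Λ) y z ω ∂P ≤ ENNReal.ofReal (τ * dist2 y z)

variable {P : Measure Ω} {ξ : Sym2 (Fin d → ℤ) → Ω → ℝ}

/-- The nearest-neighbour path in the ball. -/
theorem nn_path (y z : Fin d → ℤ) {r : ℝ} (hr : 1 < r) {Λ : Set (Fin d → ℤ)}
    (hΛ : ∀ v, dist2 y v ≤ 3 * dist2 y z → v ∈ Λ) :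
    ∃ s : List ((Fin d → ℤ) × (Fin d → ℤ)), IsPath y z s ∧ (s.length : ℝ) ≤ d * dist2 y z ∧
      (∀ a ∈ s, ed a ∈ Al r Λ) ∧ ∀ a ∈ s, kap d (ed a) = 1 := by
  obtain ⟨s, hs1, hs2, hs3, hs4⟩ := exists_nn_path y z
  have hball : ∀ v : Fin d → ℤ, (∀ i, min (y i) (z i) ≤ v i ∧ v i ≤ max (y i) (z i)) → v ∈ Λ := by
    intro v hv
    apply hΛ
    have h1 : dist2 y v ≤ dist2 y z := by
      apply dist2_le_of_coord
      intro i
      have := hv i
      rw [abs_le]
      rcases le_total (y i) (z i) with h | h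
      · rw [min_eq_left h, max_eq_right h] at this
        rw [abs_of_nonneg (by omega)]
        omega
      · rw [min_eq_right h, max_eq_left h] at this
        rw [abs_of_nonpos (by omega)]
        omega
    have h2 := dist2_nonneg y z
    linarith
  refine ⟨s, hs1, ?_, ?_, ?_⟩
  · rw [hs2]; exact edgeLen_le y z
  · intro a ha
    rw [ed, mem_Al]
    refine ⟨?_, hball _ fun i => (hs4 a ha i).1, hball _ fun i => (hs4 a ha i).2⟩
    have h1 := dist2_le_edgeLen a.1 a.2
    have h2 := hs3 a ha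
    rw [ed] at h2
    rw [h2] at h1
    push_cast at h1
    linarith
  · intro a ha
    rw [kap, hs3 a ha]; simp

/-- The base of the recursion. -/
theorem hyp_base (h : IsExpFamily P ξ) {r : ℝ} (hr : 1 < r) (M : ℝ) : Hyp P ξ r (4 * d) M := by
  intro y z Λ _ hΛ
  obtain ⟨s, hs1, hs2, hs3, hs4⟩ := nn_path y z hr hΛ
  refine (lintegral_mono fun ω => TA_le hs1 hs3).trans ?_
  have hne := hs1.ne
  have key : ∫⁻ ω, (s.map (fun a => wt ξ (kap d) (ed a) ω)).sum ∂P ≤ s.length * 4 := by
    clear hs1 hs2 hs3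
    induction s with
    | nil => simp
    | cons a s ih =>
      simp only [List.map_cons, List.sum_cons, List.length_cons]
      have hd : ¬ (ed a).IsDiag := by
        rw [ed, Sym2.mk_isDiag_iff]; exact hne a List.mem_cons_self
      have hm : Measurable (wt ξ (kap d) (ed a)) :=
        ((h.meas _ hd).mul_const _).ennreal_ofReal
      rw [lintegral_add_left hm]
      have h1 : ∫⁻ ω, wt ξ (kap d) (ed a) ω ∂P ≤ 4 := by
        have e1 : ∀ ω, wt ξ (kap d) (ed a) ω = ENNReal.ofReal (ξ (ed a) ω) := by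
          intro ω
          rw [wt, hs4 a List.mem_cons_self, mul_one]
        rw [lintegral_congr e1, ← lintegral_map (f := fun x => ENNReal.ofReal x)
          ENNReal.measurable_ofReal (h.meas _ hd), h.law _ hd]
        exact lintegral_id_le
      have h2 := ih (fun a ha => hs4 a (List.mem_cons_of_mem _ ha))
        (fun a ha => hne a (List.mem_cons_of_mem _ ha))
      refine (add_le_add h1 h2).trans (le_of_eq ?_)
      push_cast
      ring
  refine key.trans ?_
  have h3 : ((s.length : ℕ) : ℝ≥0∞) * 4 = ENNReal.ofReal (s.length * 4) := by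
    rw [ENNReal.ofReal_mul (by positivity), ENNReal.ofReal_natCast]
    simp
  rw [h3]
  apply ENNReal.ofReal_le_ofReal
  linarith

/-- The expected number of good edges. -/
noncomputable def c4 (d : ℕ) : ℝ := cG d / (4 * (2 * d) ^ (2 * d + 1))

/-- The lower bound for the probability that there is a good edge. -/
noncomputable def c3 (d : ℕ) : ℝ := 1 - exp (-(c4 d))

theorem c4_pos (hd : 1 ≤ d) : 0 < c4 d := by
  have := cG_pos hd
  have : (0 : ℝ) < d := by exact_mod_cast hd
  rw [c4]; positivity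

theorem c3_pos (hd : 1 ≤ d) : 0 < c3 d := by
  have := c4_pos hd
  rw [c3, sub_pos, exp_lt_one_iff]; linarith

theorem c3_lt_one : c3 d < 1 := by
  have := exp_pos (-(c4 d))
  rw [c3]; linarith

/-- The improvement by one edge. -/
theorem hyp_edge (hd : 1 ≤ d) (h : IsExpFamily P ξ) [IsProbabilityMeasure P] {r s τ M : ℝ}
    (H : Hyp P ξ (r / 2) τ M) (hs0 : 0 < s) (hs : 12 ≤ s ^ 2) (hM : M ≤ r * s ^ 2 / 8)
    (hr : 20 * d ≤ r) (hτ0 : 0 < τ) (hτ : 1 ≤ τ * s ^ (d + 1)) (y z : Fin d → ℤ)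
    (Λ : Set (Fin d → ℤ)) (hD : r * s ^ 2 ≤ dist2 y z)
    (hΛ : ∀ v, dist2 y v ≤ 3 * dist2 y z → v ∈ Λ) :
    ∫⁻ ω, TA (wt ξ (kap d)) (Al (32 * r) Λ) y z ω ∂P ≤
      ENNReal.ofReal (τ * (dist2 y z - c3 d * r / 2)) := by
  have hd0 : (1 : ℝ) ≤ d := by exact_mod_cast hd
  have hr20 : 20 ≤ r := by nlinarith
  have hr0 : 0 < r := by linarith
  obtain ⟨G, hG1, hG2, hG3⟩ := candidates hd hs0 hs hr hD
  set D := dist2 y z with hDdef
  have hrD : 12 * r ≤ D := by nlinarith
  have hMD : M ≤ D / 8 := by linarith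
  have hD0 : 0 < D := by linarith
  have hn : (G.toList.map ed).Nodup := by
    rw [List.nodup_map_iff_inj_on G.nodup_toList]
    intro a ha b hb hab
    exact hG1 (by simpa using ha) (by simpa using hb) hab
  have key := lintegral_TA_le (P := P) (ξ := ξ) h (κ := kap d) kap_pos
    (A := Al (r / 2) Λ) (C := Al (32 * r) Λ) (Al_mono (by linarith) le_rfl) (y := y) (z := z)
    (t := τ * r / 4) (b0 := τ * D) (b1 := τ * (D - r / 2)) (by positivity)
    (mul_nonneg hτ0.le (by linarith)) (by nlinarith) hn (by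
      intro g hg
      rw [Finset.mem_toList] at hg
      obtain ⟨h1, h2, h3, h4, h5, h6⟩ := hG2 g hg
      have h7 := dist2_nonneg y g.1
      have h8 := dist2_nonneg g.2 z
      have h9 : dist2 y g.2 ≤ dist2 y g.1 + dist2 g.1 g.2 := dist2_triangle _ _ _
      refine ⟨?_, ?_, ?_, ?_⟩
      · intro h10
        rw [h10, dist2_self] at h5
        linarith
      · rw [ed, mem_Al]
        exact ⟨by linarith, hΛ _ (by linarith), hΛ _ (by linarith)⟩
      · rw [ed, mem_Al]
        intro h10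
        linarith [h10.1]
      · have q1 := H y g.1 Λ (by linarith) (fun v hv => hΛ v (by linarith))
        have q2 := H g.2 z Λ (by linarith) (fun v hv => hΛ v (by
          have := dist2_triangle y g.2 v
          linarith))
        refine (add_le_add (add_le_add q1 le_rfl) q2).trans ?_
        rw [← ENNReal.ofReal_add (by positivity) (by positivity),
          ← ENNReal.ofReal_add (by positivity) (by positivity)]
        apply ENNReal.ofReal_le_ofReal
        nlinarith)
    (H y z Λ (by linarith) hΛ)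
  refine key.trans ?_
  apply ENNReal.ofReal_le_ofReal
  have hsum : c4 d ≤ (G.toList.map (fun g => τ * r / 4 / kap d (ed g))).sum := by
    have h1 : ∀ g ∈ G.toList, τ * r / 4 / (2 * d * r) ^ (2 * d + 1) ≤ τ * r / 4 / kap d (ed g) := by
      intro g hg
      rw [Finset.mem_toList] at hg
      obtain ⟨-, -, -, -, h5, h6⟩ := hG2 g hg
      have hne : ¬ (ed g).IsDiag := by
        rw [ed, Sym2.mk_isDiag_iff]
        intro h10
        rw [h10, dist2_self] at h5
        linarith
      apply div_le_div_of_nonneg_left (by positivity) (kap_pos _ hne)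
      rw [kap]
      apply pow_le_pow_left₀ (by positivity)
      refine (edgeLen_le g.1 g.2).trans ?_
      nlinarith
    have h2 : (G.toList.map (fun _ => τ * r / 4 / (2 * d * r) ^ (2 * d + 1))).sum ≤
        (G.toList.map (fun g => τ * r / 4 / kap d (ed g))).sum := List.sum_le_sum h1
    refine le_trans ?_ h2
    rw [List.map_const', List.sum_replicate, Finset.length_toList, nsmul_eq_mul]
    have h3 : cG d * r ^ (2 * d) * s ^ (d + 1) * (τ * r / 4 / (2 * d * r) ^ (2 * d + 1)) ≤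
        G.card * (τ * r / 4 / (2 * d * r) ^ (2 * d + 1)) :=
      mul_le_mul_of_nonneg_right hG3 (by positivity)
    refine le_trans ?_ h3
    have h4 : cG d * r ^ (2 * d) * s ^ (d + 1) * (τ * r / 4 / (2 * d * r) ^ (2 * d + 1)) =
        c4 d * (τ * s ^ (d + 1)) := by
      rw [c4, mul_pow (2 * (d : ℝ)) r, pow_succ r (2 * d)]
      field_simp
    rw [h4]
    have := c4_pos hd
    nlinarith
  have hexp : exp (-(G.toList.map (fun g => τ * r / 4 / kap d (ed g))).sum) ≤ exp (-(c4 d)) := by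
    rw [exp_le_exp]; linarith
  have hb : 0 ≤ τ * D - τ * (D - r / 2) := by nlinarith
  have h5 := mul_le_mul_of_nonneg_left hexp hb
  have h6 : τ * (D - r / 2) + (τ * D - τ * (D - r / 2)) * exp (-(c4 d)) =
      τ * (D - c3 d * r / 2) := by
    rw [c3]; ring
  linarith

end Pool.Agent.Lib_helper7.FPP
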