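import Mathlib
import Pool.Agent.Lib_helper7.FPP.Rec

/-!
# All the scales
-/

namespace Pool.Agent.Lib_helper7.FPP

open scoped ENNReal RealInnerProductSpace
open Real MeasureTheory ProbabilityTheory

variable {d : ℕ} {Ω : Type*}

theorem TA_pieces {V : Type*} {w : Sym2 V → Ω → ℝ≥0∞} {C : Set (Sym2 V)} (A : ℕ → Set (Sym2 V))
    (p : ℕ → V) (m : ℕ) (hA : ∀ k < m, A k ⊆ C) (ω : Ω) :
    TA w C (p 0) (p m) ω ≤ ∑ k ∈ Finset.range m, TA w (A k) (p k) (p (k + 1)) ω := by
  induction m with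
  | zero => simp [TA_self]
  | succ m ih =>
    rw [Finset.sum_range_succ]
    refine (TA_triangle (A := C) (y := p m) le_rfl (hA m (by omega))).trans ?_
    exact add_le_add (ih fun k hk => hA k (by omega)) le_rfl

variable [MeasurableSpace Ω] {P : Measure Ω} {ξ : Sym2 (Fin d → ℤ) → Ω → ℝ}

theorem hyp_step (hd : 1 ≤ d) (h : IsExpFamily P ξ) [IsProbabilityMeasure P] {r s τ M : ℝ}
    (H : Hyp P ξ (r / 2) τ M) (hs0 : 0 < s) (hs : 12 ≤ s ^ 2) (hM : M ≤ r * s ^ 2 / 8)
    (hr : 20 * d ≤ r) (hr' : 4 * d ≤ c3 d * r) (hτ0 : 0 < τ) (hτ : 1 ≤ τ * s ^ (d + 1)) :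
    Hyp P ξ (32 * r) (τ * (1 - c3 d / (8 * s ^ 2))) (8 * (r * s ^ 2)) := by
  have hd0 : (1 : ℝ) ≤ d := by exact_mod_cast hd
  have hc3 := c3_pos hd
  have hr20 : 20 ≤ r := by nlinarith
  have hr0 : 0 < r := by linarith
  intro y z Λ hD hΛ
  set D := dist2 y z with hDdef
  set ℓ := r * s ^ 2 with hℓ
  have hℓr : 12 * r ≤ ℓ := by nlinarith
  have hℓ0 : 0 < ℓ := by linarith
  have hD0 : 0 < D := by linarith
  set m := ⌊D / (3 / 2 * ℓ)⌋₊ with hm
  have hm1 : (m : ℝ) ≤ D / (3 / 2 * ℓ) := Nat.floor_le (by positivity)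
  have hm2 : D / (3 / 2 * ℓ) < m + 1 := Nat.lt_floor_add_one _
  have hm5 : 5 ≤ m := by
    apply Nat.le_floor
    rw [le_div_iff₀ (by positivity)]
    push_cast
    linarith
  have hm5' : (5 : ℝ) ≤ m := by exact_mod_cast hm5
  have hm0 : (0 : ℝ) < m := by linarith
  have hDm : 3 / 2 * ℓ ≤ D / m := by
    rw [le_div_iff₀ (by positivity)] at hm1 ⊢
    linarith
  have hDm' : D / m ≤ D / 5 := div_le_div_of_nonneg_left hD0.le (by norm_num) hm5'
  have hmD : D / (2 * ℓ) ≤ m := by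
    rw [div_lt_iff₀ (by positivity)] at hm2
    rw [div_le_iff₀ (by positivity)]
    nlinarith
  set p := pt y z m with hp
  have hdk : ∀ k : ℕ, |dist2 (p k) (p (k + 1)) - D / m| ≤ d := by
    intro k
    have := dist2_pt y z m k (k + 1)
    have e : |((k + 1 : ℕ) : ℝ) - k| / m * dist2 y z = D / m := by
      push_cast
      rw [add_sub_cancel_left, abs_one, ← hDdef]
      ring
    rw [e] at this
    exact this
  have hd0k : ∀ k ≤ m, dist2 y (p k) ≤ D + d := by
    intro k hk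
    have := dist2_pt y z m 0 k
    rw [pt_zero] at this
    have e : |(k : ℝ) - (0 : ℕ)| / m * dist2 y z ≤ D := by
      rw [Nat.cast_zero, sub_zero, Nat.abs_cast, ← hDdef]
      have : (k : ℝ) / m ≤ 1 := by
        rw [div_le_one hm0]; exact_mod_cast hk
      nlinarith
    have := (abs_le.1 this).2
    linarith
  have hpiece : ∀ k < m, ∫⁻ ω, TA (wt ξ (kap d)) (Al (32 * r) Λ) (p k) (p (k + 1)) ω ∂P ≤
      ENNReal.ofReal (τ * (D / m + d - c3 d * r / 2)) := by
    intro k hk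
    have h1 := abs_le.1 (hdk k)
    refine (hyp_edge hd h H hs0 hs hM hr hτ0 hτ (p k) (p (k + 1)) Λ (by linarith) ?_).trans ?_
    · intro v hv
      apply hΛ
      have h2 := dist2_triangle y (p k) v
      have h3 := hd0k k hk.le
      linarith
    · apply ENNReal.ofReal_le_ofReal
      apply mul_le_mul_of_nonneg_left _ hτ0.le
      linarith
  have htri : ∀ ω, TA (wt ξ (kap d)) (Al (32 * r) Λ) y z ω ≤
      ∑ k ∈ Finset.range m, TA (wt ξ (kap d)) (Al (32 * r) Λ) (p k) (p (k + 1)) ω := by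
    intro ω
    have := TA_pieces (w := wt ξ (kap d)) (C := Al (32 * r) Λ) (fun _ => Al (32 * r) Λ) p m
      (fun _ _ => le_rfl) ω
    rwa [hp, pt_zero, pt_self y z (by omega)] at this
  refine (lintegral_mono htri).trans ?_
  rw [lintegral_finsetSum _ (fun k _ => measurable_TA_wt' h _ _ _ _)]
  refine (Finset.sum_le_sum (g := fun _ => ENNReal.ofReal (τ * (D / m + d - c3 d * r / 2)))
    fun k hk => hpiece k (Finset.mem_range.1 hk)).trans ?_
  rw [Finset.sum_const, Finset.card_range, nsmul_eq_mul, ← ENNReal.ofReal_natCast,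
    ← ENNReal.ofReal_mul hm0.le]
  apply ENNReal.ofReal_le_ofReal
  have e1 : (m : ℝ) * (τ * (D / m + d - c3 d * r / 2)) =
      τ * (D - m * (c3 d * r / 2 - d)) := by
    field_simp
    ring
  rw [e1, mul_assoc τ]
  apply mul_le_mul_of_nonneg_left _ hτ0.le
  have h5 : m * (c3 d * r / 4) ≤ m * (c3 d * r / 2 - d) :=
    mul_le_mul_of_nonneg_left (by linarith) hm0.le
  have h6 : D / (2 * ℓ) * (c3 d * r / 4) ≤ m * (c3 d * r / 4) :=
    mul_le_mul_of_nonneg_right hmD (by positivity)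
  have h7 : D / (2 * ℓ) * (c3 d * r / 4) = D * (c3 d / (8 * s ^ 2)) := by
    rw [hℓ]; field_simp; norm_num
  linarith

/-- The constant in `s_j ^ 2 = c5 (j + j1)`. -/
noncomputable def c5 (d : ℕ) : ℝ := c3 d / (8 * (d + 1))

theorem c5_pos (hd : 1 ≤ d) : 0 < c5 d := by
  have := c3_pos hd
  rw [c5]; positivity

/-- The offset `j1`. -/
noncomputable def j1 (d : ℕ) : ℕ := ⌈12 / c5 d⌉₊

/-- The scale parameter `s_j`. -/
noncomputable def sj (d j : ℕ) : ℝ := √(c5 d * (j + j1 d))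

/-- The smallest scale. -/
noncomputable def r0 (d : ℕ) : ℝ := 20 * d / c3 d

theorem sj_sq (hd : 1 ≤ d) (j : ℕ) : sj d j ^ 2 = c5 d * (j + j1 d) := by
  have := c5_pos hd
  rw [sj, Real.sq_sqrt (by positivity)]

theorem twelve_le_sj (hd : 1 ≤ d) (j : ℕ) : 12 ≤ sj d j ^ 2 := by
  have h := c5_pos hd
  rw [sj_sq hd]
  have h1 : 12 / c5 d ≤ j1 d := Nat.le_ceil _
  rw [div_le_iff₀ h] at h1
  have h2 : (0 : ℝ) ≤ j := Nat.cast_nonneg _
  nlinarith

theorem sj_pos (hd : 1 ≤ d) (j : ℕ) : 0 < sj d j := by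
  have h1 := twelve_le_sj hd j
  have h2 : 0 ≤ sj d j := Real.sqrt_nonneg _
  rcases h2.lt_or_eq with h | h
  · exact h
  · rw [← h] at h1; norm_num at h1

/-- The constant `A` of the recursion. -/
noncomputable def cA (d : ℕ) : ℝ := 4 * d * sj d 0 ^ (d + 1)

theorem one_le_cA (hd : 1 ≤ d) : 1 ≤ cA d := by
  have h1 := twelve_le_sj hd 0
  have h2 := sj_pos hd 0
  have h3 : 1 ≤ sj d 0 := by nlinarith
  have h4 : (1 : ℝ) ≤ d := by exact_mod_cast hd
  have h5 : 1 ≤ sj d 0 ^ (d + 1) := one_le_pow₀ h3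
  rw [cA]
  nlinarith

/-- The recursion, all scales. -/
theorem hyp_all (hd : 1 ≤ d) (h : IsExpFamily P ξ) [IsProbabilityMeasure P] (j : ℕ) :
    ∃ M, M ≤ 8 * (r0 d * 64 ^ j * sj d j ^ 2) ∧ M ≤ r0 d * 64 ^ j * sj d j ^ 2 / 8 ∧
      Hyp P ξ (r0 d * 64 ^ j / 2) (cA d / sj d j ^ (d + 1)) M := by
  have hd0 : (1 : ℝ) ≤ d := by exact_mod_cast hd
  have hc3 := c3_pos hd
  have hc31 := c3_lt_one (d := d)
  have hr0 : 20 * d ≤ r0 d := by
    rw [r0, le_div_iff₀ hc3]
    nlinarith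
  have hr0' : 4 * d ≤ c3 d * r0 d := by
    rw [r0, mul_div_cancel₀ _ hc3.ne']
    linarith
  have hr00 : 0 < r0 d := by linarith
  have hA := one_le_cA hd
  induction j with
  | zero =>
    have h1 := sj_pos hd 0
    refine ⟨0, by positivity, by positivity, ?_⟩
    have e : cA d / sj d 0 ^ (d + 1) = 4 * d := by
      rw [cA]; field_simp
    rw [e]
    apply hyp_base h
    norm_num
    linarith
  | succ j ih =>
    obtain ⟨M, -, hM, H⟩ := ih
    have hs := sj_pos hd j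
    have hs' := sj_pos hd (j + 1)
    have h64 : (1 : ℝ) ≤ 64 ^ j := one_le_pow₀ (by norm_num)
    have hrj : r0 d ≤ r0 d * 64 ^ j := by nlinarith
    have hsq : sj d j ^ 2 ≤ sj d (j + 1) ^ 2 := by
      rw [sj_sq hd, sj_sq hd]
      apply mul_le_mul_of_nonneg_left _ (c5_pos hd).le
      push_cast; linarith
    have key := hyp_step hd h H hs (twelve_le_sj hd j) hM (by linarith) (by nlinarith)
      (by positivity) (by rw [div_mul_cancel₀ _ (by positivity)]; exact hA)
    refine ⟨8 * (r0 d * 64 ^ j * sj d j ^ 2), ?_, ?_, ?_⟩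
    · have : r0 d * 64 ^ j * sj d j ^ 2 ≤ r0 d * 64 ^ (j + 1) * sj d (j + 1) ^ 2 := by
        rw [pow_succ (64 : ℝ) j]
        have h1 : r0 d * 64 ^ j * sj d j ^ 2 ≤ r0 d * 64 ^ j * sj d (j + 1) ^ 2 :=
          mul_le_mul_of_nonneg_left hsq (by positivity)
        have h2 : 0 ≤ r0 d * 64 ^ j * sj d (j + 1) ^ 2 := by positivity
        linarith
      linarith
    · rw [pow_succ (64 : ℝ) j]
      have h1 : r0 d * 64 ^ j * sj d j ^ 2 ≤ r0 d * 64 ^ j * sj d (j + 1) ^ 2 :=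
        mul_le_mul_of_nonneg_left hsq (by positivity)
      linarith
    · intro y z Λ hD hΛ
      have q := key y z Λ hD hΛ
      have e : r0 d * 64 ^ (j + 1) / 2 = 32 * (r0 d * 64 ^ j) := by rw [pow_succ]; ring
      rw [e]
      refine q.trans ?_
      apply ENNReal.ofReal_le_ofReal
      apply mul_le_mul_of_nonneg_right _ (dist2_nonneg _ _)
      -- the choice of `c5`
      set a := sj d j with ha
      set b := sj d (j + 1) with hb
      have hab2 : b ^ 2 = a ^ 2 + c5 d := by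
        rw [ha, hb, sj_sq hd, sj_sq hd]; push_cast; ring
      have hab : a ≤ b := by
        apply le_of_sq_le_sq _ hs'.le
        linarith
      set ρ := a / b with hρ
      have hρ1 : ρ ≤ 1 := by rw [hρ, div_le_one hs']; exact hab
      have hρ0 : 0 < ρ := by positivity
      have hbern : 1 + ((d + 1 : ℕ) : ℝ) * (ρ - 1) ≤ (1 + (ρ - 1)) ^ (d + 1) :=
        one_add_mul_le_pow (by linarith) _
      have e2 : 1 + (ρ - 1) = ρ := by ring
      rw [e2] at hbern
      have h1 : 1 - ρ ≤ 1 - ρ ^ 2 := by nlinarith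
      have h2 : 1 - ρ ^ 2 = c5 d / b ^ 2 := by
        rw [hρ, div_pow, hab2]
        have : a ^ 2 + c5 d ≠ 0 := by rw [← hab2]; positivity
        field_simp
        ring
      have h3 : c5 d / b ^ 2 ≤ c5 d / a ^ 2 := by
        apply div_le_div_of_nonneg_left (c5_pos hd).le (by positivity)
        linarith [c5_pos hd]
      have h4 : ((d : ℝ) + 1) * (c5 d / a ^ 2) = c3 d / (8 * a ^ 2) := by
        rw [c5]; field_simp
      have h5 : 1 - c3 d / (8 * a ^ 2) ≤ ρ ^ (d + 1) := by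
        rw [← h4]
        push_cast at hbern
        nlinarith
      calc cA d / a ^ (d + 1) * (1 - c3 d / (8 * a ^ 2)) ≤ cA d / a ^ (d + 1) * ρ ^ (d + 1) :=
            mul_le_mul_of_nonneg_left h5 (by positivity)
        _ = cA d / b ^ (d + 1) := by
            rw [hρ, div_pow]; field_simp

end Pool.Agent.Lib_helper7.FPP
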