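import Mathlib
import Pool.Agent.Lib_helper7.FPP.Scale

/-!
# The upper bound for the first-passage time
-/

namespace Pool.Agent.Lib_helper7.FPP

open scoped ENNReal RealInnerProductSpace
open Real MeasureTheory ProbabilityTheory

variable {d : ℕ} {Ω : Type*}

theorem exists_walk {V : Type*} {y z : V} {s : List (V × V)} (hs : IsPath y z s) :
    ∃ p : (⊤ : SimpleGraph V).Walk y z, p.edges = s.map ed := by
  induction s generalizing y with
  | nil =>
    obtain rfl : y = z := hs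
    exact ⟨.nil, rfl⟩
  | cons a s ih =>
    obtain ⟨h1, h2, h3⟩ := hs
    subst h1
    obtain ⟨p, hp⟩ := ih h3
    refine ⟨.cons ((SimpleGraph.top_adj _ _).2 h2) p, ?_⟩
    rw [SimpleGraph.Walk.edges_cons, hp, List.map_cons]
    rfl

theorem ofReal_list_sum_le {A : Type*} (f : A → ℝ) (s : List A) :
    ENNReal.ofReal ((s.map f).sum) ≤ (s.map (fun a => ENNReal.ofReal (f a))).sum := by
  induction s with
  | nil => simp
  | cons a s ih =>
    simp only [List.map_cons, List.sum_cons]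
    exact ENNReal.ofReal_add_le.trans (add_le_add le_rfl ih)

theorem T_le_TA {ξ : Sym2 (Fin d → ℤ) → Ω → ℝ} {ω : Ω} (hω : ∀ e, ¬ e.IsDiag → 0 ≤ ξ e ω)
    (A : Set (Sym2 (Fin d → ℤ))) (y z : Fin d → ℤ) :
    ENNReal.ofReal (T (fun e => ξ e ω) y z) ≤ TA (wt ξ (kap d)) A y z ω := by
  rw [TA]
  refine le_iInf₂ fun s hs => ?_
  obtain ⟨p, hp⟩ := exists_walk hs.1
  have hnn : ∀ {u v : Fin d → ℤ} (w : (⊤ : SimpleGraph (Fin d → ℤ)).Walk u v),
      0 ≤ cost (fun e => ξ e ω) w := by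
    intro u v w
    rw [cost]
    apply List.sum_nonneg
    intro x hx
    obtain ⟨e, he, rfl⟩ := List.mem_map.1 hx
    apply W_nonneg hω
    have := w.edges_subset_edgeSet he
    rw [SimpleGraph.edgeSet_top] at this
    exact this
  have h1 : T (fun e => ξ e ω) y z ≤ cost (fun e => ξ e ω) p :=
    ciInf_le ⟨0, by rintro _ ⟨w, rfl⟩; exact hnn w⟩ p
  refine (ENNReal.ofReal_le_ofReal h1).trans ?_
  rw [cost, hp, List.map_map]
  exact ofReal_list_sum_le _ s

variable [MeasurableSpace Ω] {P : Measure Ω} {ξ : Sym2 (Fin d → ℤ) → Ω → ℝ}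

theorem lintegral_sq_le' : ∫⁻ x, ENNReal.ofReal (x ^ 2) ∂(expMeasure 1) ≤ 16 := by
  refine le_trans (lintegral_mono_ae ?_) lintegral_sq_le
  have h1 : ∀ᵐ x ∂(expMeasure 1), ¬ x ∈ Set.Iio (0 : ℝ) :=
    measure_eq_zero_iff_ae_notMem.1 expMeasure_Iio_zero
  filter_upwards [h1] with x hx
  rw [Set.mem_Iio, not_lt] at hx
  rw [ENNReal.ofReal_pow hx]

theorem sq_edge (h : IsExpFamily P ξ) {e : Sym2 (Fin d → ℤ)} (he : ¬ e.IsDiag) :
    Integrable (fun ω => ξ e ω ^ 2) P ∧ ∫ ω, ξ e ω ^ 2 ∂P ≤ 16 := by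
  have h1 : ∫⁻ ω, ENNReal.ofReal (ξ e ω ^ 2) ∂P ≤ 16 := by
    rw [← lintegral_map (f := fun x => ENNReal.ofReal (x ^ 2)) (by fun_prop) (h.meas _ he),
      h.law _ he]
    exact lintegral_sq_le'
  have h0 : 0 ≤ᵐ[P] fun ω => ξ e ω ^ 2 := Filter.Eventually.of_forall fun ω => sq_nonneg _
  have hm : AEStronglyMeasurable (fun ω => ξ e ω ^ 2) P :=
    ((h.meas _ he).pow_const 2).aestronglyMeasurable
  refine ⟨⟨hm, ?_⟩, ?_⟩
  · rw [hasFiniteIntegral_iff_ofReal h0]
    exact h1.trans_lt (by norm_num)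
  · rw [integral_eq_lintegral_of_nonneg_ae h0 hm]
    have := ENNReal.toReal_mono (by norm_num) h1
    simpa using this

theorem second_moment (h : IsExpFamily P ξ) [IsProbabilityMeasure P] (y z : Fin d → ℤ) {r : ℝ}
    (hr : 1 < r) {Λ : Set (Fin d → ℤ)} (hΛ : ∀ v, dist2 y v ≤ 3 * dist2 y z → v ∈ Λ) :
    (∀ ω, TA (wt ξ (kap d)) (Al r Λ) y z ω < ⊤) ∧
    MemLp (fun ω => (TA (wt ξ (kap d)) (Al r Λ) y z ω).toReal) 2 P ∧
    variance (fun ω => (TA (wt ξ (kap d)) (Al r Λ) y z ω).toReal) P ≤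
      16 * (d * dist2 y z) ^ 2 := by
  obtain ⟨s, hs1, hs2, hs3, hs4⟩ := nn_path y z hr hΛ
  set n := s.length with hn
  have hd : ∀ k : Fin n, ¬ (ed s[k.1]).IsDiag := by
    intro k
    rw [ed, Sym2.mk_isDiag_iff]
    exact hs1.ne _ (List.getElem_mem _)
  have hle : ∀ ω, TA (wt ξ (kap d)) (Al r Λ) y z ω ≤
      ENNReal.ofReal (∑ k : Fin n, |ξ (ed s[k.1]) ω|) := by
    intro ω
    refine (TA_le hs1 hs3).trans ?_
    rw [ENNReal.ofReal_sum_of_nonneg (fun _ _ => abs_nonneg _),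
      ← Fin.sum_univ_fun_getElem s (fun a => wt ξ (kap d) (ed a) ω)]
    apply Finset.sum_le_sum
    intro k _
    rw [wt, hs4 _ (List.getElem_mem _), mul_one]
    exact ENNReal.ofReal_le_ofReal (le_abs_self _)
  set Z : Ω → ℝ := fun ω => (TA (wt ξ (kap d)) (Al r Λ) y z ω).toReal with hZ
  have hZm : Measurable Z := (measurable_TA_wt' h (kap d) (Al r Λ) y z).ennreal_toReal
  have hZ0 : ∀ ω, 0 ≤ Z ω := fun ω => ENNReal.toReal_nonneg
  have hZle : ∀ ω, Z ω ^ 2 ≤ n * ∑ k : Fin n, ξ (ed s[k.1]) ω ^ 2 := by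
    intro ω
    have h1 : Z ω ≤ ∑ k : Fin n, |ξ (ed s[k.1]) ω| :=
      ENNReal.toReal_le_of_le_ofReal (Finset.sum_nonneg fun _ _ => abs_nonneg _) (hle ω)
    calc Z ω ^ 2 ≤ (∑ k : Fin n, |ξ (ed s[k.1]) ω|) ^ 2 := pow_le_pow_left₀ (hZ0 ω) h1 2
      _ ≤ (Finset.univ : Finset (Fin n)).card * ∑ k : Fin n, |ξ (ed s[k.1]) ω| ^ 2 :=
          sq_sum_le_card_mul_sum_sq
      _ = _ := by simp [sq_abs]
  have hint : Integrable (fun ω => (n : ℝ) * ∑ k : Fin n, ξ (ed s[k.1]) ω ^ 2) P :=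
    (integrable_finsetSum _ fun k _ => (sq_edge h (hd k)).1).const_mul _
  have hZint : Integrable (fun ω => Z ω ^ 2) P := by
    refine hint.mono' (hZm.pow_const 2).aestronglyMeasurable (Filter.Eventually.of_forall ?_)
    intro ω
    rw [Real.norm_of_nonneg (sq_nonneg _)]
    exact hZle ω
  refine ⟨fun ω => (hle ω).trans_lt ENNReal.ofReal_lt_top,
    (memLp_two_iff_integrable_sq hZm.aestronglyMeasurable).2 hZint, ?_⟩
  refine (variance_le_expectation_sq hZm.aestronglyMeasurable).trans ?_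
  have h2 : ∫ ω, Z ω ^ 2 ∂P ≤ ∫ ω, (n : ℝ) * ∑ k : Fin n, ξ (ed s[k.1]) ω ^ 2 ∂P :=
    integral_mono hZint hint hZle
  refine h2.trans ?_
  rw [integral_const_mul, integral_finsetSum _ (fun k _ => (sq_edge h (hd k)).1)]
  have h3 : ∑ k : Fin n, ∫ ω, ξ (ed s[k.1]) ω ^ 2 ∂P ≤ n * 16 := by
    refine (Finset.sum_le_sum (g := fun _ => (16 : ℝ)) fun k _ => (sq_edge h (hd k)).2).trans ?_
    rw [Finset.sum_const, Finset.card_univ, Fintype.card_fin, nsmul_eq_mul]
  have h4 : (0 : ℝ) ≤ n := Nat.cast_nonneg _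
  have h5 := dist2_nonneg y z
  calc (n : ℝ) * ∑ k : Fin n, ∫ ω, ξ (ed s[k.1]) ω ^ 2 ∂P ≤ n * (n * 16) :=
        mul_le_mul_of_nonneg_left h3 h4
    _ = 16 * (n : ℝ) ^ 2 := by ring
    _ ≤ 16 * (d * dist2 y z) ^ 2 := by gcongr

/-- The ball. -/
def Bl (y : Fin d → ℤ) (R : ℝ) : Set (Fin d → ℤ) := {v | dist2 y v ≤ R}

theorem disjoint_Al {r : ℝ} {y z : Fin d → ℤ} {R R' : ℝ} (h : R + R' < dist2 y z) :
    Disjoint (Al r (Bl y R)) (Al r (Bl z R')) := by
  rw [Set.disjoint_left]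
  rintro e ⟨a, b, rfl, h1, h2, h3⟩ h4
  rw [mem_Al] at h4
  have h5 : dist2 y a ≤ R := h2
  have h6 : dist2 z a ≤ R' := h4.2.1
  have h7 := dist2_triangle y a z
  rw [dist2_comm a z] at h7
  linarith

/-- The probability that the passage time is large. -/
theorem upper_prob (hd : 1 ≤ d) (h : IsExpFamily P ξ) [IsProbabilityMeasure P] {r τ M R : ℝ}
    {X : Fin d → ℤ} (hX : R = dist2 0 X) (hR : 100 * d ≤ √R) (H : Hyp P ξ r τ M) (hr : 1 < r)
    (hτ : 0 < τ) (hM : M ≤ √R / 2) :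
    P {ω | 3 * τ * R < T (fun e => ξ e ω) 0 X} ≤
      ENNReal.ofReal (73728 * d ^ 2 / (τ ^ 2 * √R)) := by
  have hd0 : (1 : ℝ) ≤ d := by exact_mod_cast hd
  set q := √R with hq
  have hq0 : 0 < q := by linarith
  have hR0 : 0 < R := Real.sqrt_pos.1 hq0
  have hqR : q * q = R := Real.mul_self_sqrt hR0.le
  set m := ⌊q⌋₊ with hm
  have hm1 : (m : ℝ) ≤ q := Nat.floor_le hq0.le
  have hm2 : q < m + 1 := Nat.lt_floor_add_one _
  have hm0 : (0 : ℝ) < m := by linarith
  have hm0' : m ≠ 0 := by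
    intro h0; rw [h0] at hm0; simp at hm0
  have hh1 : q ≤ R / m := by
    rw [le_div_iff₀ hm0, ← hqR]
    exact mul_le_mul_of_nonneg_left hm1 hq0.le
  have hh2 : R / m ≤ 2 * q := by
    rw [div_le_iff₀ hm0, ← hqR]
    nlinarith
  set p := pt 0 X m with hp
  have hdk : ∀ k : ℕ, |dist2 (p k) (p (k + 1)) - R / m| ≤ d := by
    intro k
    have := dist2_pt 0 X m k (k + 1)
    have e : |((k + 1 : ℕ) : ℝ) - k| / m * dist2 0 X = R / m := by
      push_cast
      rw [add_sub_cancel_left, abs_one, ← hX]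
      ring
    rw [e] at this
    exact this
  set D : ℕ → ℝ := fun k => dist2 (p k) (p (k + 1)) with hD
  set A : ℕ → Set (Sym2 (Fin d → ℤ)) := fun k => Al r (Bl (p k) (3 * D k)) with hA
  set Y : ℕ → Ω → ℝ≥0∞ := fun k => TA (wt ξ (kap d)) (A k) (p k) (p (k + 1)) with hY
  set Z : ℕ → Ω → ℝ := fun k ω => (Y k ω).toReal with hZ
  have hDle : ∀ k, D k ≤ 3 * q := by
    intro k
    have := (abs_le.1 (hdk k)).2
    rw [hD]; simp only; linarith
  have hsm : ∀ k, (∀ ω, Y k ω < ⊤) ∧ MemLp (Z k) 2 P ∧ variance (Z k) P ≤ 144 * d ^ 2 * R := by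
    intro k
    obtain ⟨h1, h2, h3⟩ := second_moment h (p k) (p (k + 1)) hr (Λ := Bl (p k) (3 * D k))
      (fun v hv => hv)
    refine ⟨h1, h2, h3.trans ?_⟩
    have h4 : (d * dist2 (p k) (p (k + 1))) ^ 2 ≤ (d * (3 * q)) ^ 2 := by
      apply pow_le_pow_left₀ (mul_nonneg (by linarith) (dist2_nonneg _ _))
      exact mul_le_mul_of_nonneg_left (hDle k) (by linarith)
    rw [← hqR]
    nlinarith
  have hYm : ∀ k, Measurable (Y k) := fun k => measurable_TA_wt' h _ _ _ _
  have hexp : ∀ k, ∫ ω, Z k ω ∂P ≤ τ * D k := by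
    intro k
    rw [hZ]
    simp only
    rw [integral_toReal (hYm k).aemeasurable (Filter.Eventually.of_forall (hsm k).1)]
    have h1 := (abs_le.1 (hdk k)).1
    apply ENNReal.toReal_le_of_le_ofReal (mul_nonneg hτ.le (dist2_nonneg _ _))
    exact H (p k) (p (k + 1)) _ (by linarith) (fun v hv => hv)
  have hsumD : ∑ k ∈ Finset.range m, τ * D k ≤ 2 * τ * R := by
    have h1 : ∑ k ∈ Finset.range m, τ * D k ≤ ∑ k ∈ Finset.range m, τ * (R / m + d) := by
      apply Finset.sum_le_sum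
      intro k _
      apply mul_le_mul_of_nonneg_left _ hτ.le
      have := (abs_le.1 (hdk k)).2
      rw [hD]; simp only; linarith
    refine h1.trans ?_
    rw [Finset.sum_const, Finset.card_range, nsmul_eq_mul]
    have h2 : (m : ℝ) * (τ * (R / m + d)) = τ * (R + m * d) := by field_simp
    rw [h2]
    have h3 : (m : ℝ) * d ≤ R := by rw [← hqR]; nlinarith
    nlinarith
  -- independence
  have hind : ∀ k l : ℕ, k + 8 ≤ l → IndepFun (Z k) (Z l) P := by
    intro k l hkl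
    have hdis : Disjoint (A k) (A l) := by
      apply disjoint_Al
      have h1 := (abs_le.1 (dist2_pt 0 X m k l)).1
      have h2 : 8 * (R / m) ≤ |(l : ℝ) - k| / m * dist2 0 X := by
        have h3 : (8 : ℝ) ≤ |(l : ℝ) - k| := by
          have : (k : ℝ) + 8 ≤ l := by exact_mod_cast hkl
          rw [abs_of_nonneg (by linarith)]; linarith
        rw [← hX]
        have h4 : |(l : ℝ) - k| / m * R = |(l : ℝ) - k| * (R / m) := by ring
        rw [h4]
        exact mul_le_mul_of_nonneg_right h3 (by positivity)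
      have h5 := (abs_le.1 (hdk k)).2
      have h6 := (abs_le.1 (hdk l)).2
      show 3 * D k + 3 * D l < dist2 (pt 0 X m k) (pt 0 X m l)
      rw [hD]
      simp only
      linarith
    rw [IndepFun_iff_Indep]
    refine indep_of_indep_of_le (indep_sig h hdis) ?_ ?_
    · have : Measurable[sig ξ (A k)] (Z k) :=
        Measurable.ennreal_toReal (measurable_TA_wt (kap d) le_rfl _ _)
      exact this.comap_le
    · have : Measurable[sig ξ (A l)] (Z l) :=
        Measurable.ennreal_toReal (measurable_TA_wt (kap d) le_rfl _ _)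
      exact this.comap_le
  set F : ℕ → Finset ℕ := fun a => (Finset.range m).filter (fun k => k % 8 = a) with hF
  set S : ℕ → Ω → ℝ := fun a => ∑ k ∈ F a, Z k with hS
  set δ : ℝ := τ * R / 8 with hδ
  have hδ0 : 0 < δ := by positivity
  have hSmem : ∀ a, MemLp (S a) 2 P := fun a => memLp_finsetSum' _ fun k _ => (hsm k).2.1
  have hvar : ∀ a, variance (S a) P ≤ q * (144 * d ^ 2 * R) := by
    intro a
    have h1 : variance (S a) P = ∑ k ∈ F a, variance (Z k) P := by
      apply IndepFun.variance_sum (fun k _ => (hsm k).2.1)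
      intro k hk l hl hkl
      rw [hF, Finset.mem_coe, Finset.mem_filter] at hk hl
      rcases lt_or_gt_of_ne hkl with h2 | h2
      · exact hind k l (by omega)
      · exact (hind l k (by omega)).symm
    rw [h1]
    refine (Finset.sum_le_sum (g := fun _ => 144 * (d : ℝ) ^ 2 * R)
      fun k _ => (hsm k).2.2).trans ?_
    rw [Finset.sum_const, nsmul_eq_mul]
    apply mul_le_mul_of_nonneg_right _ (by positivity)
    refine le_trans ?_ hm1
    have : (F a).card ≤ m := by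
      rw [hF]
      exact (Finset.card_filter_le _ _).trans (by simp)
    exact_mod_cast this
  set B : ℕ → Set Ω := fun a => {ω | δ ≤ |S a ω - ∫ ω, S a ω ∂P|} with hB
  have hPB : ∀ a, P (B a) ≤ ENNReal.ofReal (q * (144 * d ^ 2 * R) / δ ^ 2) := by
    intro a
    refine (meas_ge_le_variance_div_sq (hSmem a) hδ0).trans ?_
    apply ENNReal.ofReal_le_ofReal
    exact div_le_div_of_nonneg_right (hvar a) (by positivity)
  set N : Set Ω := {ω | ¬ ∀ e, ¬ e.IsDiag → 0 ≤ ξ e ω} with hN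
  have hPN : P N = 0 := ae_nonneg h
  have hsub : {ω | 3 * τ * R < T (fun e => ξ e ω) 0 X} ⊆ N ∪ ⋃ a ∈ Finset.range 8, B a := by
    intro ω hω
    by_contra hc
    simp only [Set.mem_union, not_or, Set.mem_iUnion, not_exists] at hc
    obtain ⟨h1, h2⟩ := hc
    have hξ : ∀ e, ¬ e.IsDiag → 0 ≤ ξ e ω := by
      by_contra h4
      exact h1 h4
    have hT : T (fun e => ξ e ω) 0 X ≤ ∑ k ∈ Finset.range m, Z k ω := by
      have h3 := (T_le_TA hξ Set.univ 0 X).trans (TA_pieces (w := wt ξ (kap d))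
        (C := Set.univ) A p m (fun _ _ => Set.subset_univ _) ω |>.trans' (by
          rw [hp, pt_zero, pt_self 0 X hm0']))
      have h4 : ∑ k ∈ Finset.range m, TA (wt ξ (kap d)) (A k) (p k) (p (k + 1)) ω =
          ENNReal.ofReal (∑ k ∈ Finset.range m, Z k ω) := by
        rw [ENNReal.ofReal_sum_of_nonneg (fun _ _ => ENNReal.toReal_nonneg)]
        apply Finset.sum_congr rfl
        intro k _
        exact (ENNReal.ofReal_toReal ((hsm k).1 ω).ne).symm
      rw [h4] at h3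
      exact (ENNReal.ofReal_le_ofReal_iff
        (Finset.sum_nonneg fun _ _ => ENNReal.toReal_nonneg)).1 h3
    have hsplit : ∑ k ∈ Finset.range m, Z k ω = ∑ a ∈ Finset.range 8, S a ω := by
      have h5 : ∀ a, S a ω = ∑ k ∈ Finset.range m, if k % 8 = a then Z k ω else 0 := by
        intro a
        rw [hS]
        simp only [Finset.sum_apply]
        rw [hF, Finset.sum_filter]
      simp only [h5]
      rw [Finset.sum_comm]
      apply Finset.sum_congr rfl
      intro k _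
      rw [Finset.sum_ite_eq, if_pos]
      exact Finset.mem_range.2 (Nat.mod_lt _ (by norm_num))
    have hEsplit : ∑ a ∈ Finset.range 8, ∫ ω, S a ω ∂P ≤ 2 * τ * R := by
      have h5 : ∀ a, ∫ ω, S a ω ∂P = ∑ k ∈ Finset.range m,
          if k % 8 = a then ∫ ω, Z k ω ∂P else 0 := by
        intro a
        rw [hS]
        simp only [Finset.sum_apply]
        rw [integral_finsetSum _ (fun k _ => ((hsm k).2.1.integrable (by norm_num)))]
        rw [hF, Finset.sum_filter]
      simp only [h5]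
      rw [Finset.sum_comm]
      refine le_trans ?_ hsumD
      apply Finset.sum_le_sum
      intro k _
      rw [Finset.sum_ite_eq, if_pos]
      · exact hexp k
      · exact Finset.mem_range.2 (Nat.mod_lt _ (by norm_num))
    have hSle : ∑ a ∈ Finset.range 8, S a ω ≤
        ∑ a ∈ Finset.range 8, (∫ ω, S a ω ∂P + δ) := by
      apply Finset.sum_le_sum
      intro a ha
      have h6 := h2 a ha
      rw [hB] at h6
      have h7 : |S a ω - ∫ ω, S a ω ∂P| < δ := not_le.1 h6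
      have := (abs_lt.1 h7).2
      linarith
    rw [Finset.sum_add_distrib, Finset.sum_const, Finset.card_range, nsmul_eq_mul] at hSle
    have h8 : ((8 : ℕ) : ℝ) * δ = τ * R := by rw [hδ]; push_cast; ring
    rw [h8] at hSle
    have h9 : 3 * τ * R < T (fun e => ξ e ω) 0 X := hω
    linarith
  calc P {ω | 3 * τ * R < T (fun e => ξ e ω) 0 X} ≤ P (N ∪ ⋃ a ∈ Finset.range 8, B a) :=
        measure_mono hsub
    _ ≤ P N + P (⋃ a ∈ Finset.range 8, B a) := measure_union_le _ _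
    _ ≤ 0 + ∑ a ∈ Finset.range 8, ENNReal.ofReal (q * (144 * d ^ 2 * R) / δ ^ 2) := by
        rw [hPN]
        refine add_le_add le_rfl ?_
        exact (measure_biUnion_finset_le _ _).trans (Finset.sum_le_sum fun a _ => hPB a)
    _ = ENNReal.ofReal (73728 * d ^ 2 / (τ ^ 2 * q)) := by
        rw [zero_add, Finset.sum_const, Finset.card_range, nsmul_eq_mul,
          ← ENNReal.ofReal_natCast, ← ENNReal.ofReal_mul (by positivity)]
        congr 1
        rw [hδ, ← hqR]
        push_cast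
        field_simp
        norm_num

end Pool.Agent.Lib_helper7.FPP
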