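import Mathlib
import Pool.Agent.Lib_helper7.FPP.Upper

/-!
# The upper bound: the limit
-/

namespace Pool.Agent.Lib_helper7.FPP

open scoped ENNReal
open Real MeasureTheory ProbabilityTheory Filter Topology

variable {d : ℕ}

theorem eventually_log_le (a b : ℝ) {ε : ℝ} (hε : 0 < ε) :
    ∀ᶠ n : ℕ in atTop, a * Real.log n + b ≤ (n : ℝ) ^ ε := by
  have h1 : (fun x : ℝ => a * Real.log x) =o[atTop] fun x => x ^ ε :=
    (isLittleO_log_rpow_atTop hε).const_mul_left a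
  have h2 : (fun _ : ℝ => b) =o[atTop] fun x : ℝ => x ^ ε :=
    Asymptotics.isLittleO_const_left.2 (Or.inr (tendsto_norm_atTop_atTop.comp (tendsto_rpow_atTop hε)))
  have h3 := (h1.add h2).bound (show (0 : ℝ) < 1 by norm_num)
  have h4 := tendsto_natCast_atTop_atTop (R := ℝ) |>.eventually h3
  filter_upwards [h4] with n hn
  rw [one_mul, Real.norm_of_nonneg (Real.rpow_nonneg (Nat.cast_nonneg n) ε)] at hn
  exact (le_abs_self _).trans hn

/-- The upper bound, in the limit. -/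
theorem upper_tendsto (hd : 1 ≤ d) {Ω : Type*} [MeasurableSpace Ω] {P : Measure Ω}
    [IsProbabilityMeasure P] {ξ : Sym2 (Fin d → ℤ) → Ω → ℝ} (h : IsExpFamily P ξ)
    {x : Fin d → ℤ} (hx : x ≠ 0) :
    ∃ C : ℝ, 0 < C ∧ Tendsto (fun n : ℕ => P {ω |
      C * (n * (Real.log n) ^ (-((d : ℝ) + 1) / 2)) < T (fun e => ξ e ω) 0 (n • x)})
      atTop (𝓝 0) := by
  have hd0 : (1 : ℝ) ≤ d := by exact_mod_cast hd
  have hA := one_le_cA hd
  have hc5 := c5_pos hd
  have hc3 := c3_pos hd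
  have hc31 := c3_lt_one (d := d)
  have hr0 : 20 ≤ r0 d := by
    rw [r0, le_div_iff₀ hc3]
    nlinarith
  set r := dist2 0 x with hr
  have hr1 : 1 ≤ r := one_le_dist2 hx.symm
  have hr00 : 0 < r := by linarith
  set J : ℕ → ℕ := fun n => ⌊Real.log n / 20⌋₊ with hJ
  have hj1 : (1 : ℝ) ≤ j1 d := by
    have h1 : 0 < j1 d := Nat.ceil_pos.2 (by positivity)
    exact_mod_cast h1
  have hlogn : Tendsto (fun n : ℕ => Real.log (n : ℝ)) atTop atTop :=
    Real.tendsto_log_atTop.comp tendsto_natCast_atTop_atTop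
  set C : ℝ := 3 * cA d * r / (√(c5 d / 20)) ^ (d + 1) with hC
  refine ⟨C, by positivity, ?_⟩
  -- the bound for the probability
  have hlim : Tendsto (fun n : ℕ => ENNReal.ofReal (73728 * d ^ 2 / (n : ℝ) ^ (1 / 4 : ℝ)))
      atTop (𝓝 0) := by
    have h1 : Tendsto (fun n : ℕ => 73728 * (d : ℝ) ^ 2 / (n : ℝ) ^ (1 / 4 : ℝ)) atTop (𝓝 0) :=
      tendsto_const_nhds.div_atTop
        ((tendsto_rpow_atTop (by norm_num)).comp tendsto_natCast_atTop_atTop)
    simpa using ENNReal.tendsto_ofReal h1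
  refine tendsto_of_tendsto_of_tendsto_of_le_of_le' tendsto_const_nhds hlim
    (Eventually.of_forall fun _ => zero_le) ?_
  have E1 := eventually_log_le (16 * r0 d * (c5 d / 20)) (16 * r0 d * (c5 d * j1 d))
    (show (0 : ℝ) < 1 / 4 by norm_num)
  have E2 := eventually_log_le (c5 d / 20) (c5 d * j1 d)
    (show (0 : ℝ) < 1 / (4 * ((d : ℝ) + 1)) by positivity)
  have E3 : ∀ᶠ n : ℕ in atTop, 100 * (d : ℝ) ≤ √(n : ℝ) :=
    (Real.tendsto_sqrt_atTop.comp tendsto_natCast_atTop_atTop).eventually_ge_atTop _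
  filter_upwards [E1, E2, E3, eventually_ge_atTop 2, hlogn.eventually_gt_atTop 0]
    with n e1 e2 e3 hn hlog
  have hn0 : (0 : ℝ) < n := by
    have : (2 : ℝ) ≤ n := by exact_mod_cast hn
    linarith
  set R : ℝ := n * r with hR
  have hRX : R = dist2 0 (n • x) := by rw [dist2_nsmul]
  have hnR : (n : ℝ) ≤ R := by rw [hR]; nlinarith
  have hsq : √(n : ℝ) ≤ √R := Real.sqrt_le_sqrt hnR
  set j := J n with hj
  set s := sj d j with hs
  have hs0 : 0 < s := sj_pos hd j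
  have hjle : (j : ℝ) ≤ Real.log n / 20 := Nat.floor_le (by positivity)
  have hjge : Real.log n / 20 < j + 1 := Nat.lt_floor_add_one _
  have hs2 : s ^ 2 = c5 d * (j + j1 d) := sj_sq hd j
  have hs_le : s ^ 2 ≤ c5 d / 20 * Real.log n + c5 d * j1 d := by
    rw [hs2]; nlinarith
  have hs_ge : c5 d / 20 * Real.log n ≤ s ^ 2 := by
    rw [hs2]; nlinarith
  have h64 : (64 : ℝ) ^ j ≤ (n : ℝ) ^ (1 / 4 : ℝ) := by
    rw [Real.rpow_def_of_pos hn0]
    have h1 : (64 : ℝ) ≤ exp 5 := by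
      have h2 : (2.7182818283 : ℝ) < exp 1 := Real.exp_one_gt_d9
      have h3 : exp 5 = (exp 1) ^ 5 := by rw [← Real.exp_nat_mul]; norm_num
      rw [h3]
      calc (64 : ℝ) ≤ 2.7182818283 ^ 5 := by norm_num
        _ ≤ (exp 1) ^ 5 := pow_le_pow_left₀ (by norm_num) h2.le 5
    calc (64 : ℝ) ^ j ≤ (exp 5) ^ j := pow_le_pow_left₀ (by norm_num) h1 j
      _ = exp (j * 5) := by rw [← Real.exp_nat_mul]
      _ ≤ exp (Real.log n * (1 / 4)) := by
          rw [Real.exp_le_exp]; linarith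
  have hsqrt : √(n : ℝ) = (n : ℝ) ^ (1 / 4 : ℝ) * (n : ℝ) ^ (1 / 4 : ℝ) := by
    rw [← Real.rpow_add hn0, Real.sqrt_eq_rpow]
    norm_num
  have hn4 : (0 : ℝ) < (n : ℝ) ^ (1 / 4 : ℝ) := by positivity
  obtain ⟨M, hM1, -, H⟩ := hyp_all hd h j
  have hM : M ≤ √R / 2 := by
    have h1 : 16 * r0 d * s ^ 2 ≤ (n : ℝ) ^ (1 / 4 : ℝ) := by
      refine le_trans ?_ e1
      have := mul_le_mul_of_nonneg_left hs_le (show 0 ≤ 16 * r0 d by linarith)
      linarith
    have h2 : 16 * r0 d * s ^ 2 * 64 ^ j ≤ √(n : ℝ) := by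
      rw [hsqrt]
      exact mul_le_mul h1 h64 (by positivity) hn4.le
    have h3 : 8 * (r0 d * 64 ^ j * s ^ 2) = 16 * r0 d * s ^ 2 * 64 ^ j / 2 := by ring
    linarith
  have h64' : (1 : ℝ) ≤ 64 ^ j := one_le_pow₀ (by norm_num)
  set τ : ℝ := cA d / s ^ (d + 1) with hτ
  have hτ0 : 0 < τ := by positivity
  have key := upper_prob hd h hRX (by linarith) H (by nlinarith) hτ0 hM
  refine le_trans (measure_mono ?_) (key.trans ?_)
  · intro ω hω
    rw [Set.mem_ofPred_eq] at hω ⊢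
    refine lt_of_le_of_lt ?_ hω
    rw [rpow_half d hlog, hτ, hC, hR]
    have h1 : √(c5 d / 20) * √(Real.log n) ≤ s := by
      rw [← Real.sqrt_mul (by positivity)]
      exact Real.sqrt_le_iff.2 ⟨hs0.le, hs_ge⟩
    have hlq : 0 < √(Real.log n) := Real.sqrt_pos.2 hlog
    have hcq : 0 < √(c5 d / 20) := Real.sqrt_pos.2 (by positivity)
    have h2 : (√(c5 d / 20) * √(Real.log n)) ^ (d + 1) ≤ s ^ (d + 1) :=
      pow_le_pow_left₀ (by positivity) h1 _
    calc 3 * (cA d / s ^ (d + 1)) * (n * r) = 3 * cA d * n * r / s ^ (d + 1) := by ring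
      _ ≤ 3 * cA d * n * r / (√(c5 d / 20) * √(Real.log n)) ^ (d + 1) := by
          apply div_le_div_of_nonneg_left (by positivity) (by positivity) h2
      _ = _ := by
          rw [mul_pow]; field_simp
  · apply ENNReal.ofReal_le_ofReal
    have h1 : (s ^ (d + 1)) ^ 2 ≤ (n : ℝ) ^ (1 / 4 : ℝ) := by
      have h2 : s ^ 2 ≤ (n : ℝ) ^ (1 / (4 * ((d : ℝ) + 1))) := hs_le.trans e2
      calc (s ^ (d + 1)) ^ 2 = (s ^ 2) ^ (d + 1) := by rw [← pow_mul, ← pow_mul, mul_comm]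
        _ ≤ ((n : ℝ) ^ (1 / (4 * ((d : ℝ) + 1)))) ^ (d + 1) :=
            pow_le_pow_left₀ (by positivity) h2 _
        _ = (n : ℝ) ^ (1 / 4 : ℝ) := by
            rw [← Real.rpow_natCast, ← Real.rpow_mul hn0.le]
            congr 1
            push_cast
            field_simp
    have hRn : (n : ℝ) ^ (1 / 4 : ℝ) * (n : ℝ) ^ (1 / 4 : ℝ) ≤ √R := by rw [← hsqrt]; exact hsq
    have h3 : 1 / (n : ℝ) ^ (1 / 4 : ℝ) ≤ τ ^ 2 := by
      rw [hτ, div_pow, div_le_div_iff₀ hn4 (by positivity), one_mul]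
      have : 1 ≤ cA d ^ 2 := one_le_pow₀ hA
      nlinarith
    have h4 : (n : ℝ) ^ (1 / 4 : ℝ) ≤ τ ^ 2 * √R := by
      calc (n : ℝ) ^ (1 / 4 : ℝ) = 1 / (n : ℝ) ^ (1 / 4 : ℝ) *
            ((n : ℝ) ^ (1 / 4 : ℝ) * (n : ℝ) ^ (1 / 4 : ℝ)) := by field_simp
        _ ≤ τ ^ 2 * √R := mul_le_mul h3 hRn (by positivity) (by positivity)
    exact div_le_div_of_nonneg_left (by positivity) hn4 h4

/-- The order of growth of the first-passage time. -/
theorem order_of_growth (hd : 1 ≤ d) {Ω : Type*} [MeasurableSpace Ω] {P : Measure Ω}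
    [IsProbabilityMeasure P] {ξ : Sym2 (Fin d → ℤ) → Ω → ℝ} (h : IsExpFamily P ξ)
    {x : Fin d → ℤ} (hx : x ≠ 0) :
    ∃ c C : ℝ, 0 < c ∧ c < C ∧ Tendsto (fun n : ℕ => P {ω |
      c ≤ T (fun e => ξ e ω) 0 (n • x) / (n * (Real.log n) ^ (-((d : ℝ) + 1) / 2)) ∧
      T (fun e => ξ e ω) 0 (n • x) / (n * (Real.log n) ^ (-((d : ℝ) + 1) / 2)) ≤ C})
      atTop (𝓝 1) := by
  obtain ⟨c, hc, hlow⟩ := lower_tendsto hd h hx
  obtain ⟨C, hC, hup⟩ := upper_tendsto hd h hx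
  refine ⟨c, C + c, hc, by linarith, ?_⟩
  have hsum := hlow.add hup
  rw [add_zero] at hsum
  have hsub := ENNReal.Tendsto.sub (tendsto_const_nhds (x := (1 : ℝ≥0∞))) hsum
    (Or.inl ENNReal.one_ne_top)
  rw [tsub_zero] at hsub
  refine tendsto_of_tendsto_of_tendsto_of_le_of_le' hsub tendsto_const_nhds ?_
    (Eventually.of_forall fun n => prob_le_one)
  have hlogn : Tendsto (fun n : ℕ => Real.log (n : ℝ)) atTop atTop :=
    Real.tendsto_log_atTop.comp tendsto_natCast_atTop_atTop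
  filter_upwards [eventually_ge_atTop 2, hlogn.eventually_gt_atTop 0] with n hn hlog
  have hn0 : (0 : ℝ) < n := by
    have : (2 : ℝ) ≤ n := by exact_mod_cast hn
    linarith
  set b : ℝ := n * (Real.log n) ^ (-((d : ℝ) + 1) / 2) with hb
  have hb0 : 0 < b := by positivity
  rw [tsub_le_iff_right]
  set G : Set Ω := {ω | c ≤ T (fun e => ξ e ω) 0 (n • x) / b ∧
    T (fun e => ξ e ω) 0 (n • x) / b ≤ C + c} with hG
  set L : Set Ω := {ω | T (fun e => ξ e ω) 0 (n • x) < c * b} with hL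
  set U : Set Ω := {ω | C * b < T (fun e => ξ e ω) 0 (n • x)} with hU
  have hcov : (Set.univ : Set Ω) ⊆ G ∪ (L ∪ U) := by
    intro ω _
    by_cases h1 : ω ∈ L
    · exact Or.inr (Or.inl h1)
    · by_cases h2 : ω ∈ U
      · exact Or.inr (Or.inr h2)
      · left
        rw [hL, Set.mem_ofPred_eq, not_lt] at h1
        rw [hU, Set.mem_ofPred_eq, not_lt] at h2
        refine ⟨by rw [le_div_iff₀ hb0]; exact h1, ?_⟩
        rw [div_le_iff₀ hb0]
        nlinarith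
  calc (1 : ℝ≥0∞) = P Set.univ := measure_univ.symm
    _ ≤ P (G ∪ (L ∪ U)) := measure_mono hcov
    _ ≤ P G + (P L + P U) :=
        (measure_union_le _ _).trans (add_le_add le_rfl (measure_union_le _ _))

end Pool.Agent.Lib_helper7.FPP
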